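import Mathlib

set_option autoImplicit false

namespace Pool.Agent.H28R3

/-- The graph with edge set `C` contains all edges of some cycle of odd length. -/
def HasOddCycle {n : ℕ} (C : Finset (Sym2 (Fin n))) : Prop :=
  ∃ (v : Fin n) (p : (SimpleGraph.fromEdgeSet (C : Set (Sym2 (Fin n)))).Walk v v),
    p.IsCycle ∧ Odd p.length

/-- The two conventions for a last round in which fewer than `q + 1` edges are unclaimed:
either all of them are offered and Client claims one of them (Waiter claims the rest), or
Waiter simply claims all of them. -/
inductive LastRound : Type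
  | clientTakesOne : LastRound
  | waiterTakesAll : LastRound

/-- `WaiterForces r q C U`: in the `(1 : q)` Waiter-Client odd cycle game, in the position in which
Client has claimed the edges in `C` and the edges in `U` are unclaimed (and Waiter has claimed all
other edges), Waiter has a strategy that makes Client's graph contain an odd cycle at the end. -/
inductive WaiterForces {n : ℕ} (r : LastRound) (q : ℕ) :
    Finset (Sym2 (Fin n)) → Finset (Sym2 (Fin n)) → Prop
  /-- All edges are claimed. -/
  | finished (C : Finset (Sym2 (Fin n))) (h : HasOddCycle C) : WaiterForces r q C ∅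
  /-- Waiter offers a set `F` of `q + 1` unclaimed edges; Client picks any one of them. -/
  | round (C U F : Finset (Sym2 (Fin n))) (hFU : F ⊆ U) (hF : F.card = q + 1)
      (h : ∀ e ∈ F, WaiterForces r q (insert e C) (U \ F)) : WaiterForces r q C U
  /-- The last, incomplete round. -/
  | last (C U : Finset (Sym2 (Fin n))) (hne : U.Nonempty) (hU : U.card < q + 1)
      (h1 : r = LastRound.clientTakesOne → ∀ e ∈ U, HasOddCycle (insert e C))
      (h2 : r = LastRound.waiterTakesAll → HasOddCycle C) : WaiterForces r q C U

/-- Waiter has a winning strategy in the `(1 : q)` Waiter-Client odd cycle game on `K_n`. -/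
def WaiterWins (r : LastRound) (n q : ℕ) : Prop :=
  WaiterForces r q (∅ : Finset (Sym2 (Fin n))) (⊤ : SimpleGraph (Fin n)).edgeFinset

/-- The threshold bias: the largest `q ≥ 1` for which Waiter has a winning strategy. -/
noncomputable def threshold (r : LastRound) (n : ℕ) : ℕ :=
  sSup {q : ℕ | 1 ≤ q ∧ WaiterWins r n q}

end Pool.Agent.H28R3
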