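import Pool.Agent.H28R3.Sums

set_option autoImplicit false

namespace Pool.Agent.H28R3

open Finset

variable {n : ℕ} {D k : ℕ} {G U : Finset (Sym2 (Fin n))} {m : ℝ}

lemma card_ordered_le (X : Finset (Sym2 (Fin n))) :
    (Finset.univ.filter fun p : Fin n × Fin n => s(p.2, p.1) ∈ X).card ≤ 2 * X.card := by
  refine Finset.card_le_mul_card_image_of_maps_to
    (s := Finset.univ.filter fun p : Fin n × Fin n => s(p.2, p.1) ∈ X)
    (t := X) (f := fun p => s(p.2, p.1)) (fun p hp => by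
      rw [Finset.mem_filter] at hp; exact hp.2) 2 ?_
  intro e he
  induction e using Sym2.ind with
  | _ a b =>
  refine (Finset.card_le_card (t := {(b, a), (a, b)}) ?_).trans Finset.card_le_two
  intro p hp
  rw [Finset.mem_filter] at hp
  have := hp.2
  rw [Sym2.eq_iff] at this
  rw [Finset.mem_insert, Finset.mem_singleton]
  rcases this with ⟨h8, h9⟩ | ⟨h8, h9⟩
  · left; exact Prod.ext h9 h8
  · right; exact Prod.ext h9 h8

open Classical in
/-- The unclaimed pairs which close an odd cycle. -/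
noncomputable def Cl (G U : Finset (Sym2 (Fin n))) : Finset (Sym2 (Fin n)) :=
  U.filter fun e => HasOddCycle (insert e G)

/-- Bound for the `a`-part. -/
lemma apart_le {T : ℕ} (hG : Good D (4 * T + 1) G U) (hm : 0 < m) :
    ∑ t : Fin T, ∑ s : Fin (2 * (t : ℕ) + 2 + 1) ↪ Fin n, aT m G U s (Fin.last _)
      ≤ 2 * (Cl G U).card * m⁻¹ := by
  classical
  set B : (t : Fin T) → Finset (Fin (2 * (t : ℕ) + 2 + 1) ↪ Fin n) := fun t =>
    Finset.univ.filter fun s => ce s (Fin.last _) ∈ U ∧ ∀ i', i' ≠ Fin.last _ → ce s i' ∈ G with hB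
  have h1 : ∑ t : Fin T, ∑ s : Fin (2 * (t : ℕ) + 2 + 1) ↪ Fin n, aT m G U s (Fin.last _)
      = ((Finset.univ.sigma B).card : ℝ) * m⁻¹ := by
    rw [Finset.card_sigma, Nat.cast_sum, Finset.sum_mul]
    refine Finset.sum_congr rfl fun t _ => ?_
    unfold aT
    rw [← Finset.sum_filter, Finset.sum_const, nsmul_eq_mul]
  rw [h1]
  apply mul_le_mul_of_nonneg_right _ (inv_nonneg.mpr hm.le)
  have h2 : (Finset.univ.sigma B).card
      ≤ (Finset.univ.filter fun p : Fin n × Fin n => s(p.2, p.1) ∈ Cl G U).card := by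
    apply Finset.card_le_card_of_injOn (fun x => (x.2 0, x.2 (Fin.last _)))
    · rintro ⟨t, s⟩ hs
      rw [Finset.mem_coe, Finset.mem_sigma, hB, Finset.mem_filter] at hs
      obtain ⟨-, -, hU, hGG⟩ := hs
      rw [Finset.mem_coe, Finset.mem_filter]
      refine ⟨Finset.mem_univ _, ?_⟩
      unfold Cl
      rw [Finset.mem_filter]
      rw [ce_last] at hU
      refine ⟨hU, ?_⟩
      apply odd_of_closing (j := 2 * (t : ℕ) + 2) ⟨(t : ℕ) + 1, by ring⟩ s s.injective (by omega)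
      · intro i
        rw [← ce_castSucc]
        exact hGG _ (Fin.castSucc_lt_last i).ne
      · intro hmem
        exact (Finset.disjoint_left.mp hG.disj hmem) hU
    · rintro ⟨t, s⟩ hs ⟨t', s'⟩ hs' heq
      rw [Finset.mem_coe, Finset.mem_sigma, hB, Finset.mem_filter] at hs hs'
      obtain ⟨-, -, hU, hGG⟩ := hs
      obtain ⟨-, -, hU', hGG'⟩ := hs'
      simp only [Prod.mk.injEq] at heq
      have hu := unique_seq hG.loc (j := 2 * (t : ℕ) + 2) (j' := 2 * (t' : ℕ) + 2) (by omega)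
        s s' s.injective s'.injective
        (fun i => by rw [← ce_castSucc]; exact hGG _ (Fin.castSucc_lt_last i).ne)
        (fun i => by rw [← ce_castSucc]; exact hGG' _ (Fin.castSucc_lt_last i).ne)
        heq.1 heq.2
      have ht : t = t' := by
        have := congrArg Sigma.fst hu
        simp only at this
        exact Fin.ext (by omega)
      subst ht
      have hss : (s : Fin (2 * (t : ℕ) + 2 + 1) → Fin n) = s' := by
        have := (Sigma.mk.injEq _ _ _ _).mp hu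
        exact eq_of_heq this.2
      rw [DFunLike.coe_injective hss]
  have h3 := h2.trans (card_ordered_le (Cl G U))
  exact_mod_cast h3

/-- The final inequality. -/
lemma final_ineq {T : ℕ} (hG : Good D (4 * T + 1) G U) (hm : 1 ≤ m) (hnm : (n : ℝ) ≤ m)
    (hTD : 2 * T + 1 < D) {lam : ℝ} (hlam : 1 ≤ lam * ((D : ℝ) - (2 * T + 1))) :
    ∑ t : Fin T, ∑ s : Fin (2 * (t : ℕ) + 2 + 1) ↪ Fin n,
      (2 * ((2 * (t : ℕ) + 2 + 1 : ℕ) : ℝ))⁻¹ * (pS m G U s - lam * qS m G U s)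
      ≤ (Cl G U).card * m⁻¹
        + T * ((Off D (4 * T + 1) G U).card * (2 * T * ((D : ℝ) + 1) ^ (2 * T)) * (m⁻¹) ^ 2)
        + T * ((n * ((((4 * T + 1 : ℕ) : ℝ) + 1) * ((D : ℝ) + 1) ^ (4 * T + 1)) ^ (2 * T))
          * (m⁻¹) ^ 2) := by
  have hm0 : 0 < m := by linarith
  have hmi : 0 ≤ m⁻¹ := inv_nonneg.mpr hm0.le
  have hDT : (0 : ℝ) < (D : ℝ) - (2 * T + 1) := by
    have : ((2 * T + 1 : ℕ) : ℝ) < D := by exact_mod_cast hTD
    push_cast at this
    linarith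
  have hlam0 : 0 < lam := by
    by_contra hcon
    push Not at hcon
    nlinarith
  have hR1 : (1 : ℝ) ≤ (D : ℝ) + 1 := by
    have : (0 : ℝ) ≤ D := by positivity
    linarith
  set Bd : ℝ := (((4 * T + 1 : ℕ) : ℝ) + 1) * ((D : ℝ) + 1) ^ (4 * T + 1) with hBd
  have hBd1 : 1 ≤ Bd := by
    have h1 : (1 : ℝ) ≤ ((4 * T + 1 : ℕ) : ℝ) + 1 := by
      have : (0 : ℝ) ≤ ((4 * T + 1 : ℕ) : ℝ) := by positivity
      linarith
    have h2 : (1 : ℝ) ≤ ((D : ℝ) + 1) ^ (4 * T + 1) := one_le_pow₀ hR1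
    nlinarith
  have hterm : ∀ t : Fin T, ∑ s : Fin (2 * (t : ℕ) + 2 + 1) ↪ Fin n,
      (2 * ((2 * (t : ℕ) + 2 + 1 : ℕ) : ℝ))⁻¹ * (pS m G U s - lam * qS m G U s)
      ≤ 2⁻¹ * ∑ s : Fin (2 * (t : ℕ) + 2 + 1) ↪ Fin n, aT m G U s (Fin.last _)
        + ((Off D (4 * T + 1) G U).card * (2 * T * ((D : ℝ) + 1) ^ (2 * T)) * (m⁻¹) ^ 2)
        + ((n * Bd ^ (2 * T)) * (m⁻¹) ^ 2) := by
    intro t
    have htT : (t : ℕ) < T := t.2
    set j : ℕ := 2 * (t : ℕ) + 2 with hj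
    have hj2 : 2 ≤ j := by omega
    have hjT : j ≤ 2 * T := by omega
    have hlpos : (0 : ℝ) < ((j + 1 : ℕ) : ℝ) := by positivity
    have hcl : ∀ s : Fin (j + 1) ↪ Fin n, pS m G U s - lam * qS m G U s
        ≤ ∑ i, aT m G U s i + ∑ i, cT D (4 * T + 1) m G U s i + dT (4 * T + 1) m G s := by
      intro s
      have hl : 1 ≤ lam * ((D : ℝ) - ((j + 1 : ℕ) : ℝ)) := by
        refine hlam.trans ?_
        apply mul_le_mul_of_nonneg_left _ hlam0.le
        have : ((j + 1 : ℕ) : ℝ) ≤ ((2 * T + 1 : ℕ) : ℝ) := by exact_mod_cast (by omega)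
        push_cast at this ⊢
        linarith
      have := classify hG hm hj2 (by omega) (by omega) hl s.injective
      linarith
    have h1 : ∑ s : Fin (j + 1) ↪ Fin n, (pS m G U s - lam * qS m G U s)
        ≤ ((j + 1 : ℕ) : ℝ) * ∑ s : Fin (j + 1) ↪ Fin n, aT m G U s (Fin.last j)
          + ((j + 1 : ℕ) : ℝ) * (2 * (Off D (4 * T + 1) G U).card
            * (j * ((D : ℝ) + 1) ^ (j - 1)) * (m⁻¹) ^ 2)
          + (n * Bd ^ j) * (m⁻¹) ^ 2 := by
      refine (Finset.sum_le_sum fun s _ => hcl s).trans ?_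
      rw [Finset.sum_add_distrib, Finset.sum_add_distrib,
        rot_sum (fun s i => aT m G U s i) aT_rot]
      have c1 := cpart_le (D := D) (k := 4 * T + 1) hG hm hnm hj2 (by omega)
      have c2 := dpart_le (D := D) (k := 4 * T + 1) hG hm0 (j := j)
      linarith
    rw [← Finset.mul_sum]
    have hinv : 0 ≤ (2 * ((j + 1 : ℕ) : ℝ))⁻¹ := by positivity
    refine (mul_le_mul_of_nonneg_left h1 hinv).trans ?_
    have e1 : (2 * ((j + 1 : ℕ) : ℝ))⁻¹ * (((j + 1 : ℕ) : ℝ)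
        * ∑ s : Fin (j + 1) ↪ Fin n, aT m G U s (Fin.last j)
          + ((j + 1 : ℕ) : ℝ) * (2 * (Off D (4 * T + 1) G U).card
            * (j * ((D : ℝ) + 1) ^ (j - 1)) * (m⁻¹) ^ 2)
          + (n * Bd ^ j) * (m⁻¹) ^ 2)
        = 2⁻¹ * ∑ s : Fin (j + 1) ↪ Fin n, aT m G U s (Fin.last j)
          + (Off D (4 * T + 1) G U).card * (j * ((D : ℝ) + 1) ^ (j - 1)) * (m⁻¹) ^ 2
          + (2 * ((j + 1 : ℕ) : ℝ))⁻¹ * ((n * Bd ^ j) * (m⁻¹) ^ 2) := by
      field_simp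
    rw [e1]
    have b1 : ((Off D (4 * T + 1) G U).card : ℝ) * (j * ((D : ℝ) + 1) ^ (j - 1)) * (m⁻¹) ^ 2
        ≤ (Off D (4 * T + 1) G U).card * (2 * T * ((D : ℝ) + 1) ^ (2 * T)) * (m⁻¹) ^ 2 := by
      apply mul_le_mul_of_nonneg_right _ (by positivity)
      apply mul_le_mul_of_nonneg_left _ (by positivity)
      apply mul_le_mul
      · have : (j : ℝ) ≤ ((2 * T : ℕ) : ℝ) := by exact_mod_cast hjT
        push_cast at this; exact this
      · exact pow_le_pow_right₀ hR1 (by omega)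
      · positivity
      · positivity
    have b2 : (2 * ((j + 1 : ℕ) : ℝ))⁻¹ * ((n * Bd ^ j) * (m⁻¹) ^ 2)
        ≤ (n * Bd ^ (2 * T)) * (m⁻¹) ^ 2 := by
      have h3 : (2 * ((j + 1 : ℕ) : ℝ))⁻¹ ≤ 1 := by
        apply inv_le_one_of_one_le₀
        push_cast
        have : (0 : ℝ) ≤ j := by positivity
        linarith
      have h4 : (n * Bd ^ j) * (m⁻¹) ^ 2 ≤ (n * Bd ^ (2 * T)) * (m⁻¹) ^ 2 := by
        apply mul_le_mul_of_nonneg_right _ (by positivity)
        apply mul_le_mul_of_nonneg_left _ (by positivity)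
        exact pow_le_pow_right₀ hBd1 hjT
      have h5 : 0 ≤ (n * Bd ^ j) * (m⁻¹) ^ 2 := by positivity
      calc _ ≤ 1 * ((n * Bd ^ j) * (m⁻¹) ^ 2) := mul_le_mul_of_nonneg_right h3 h5
        _ ≤ _ := by rw [one_mul]; exact h4
    linarith
  refine (Finset.sum_le_sum fun t _ => hterm t).trans ?_
  rw [Finset.sum_add_distrib, Finset.sum_add_distrib, ← Finset.mul_sum, Finset.sum_const,
    Finset.sum_const, Finset.card_univ, Fintype.card_fin, nsmul_eq_mul, nsmul_eq_mul]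
  have hA := apart_le (T := T) hG hm0
  have : 2⁻¹ * ∑ t : Fin T, ∑ s : Fin (2 * (t : ℕ) + 2 + 1) ↪ Fin n, aT m G U s (Fin.last _)
      ≤ 2⁻¹ * (2 * (Cl G U).card * m⁻¹) := mul_le_mul_of_nonneg_left hA (by norm_num)
  have h2 : (2 : ℝ)⁻¹ * (2 * (Cl G U).card * m⁻¹) = (Cl G U).card * m⁻¹ := by ring
  linarith

/-- The bound for the total absolute potential. -/
lemma abs_ineq {T : ℕ} (hG : Good D (4 * T + 1) G U) (hm : 1 ≤ m) (hnm : (n : ℝ) ≤ m)
    {lam : ℝ} (hlam0 : 0 ≤ lam) :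
    ∑ t : Fin T, ∑ s : Fin (2 * (t : ℕ) + 2 + 1) ↪ Fin n,
      (2 * ((2 * (t : ℕ) + 2 + 1 : ℕ) : ℝ))⁻¹ * (pS m G U s + lam * qS m G U s)
      ≤ T * ((1 + lam * ((2 * T + 1) * ((D : ℝ) + 1))) * ((D : ℝ) + 1) ^ (2 * T)) := by
  have hm0 : 0 < m := by linarith
  have hR1 : (1 : ℝ) ≤ (D : ℝ) + 1 := by
    have : (0 : ℝ) ≤ D := by positivity
    linarith
  have hterm : ∀ t : Fin T, ∑ s : Fin (2 * (t : ℕ) + 2 + 1) ↪ Fin n,
      (2 * ((2 * (t : ℕ) + 2 + 1 : ℕ) : ℝ))⁻¹ * (pS m G U s + lam * qS m G U s)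
      ≤ (1 + lam * ((2 * T + 1) * ((D : ℝ) + 1))) * ((D : ℝ) + 1) ^ (2 * T) := by
    intro t
    have htT : (t : ℕ) < T := t.2
    set j : ℕ := 2 * (t : ℕ) + 2 with hj
    have hj2 : 2 ≤ j := by omega
    have hjT : j ≤ 2 * T := by omega
    have h1 : ∀ s : Fin (j + 1) ↪ Fin n, pS m G U s + lam * qS m G U s
        ≤ (1 + lam * ((2 * T + 1) * ((D : ℝ) + 1))) * pS m G U s := by
      intro s
      have h2 := qS_le hm0 hnm hG.deg (U := U) (j := j) s
      have h3 : ((j + 1 : ℕ) : ℝ) * ((D : ℝ) + 1) * pS m G U s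
          ≤ (2 * T + 1) * ((D : ℝ) + 1) * pS m G U s := by
        apply mul_le_mul_of_nonneg_right _ (pS_nonneg hm0.le _ _ _)
        apply mul_le_mul_of_nonneg_right _ (by linarith)
        have : ((j + 1 : ℕ) : ℝ) ≤ ((2 * T + 1 : ℕ) : ℝ) := by exact_mod_cast (by omega)
        push_cast at this ⊢
        linarith
      have h4 := mul_le_mul_of_nonneg_left (h2.trans h3) hlam0
      linarith
    rw [← Finset.mul_sum]
    have htot := total_le (D := D) (k := 4 * T + 1) hG hm hnm hj2 (by omega)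
    have hc : 0 ≤ 1 + lam * ((2 * T + 1) * ((D : ℝ) + 1)) := by positivity
    calc (2 * ((j + 1 : ℕ) : ℝ))⁻¹ * ∑ s : Fin (j + 1) ↪ Fin n, (pS m G U s + lam * qS m G U s)
        ≤ (2 * ((j + 1 : ℕ) : ℝ))⁻¹ * ∑ s : Fin (j + 1) ↪ Fin n,
          (1 + lam * ((2 * T + 1) * ((D : ℝ) + 1))) * pS m G U s := by
          apply mul_le_mul_of_nonneg_left _ (by positivity)
          exact Finset.sum_le_sum fun s _ => h1 s
      _ = (2 * ((j + 1 : ℕ) : ℝ))⁻¹ * ((1 + lam * ((2 * T + 1) * ((D : ℝ) + 1)))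
          * ∑ s : Fin (j + 1) ↪ Fin n, pS m G U s) := by
          congr 1
          rw [Finset.mul_sum]
      _ ≤ (2 * ((j + 1 : ℕ) : ℝ))⁻¹ * ((1 + lam * ((2 * T + 1) * ((D : ℝ) + 1)))
          * (((j + 1 : ℕ) : ℝ) * ((D : ℝ) + 1) ^ j)) := by
          apply mul_le_mul_of_nonneg_left _ (by positivity)
          exact mul_le_mul_of_nonneg_left htot hc
      _ = 2⁻¹ * ((1 + lam * ((2 * T + 1) * ((D : ℝ) + 1))) * ((D : ℝ) + 1) ^ j) := by
          have : ((j + 1 : ℕ) : ℝ) ≠ 0 := by positivity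
          field_simp
      _ ≤ 1 * ((1 + lam * ((2 * T + 1) * ((D : ℝ) + 1))) * ((D : ℝ) + 1) ^ (2 * T)) := by
          apply mul_le_mul (by norm_num) _ (by positivity) (by norm_num)
          exact mul_le_mul_of_nonneg_left (pow_le_pow_right₀ hR1 hjT) hc
      _ = _ := one_mul _
  refine (Finset.sum_le_sum fun t _ => hterm t).trans ?_
  rw [Finset.sum_const, Finset.card_univ, Fintype.card_fin, nsmul_eq_mul]

end Pool.Agent.H28R3
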