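import Pool.Agent.H28R3.Graph

set_option autoImplicit false

namespace Pool.Agent.H28R3

open Finset

variable {n : ℕ}

/-- Degree in the graph with edge set `G`. -/
def dg (G : Finset (Sym2 (Fin n))) (u : Fin n) : ℕ :=
  (Finset.univ.filter fun v => s(u, v) ∈ G).card

/-- Adjacency matrix. -/
noncomputable def Am (G : Finset (Sym2 (Fin n))) : Matrix (Fin n) (Fin n) ℝ :=
  Matrix.of fun u v => if s(u, v) ∈ G then 1 else 0

lemma Am_apply (G : Finset (Sym2 (Fin n))) (u v : Fin n) :
    Am G u v = if s(u, v) ∈ G then 1 else 0 := rfl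

lemma Am_nonneg (G : Finset (Sym2 (Fin n))) (u v : Fin n) : 0 ≤ Am G u v := by
  rw [Am_apply]; split_ifs <;> norm_num

lemma Am_row (G : Finset (Sym2 (Fin n))) (u : Fin n) : ∑ v, Am G u v = dg G u := by
  unfold dg
  simp only [Am_apply]
  rw [Finset.sum_boole]

lemma Am_symm (G : Finset (Sym2 (Fin n))) (u v : Fin n) : Am G u v = Am G v u := by
  rw [Am_apply, Am_apply, Sym2.eq_swap]

lemma Am_col (G : Finset (Sym2 (Fin n))) (v : Fin n) : ∑ u, Am G u v = dg G v := by
  rw [← Am_row]
  exact Finset.sum_congr rfl fun u _ => Am_symm G u v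

lemma Am_pow (G : Finset (Sym2 (Fin n))) (j : ℕ) :
    ∀ u v, (Am G ^ j) u v = 0 ∨ 1 ≤ (Am G ^ j) u v := by
  induction j with
  | zero =>
    intro u v
    rw [pow_zero, Matrix.one_apply]
    split_ifs
    · right; exact le_refl _
    · left; rfl
  | succ j ih =>
    intro u v
    have hnn : ∀ w, 0 ≤ (Am G ^ j) u w * Am G w v := by
      intro w
      apply mul_nonneg _ (Am_nonneg G w v)
      rcases ih u w with h | h
      · exact h.ge
      · linarith
    by_cases h : ∀ w, (Am G ^ j) u w * Am G w v = 0
    · left
      rw [pow_succ, Matrix.mul_apply]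
      exact Finset.sum_eq_zero fun w _ => h w
    · right
      push Not at h
      obtain ⟨w, hw⟩ := h
      have h1 : 1 ≤ (Am G ^ j) u w * Am G w v := by
        have ha : (Am G ^ j) u w ≠ 0 := fun h0 => hw (by rw [h0, zero_mul])
        have hb : Am G w v ≠ 0 := fun h0 => hw (by rw [h0, mul_zero])
        have hb1 : Am G w v = 1 := by
          rw [Am_apply] at hb ⊢
          split_ifs at hb ⊢ with h2
          · rfl
          · exact absurd rfl hb
        rw [hb1, mul_one]
        rcases ih u w with h3 | h3
        · exact absurd h3 ha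
        · exact h3
      rw [pow_succ, Matrix.mul_apply]
      exact h1.trans (Finset.single_le_sum (f := fun w => (Am G ^ j) u w * Am G w v)
        (fun w _ => hnn w) (Finset.mem_univ w))

lemma Am_pow_nonneg (G : Finset (Sym2 (Fin n))) (j : ℕ) (u v : Fin n) : 0 ≤ (Am G ^ j) u v := by
  rcases Am_pow G j u v with h | h
  · exact h.ge
  · linarith

lemma Am_walk (G : Finset (Sym2 (Fin n))) {u v : Fin n}
    (p : (SimpleGraph.fromEdgeSet (G : Set (Sym2 (Fin n)))).Walk u v) :
    (Am G ^ p.length) u v ≠ 0 := by
  induction p with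
  | nil =>
    rw [SimpleGraph.Walk.length_nil, pow_zero, Matrix.one_apply]
    simp
  | @cons u w v h p ih =>
    rw [SimpleGraph.Walk.length_cons, pow_succ', Matrix.mul_apply]
    have h1 : 0 < Am G u w * (Am G ^ p.length) w v := by
      have ha : Am G u w = 1 := by
        rw [Am_apply, if_pos]
        exact (SimpleGraph.fromEdgeSet_adj _ |>.mp h).1
      rw [ha, one_mul]
      exact lt_of_le_of_ne (Am_pow_nonneg G _ w v) (Ne.symm ih)
    have h2 : Am G u w * (Am G ^ p.length) w v ≤ ∑ x, Am G u x * (Am G ^ p.length) x v :=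
      Finset.single_le_sum (f := fun x => Am G u x * (Am G ^ p.length) x v)
        (fun x _ => mul_nonneg (Am_nonneg G u x) (Am_pow_nonneg G _ x v)) (Finset.mem_univ w)
    exact (lt_of_lt_of_le h1 h2).ne'

/-- `u` and `v` are joined by a walk of length at most `k`. -/
def Near (G : Finset (Sym2 (Fin n))) (k : ℕ) (u v : Fin n) : Prop :=
  ∃ j ≤ k, (Am G ^ j) u v ≠ 0

lemma near_of_mem {G : Finset (Sym2 (Fin n))} {k : ℕ} (hk : 1 ≤ k) {u v : Fin n}
    (h : s(u, v) ∈ G) : Near G k u v := by
  refine ⟨1, hk, ?_⟩
  rw [pow_one, Am_apply, if_pos h]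
  exact one_ne_zero

open Classical in
/-- The number of vertices near a given one. -/
lemma near_count {G : Finset (Sym2 (Fin n))} {D : ℕ} (hdeg : ∀ u, dg G u ≤ D) (k : ℕ)
    (u : Fin n) :
    ∑ v, (if Near G k u v then (1 : ℝ) else 0) ≤ (k + 1) * (D + 1) ^ k := by
  have hrow : ∀ u, ∑ v, Am G u v ≤ ((D : ℝ) + 1) := by
    intro u
    rw [Am_row]
    have : ((dg G u : ℕ) : ℝ) ≤ D := by exact_mod_cast hdeg u
    linarith
  have hD : (0 : ℝ) ≤ (D : ℝ) + 1 := by positivity
  calc ∑ v, (if Near G k u v then (1 : ℝ) else 0)
      ≤ ∑ v, ∑ j ∈ Finset.range (k + 1), (Am G ^ j) u v := by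
        refine Finset.sum_le_sum fun v _ => ?_
        split_ifs with h
        · obtain ⟨j, hj, hne⟩ := h
          have h1 : 1 ≤ (Am G ^ j) u v := by
            rcases Am_pow G j u v with h0 | h0
            · exact absurd h0 hne
            · exact h0
          exact h1.trans (Finset.single_le_sum (f := fun j => (Am G ^ j) u v)
            (fun j _ => Am_pow_nonneg G j u v) (Finset.mem_range.mpr (by omega)))
        · exact Finset.sum_nonneg fun j _ => Am_pow_nonneg G j u v
    _ = ∑ j ∈ Finset.range (k + 1), ∑ v, (Am G ^ j) u v := Finset.sum_comm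
    _ ≤ ∑ j ∈ Finset.range (k + 1), ((D : ℝ) + 1) ^ k := by
        refine Finset.sum_le_sum fun j hj => ?_
        refine ((row_pow_le (Am G) (Am_nonneg G) hD hrow j).2 u).trans ?_
        apply pow_le_pow_right₀
        · have : (0 : ℝ) ≤ D := by positivity
          linarith
        · rw [Finset.mem_range] at hj; omega
    _ = (k + 1) * (D + 1) ^ k := by
        rw [Finset.sum_const, Finset.card_range, nsmul_eq_mul]
        push_cast
        ring

/-- The invariant maintained by Waiter. -/
structure Good (D k : ℕ) (G U : Finset (Sym2 (Fin n))) : Prop where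
  disj : Disjoint G U
  nodiag : ∀ e ∈ G ∪ U, ¬ e.IsDiag
  deg : ∀ u, dg G u ≤ D
  loc : LocAcyc G k

/-- Waiter is willing to offer this edge. -/
def Offerable (D k : ℕ) (G : Finset (Sym2 (Fin n))) (e : Sym2 (Fin n)) : Prop :=
  ∀ u v, e = s(u, v) → dg G u < D ∧ ¬ Near G k u v

open Classical in
/-- The set of edges that Waiter is willing to offer. -/
noncomputable def Off (D k : ℕ) (G U : Finset (Sym2 (Fin n))) : Finset (Sym2 (Fin n)) :=
  U.filter (Offerable D k G)

lemma mem_Off {D k : ℕ} {G U : Finset (Sym2 (Fin n))} {e : Sym2 (Fin n)} :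
    e ∈ Off D k G U ↔ e ∈ U ∧ Offerable D k G e := by
  unfold Off
  simp only [Finset.mem_filter]

lemma good_step {D k : ℕ} {G U F : Finset (Sym2 (Fin n))} (h : Good D k G U) (hFU : F ⊆ U)
    {e : Sym2 (Fin n)} (he : e ∈ F) (hoff : Offerable D k G e) :
    Good D k (insert e G) (U \ F) := by
  have heU : e ∈ U := hFU he
  induction e using Sym2.ind with
  | _ a b =>
  have hab : a ≠ b := by
    have := h.nodiag s(a, b) (Finset.mem_union_right _ heU)
    simpa using this
  refine ⟨?_, ?_, ?_, ?_⟩
  · rw [Finset.disjoint_left]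
    intro x hx hx2
    rw [Finset.mem_sdiff] at hx2
    rw [Finset.mem_insert] at hx
    rcases hx with rfl | hx
    · exact hx2.2 he
    · exact (Finset.disjoint_left.mp h.disj hx) hx2.1
  · intro x hx
    rw [Finset.mem_union, Finset.mem_insert, Finset.mem_sdiff] at hx
    rcases hx with (rfl | hx) | hx
    · exact h.nodiag _ (Finset.mem_union_right _ heU)
    · exact h.nodiag _ (Finset.mem_union_left _ hx)
    · exact h.nodiag _ (Finset.mem_union_right _ hx.1)
  · intro u
    by_cases hu : u = a ∨ u = b
    · -- degree increases by at most one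
      obtain ⟨c, hc, hlt⟩ : ∃ c, s(a, b) = s(u, c) ∧ dg G u < D := by
        rcases hu with rfl | rfl
        · exact ⟨b, rfl, (hoff _ _ rfl).1⟩
        · exact ⟨a, Sym2.eq_swap, (hoff _ _ Sym2.eq_swap).1⟩
      have hsub : (Finset.univ.filter fun v => s(u, v) ∈ insert s(a, b) G)
          ⊆ insert c (Finset.univ.filter fun v => s(u, v) ∈ G) := by
        intro v hv
        rw [Finset.mem_filter, Finset.mem_insert] at hv
        rw [Finset.mem_insert, Finset.mem_filter]
        rcases hv.2 with h1 | h1
        · left
          rw [hc] at h1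
          exact Sym2.congr_right.mp h1
        · right; exact ⟨Finset.mem_univ v, h1⟩
      have := (Finset.card_le_card hsub).trans (Finset.card_insert_le _ _)
      unfold dg at hlt ⊢
      omega
    · have hsub : (Finset.univ.filter fun v => s(u, v) ∈ insert s(a, b) G)
          ⊆ (Finset.univ.filter fun v => s(u, v) ∈ G) := by
        intro v hv
        rw [Finset.mem_filter, Finset.mem_insert] at hv
        rw [Finset.mem_filter]
        refine ⟨Finset.mem_univ v, ?_⟩
        rcases hv.2 with h1 | h1
        · exfalso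
          apply hu
          have : u ∈ s(a, b) := by rw [← h1]; exact Sym2.mem_mk_left u v
          exact Sym2.mem_iff.mp this
        · exact h1
      exact (Finset.card_le_card hsub).trans (h.deg u)
  · intro T hT hTk
    by_cases heT : s(a, b) ∈ T
    · set T0 := T.erase s(a, b) with hT0
      have hT0G : T0 ⊆ G := by
        intro x hx
        rw [hT0, Finset.mem_erase] at hx
        have := hT hx.2
        rw [Finset.mem_insert] at this
        rcases this with h1 | h1
        · exact absurd h1 hx.1
        · exact h1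
      have hT0c : T0.card ≤ k := (Finset.card_le_card (Finset.erase_subset _ _)).trans hTk
      have hac := h.loc T0 hT0G hT0c
      have hnr : ¬ (SimpleGraph.fromEdgeSet (T0 : Set (Sym2 (Fin n)))).Reachable a b := by
        intro hr
        obtain ⟨p, hp⟩ := hr.exists_isPath
        have hlen : p.length ≤ k := by
          rw [← SimpleGraph.Walk.length_edges]
          have hnd : p.edges.Nodup := hp.isTrail.edges_nodup
          rw [← List.toFinset_card_of_nodup hnd]
          refine (Finset.card_le_card ?_).trans hT0c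
          intro x hx
          rw [List.mem_toFinset] at hx
          have := SimpleGraph.Walk.edges_subset_edgeSet p hx
          rw [SimpleGraph.edgeSet_fromEdgeSet] at this
          exact_mod_cast this.1
        have hle : SimpleGraph.fromEdgeSet (T0 : Set (Sym2 (Fin n)))
            ≤ SimpleGraph.fromEdgeSet (G : Set (Sym2 (Fin n))) :=
          SimpleGraph.fromEdgeSet_mono (by exact_mod_cast hT0G)
        have hw := Am_walk G (p.mapLe hle)
        apply (hoff a b rfl).2
        refine ⟨p.length, hlen, ?_⟩
        simpa using hw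
      have h2 := SimpleGraph.IsAcyclic.sup_edge_of_not_reachable hnr hac
      have h3 : SimpleGraph.fromEdgeSet (T : Set (Sym2 (Fin n)))
          = SimpleGraph.fromEdgeSet (T0 : Set (Sym2 (Fin n))) ⊔ SimpleGraph.edge a b := by
        rw [SimpleGraph.edge, ← SimpleGraph.fromEdgeSet_union]
        congr 1
        have : T = insert s(a, b) T0 := by rw [hT0, Finset.insert_erase heT]
        conv_lhs => rw [this]
        rw [Finset.coe_insert, Set.union_comm, Set.singleton_union]
      rw [h3]
      exact h2
    · apply h.loc T _ hTk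
      intro x hx
      have := hT hx
      rw [Finset.mem_insert] at this
      rcases this with h1 | h1
      · exact absurd (h1 ▸ hx) heT
      · exact h1

end Pool.Agent.H28R3
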