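import Pool.Agent.H28R3.Select

set_option autoImplicit false

namespace Pool.Agent.H28R3

open Finset

section PathSum

variable {V : Type*} [Fintype V] [DecidableEq V]

/-- The product of the weights of the steps of a sequence. -/
noncomputable def pathProd (y : Matrix V V ℝ) {j : ℕ} (s : Fin (j + 1) → V) : ℝ :=
  ∏ i : Fin j, y (s i.castSucc) (s i.succ)

omit [Fintype V] [DecidableEq V] in
lemma pathProd_nonneg {y : Matrix V V ℝ} (hy : ∀ u v, 0 ≤ y u v) {j : ℕ} (s : Fin (j + 1) → V) :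
    0 ≤ pathProd y s := Finset.prod_nonneg fun _ _ => hy _ _

omit [Fintype V] [DecidableEq V] in
lemma pathProd_snoc (y : Matrix V V ℝ) {j : ℕ} (s : Fin (j + 1) → V) (v : V) :
    pathProd y (Fin.snoc (α := fun _ => V) s v : Fin (j + 2) → V)
      = pathProd y s * y (s (Fin.last j)) v := by
  unfold pathProd
  rw [Fin.prod_univ_castSucc]
  congr 1
  · refine Finset.prod_congr rfl fun i _ => ?_
    rw [Fin.snoc_castSucc, Fin.succ_castSucc, Fin.snoc_castSucc]
  · rw [Fin.snoc_castSucc, Fin.succ_last, Fin.snoc_last]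

lemma sum_pathProd (Y : Matrix V V ℝ) (j : ℕ) : ∀ (h : V → V → ℝ),
    ∑ s : Fin (j + 1) → V, pathProd Y s * h (s 0) (s (Fin.last j))
      = ∑ u, ∑ v, (Y ^ j) u v * h u v := by
  induction j with
  | zero =>
    intro h
    rw [← (Equiv.funUnique (Fin 1) V).symm.sum_comp]
    refine Finset.sum_congr rfl fun u _ => ?_
    simp [pathProd, Matrix.one_apply]
  | succ j ih =>
    intro h
    rw [← (Fin.snocEquiv (fun _ : Fin (j + 2) => V)).sum_comp, Fintype.sum_prod_type,
      Finset.sum_comm]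
    have h1 : ∀ (s : Fin (j + 1) → V) (v : V),
        pathProd Y ((Fin.snocEquiv (fun _ : Fin (j + 2) => V)) (v, s))
          * h ((Fin.snocEquiv (fun _ : Fin (j + 2) => V)) (v, s) 0)
            ((Fin.snocEquiv (fun _ : Fin (j + 2) => V)) (v, s) (Fin.last (j + 1)))
        = pathProd Y s * (Y (s (Fin.last j)) v * h (s 0) v) := by
      intro s v
      have e0 : (Fin.snocEquiv (fun _ : Fin (j + 2) => V)) (v, s)
          = (Fin.snoc (α := fun _ => V) s v : Fin (j + 2) → V) := rfl
      rw [e0, pathProd_snoc]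
      have e1 : (Fin.snoc (α := fun _ => V) s v : Fin (j + 2) → V) 0 = s 0 := by
        have : (0 : Fin (j + 2)) = Fin.castSucc 0 := rfl
        rw [this, Fin.snoc_castSucc]
      rw [e1, Fin.snoc_last]
      ring
    have h2 : ∑ s : Fin (j + 1) → V, ∑ v : V,
        pathProd Y ((Fin.snocEquiv (fun _ : Fin (j + 2) => V)) (v, s))
          * h ((Fin.snocEquiv (fun _ : Fin (j + 2) => V)) (v, s) 0)
            ((Fin.snocEquiv (fun _ : Fin (j + 2) => V)) (v, s) (Fin.last (j + 1)))
        = ∑ s : Fin (j + 1) → V, pathProd Y s *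
          (fun u w => ∑ v, Y w v * h u v) (s 0) (s (Fin.last j)) := by
      refine Finset.sum_congr rfl fun s _ => ?_
      rw [Finset.sum_congr rfl fun v _ => h1 s v, ← Finset.mul_sum]
    refine h2.trans ((ih (fun u w => ∑ v, Y w v * h u v)).trans ?_)
    refine Finset.sum_congr rfl fun u _ => ?_
    simp only [Finset.mul_sum]
    rw [Finset.sum_comm]
    refine Finset.sum_congr rfl fun v _ => ?_
    rw [pow_succ, Matrix.mul_apply, Finset.sum_mul]
    refine Finset.sum_congr rfl fun w _ => ?_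
    ring

/-- Row sums of powers. -/
lemma row_pow_le (Y : Matrix V V ℝ) (hY : ∀ u v, 0 ≤ Y u v) {R : ℝ} (hR : 0 ≤ R)
    (hrow : ∀ u, ∑ v, Y u v ≤ R) (j : ℕ) :
    (∀ u v, 0 ≤ (Y ^ j) u v) ∧ ∀ u, ∑ v, (Y ^ j) u v ≤ R ^ j := by
  induction j with
  | zero =>
    refine ⟨?_, ?_⟩
    · intro u v
      simp only [pow_zero, Matrix.one_apply]
      split_ifs <;> norm_num
    · intro u
      simp [Matrix.one_apply]
  | succ j ih =>
    obtain ⟨ih1, ih2⟩ := ih
    refine ⟨?_, ?_⟩
    · intro u v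
      rw [pow_succ, Matrix.mul_apply]
      exact Finset.sum_nonneg fun w _ => mul_nonneg (ih1 u w) (hY w v)
    · intro u
      have : ∑ v, (Y ^ (j + 1)) u v = ∑ w, (Y ^ j) u w * ∑ v, Y w v := by
        simp only [pow_succ, Matrix.mul_apply, Finset.mul_sum]
        rw [Finset.sum_comm]
      rw [this]
      calc ∑ w, (Y ^ j) u w * ∑ v, Y w v ≤ ∑ w, (Y ^ j) u w * R :=
            Finset.sum_le_sum fun w _ => mul_le_mul_of_nonneg_left (hrow w) (ih1 u w)
        _ = (∑ w, (Y ^ j) u w) * R := by rw [Finset.sum_mul]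
        _ ≤ R ^ j * R := mul_le_mul_of_nonneg_right (ih2 u) hR
        _ = R ^ (j + 1) := by rw [pow_succ]

lemma pathSum_le (Y : Matrix V V ℝ) (hY : ∀ u v, 0 ≤ Y u v) {R : ℝ} (hR : 0 ≤ R)
    (hrow : ∀ u, ∑ v, Y u v ≤ R) (j : ℕ) :
    ∑ s : Fin (j + 1) → V, pathProd Y s ≤ Fintype.card V * R ^ j := by
  have h1 := sum_pathProd Y j (fun _ _ => 1)
  simp only [mul_one] at h1
  rw [h1]
  calc ∑ u, ∑ v, (Y ^ j) u v ≤ ∑ _u : V, R ^ j :=
        Finset.sum_le_sum fun u _ => (row_pow_le Y hY hR hrow j).2 u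
    _ = Fintype.card V * R ^ j := by
        rw [Finset.sum_const, nsmul_eq_mul, Finset.card_univ]

/-- If `Y ≤ A + 1/m` entrywise then the entries of the powers of `Y` exceed those of the powers of
`A` by little. -/
lemma pow_le_pow_add (Y A : Matrix V V ℝ) (hY : ∀ u v, 0 ≤ Y u v) (hA : ∀ u v, 0 ≤ A u v)
    {R c : ℝ} (hR : 0 ≤ R) (hc : 0 ≤ c)
    (hrow : ∀ u, ∑ v, Y u v ≤ R) (hcol : ∀ v, ∑ u, A u v ≤ R)
    (hle : ∀ u v, Y u v ≤ A u v + c) (j : ℕ) :
    ∀ u v, (Y ^ j) u v ≤ (A ^ j) u v + j * R ^ (j - 1) * c := by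
  induction j with
  | zero =>
    intro u v
    rw [pow_zero, pow_zero, Nat.cast_zero, zero_mul, zero_mul, add_zero]
  | succ j ih =>
    intro u v
    have hp := row_pow_le Y hY hR hrow j
    rw [pow_succ, Matrix.mul_apply, pow_succ, Matrix.mul_apply]
    have hj : 0 ≤ (j : ℝ) * R ^ (j - 1) * c := by positivity
    calc ∑ w, (Y ^ j) u w * Y w v
        ≤ ∑ w, ((Y ^ j) u w * A w v + (Y ^ j) u w * c) :=
          Finset.sum_le_sum fun w _ => by
            rw [← mul_add]; exact mul_le_mul_of_nonneg_left (hle w v) (hp.1 u w)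
      _ ≤ ∑ w, (((A ^ j) u w + j * R ^ (j - 1) * c) * A w v + (Y ^ j) u w * c) :=
          Finset.sum_le_sum fun w _ => by
            have := mul_le_mul_of_nonneg_right (ih u w) (hA w v)
            linarith
      _ = ∑ w, (A ^ j) u w * A w v + j * R ^ (j - 1) * c * ∑ w, A w v
            + (∑ w, (Y ^ j) u w) * c := by
          rw [Finset.sum_add_distrib, ← Finset.sum_mul]
          congr 1
          rw [Finset.mul_sum, ← Finset.sum_add_distrib]
          refine Finset.sum_congr rfl fun w _ => ?_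
          ring
      _ ≤ ∑ w, (A ^ j) u w * A w v + j * R ^ (j - 1) * c * R + R ^ j * c := by
          have h1 := mul_le_mul_of_nonneg_left (hcol v) hj
          have h2 := mul_le_mul_of_nonneg_right (hp.2 u) hc
          linarith
      _ ≤ ∑ w, (A ^ j) u w * A w v + ((j + 1 : ℕ) : ℝ) * R ^ (j + 1 - 1) * c := by
          have : (j : ℝ) * R ^ (j - 1) * c * R = j * R ^ j * c := by
            rcases Nat.eq_zero_or_pos j with rfl | hj0
            · simp
            · have h3 : R ^ j = R ^ (j - 1) * R := by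
                rw [← pow_succ]; congr 1; omega
              rw [h3]; ring
          rw [this]
          have h4 : ((j + 1 : ℕ) : ℝ) * R ^ (j + 1 - 1) * c = j * R ^ j * c + R ^ j * c := by
            rw [Nat.add_sub_cancel]
            push_cast
            ring
          rw [h4]
          apply le_of_eq
          ring

end PathSum

section Cyclic

variable {V : Type*} [DecidableEq V]

/-- The matrix of edge weights. -/
noncomputable def Ym (m : ℝ) (G U : Finset (Sym2 V)) : Matrix V V ℝ :=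
  Matrix.of fun u v => ew m G U s(u, v)

lemma Ym_apply (m : ℝ) (G U : Finset (Sym2 V)) (u v : V) : Ym m G U u v = ew m G U s(u, v) := rfl

/-- The `i`-th edge of the closed sequence `s`. -/
def ce {l : ℕ} [NeZero l] (s : Fin l → V) (i : Fin l) : Sym2 V := s(s i, s (i + 1))

/-- The set of edges of the closed sequence `s`. -/
def cyc {l : ℕ} [NeZero l] (s : Fin l → V) : Finset (Sym2 V) := Finset.univ.image (ce s)

omit [DecidableEq V] in
lemma ce_rot {l : ℕ} [NeZero l] (s : Fin l → V) (c i : Fin l) :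
    ce (fun x => s (x + c)) i = ce s (i + c) := by
  unfold ce
  rw [add_right_comm]

omit [DecidableEq V] in
lemma ce_castSucc {j : ℕ} (s : Fin (j + 1) → V) (i : Fin j) :
    ce s i.castSucc = s(s i.castSucc, s i.succ) := by
  unfold ce
  rw [Fin.coeSucc_eq_succ]

omit [DecidableEq V] in
lemma ce_last {j : ℕ} (s : Fin (j + 1) → V) :
    ce s (Fin.last j) = s(s (Fin.last j), s 0) := by
  unfold ce
  rw [Fin.last_add_one]

omit [DecidableEq V] in
lemma ce_injective {j : ℕ} (hj : 2 ≤ j) {s : Fin (j + 1) → V} (hs : Function.Injective s) :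
    Function.Injective (ce s) := by
  intro a b hab
  unfold ce at hab
  rw [Sym2.eq_iff] at hab
  rcases hab with ⟨h1, -⟩ | ⟨h1, h2⟩
  · exact hs h1
  · exfalso
    have e1 := hs h1
    have e2 := hs h2
    rw [e1] at e2
    have h3 : (1 : Fin (j + 1)) + 1 = 0 := by
      have : b + (1 + 1) = b + 0 := by rw [← add_assoc]; simpa using e2
      exact add_left_cancel this
    have h4 := congrArg Fin.val h3
    have h5 : ((1 : Fin (j + 1)) : ℕ) = 1 := by
      rw [Fin.val_one']
      exact Nat.mod_eq_of_lt (by omega)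
    rw [Fin.val_add, h5, Fin.val_zero, Nat.mod_eq_of_lt (by omega : 1 + 1 < j + 1)] at h4
    omega

lemma wt_cyc {j : ℕ} (hj : 2 ≤ j) {s : Fin (j + 1) → V} (hs : Function.Injective s) (m : ℝ)
    (G U : Finset (Sym2 V)) :
    wt m G U (cyc s) = ∏ i, ew m G U (ce s i) := by
  unfold wt cyc
  rw [Finset.prod_image]
  intro a _ b _ hab
  exact ce_injective hj hs hab

lemma wt_cyc' {j : ℕ} (hj : 2 ≤ j) {s : Fin (j + 1) → V} (hs : Function.Injective s) (m : ℝ)
    (G U : Finset (Sym2 V)) :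
    wt m G U (cyc s) = pathProd (Ym m G U) s
      * ew m G U s(s (Fin.last j), s 0) := by
  rw [wt_cyc hj hs, Fin.prod_univ_castSucc, ce_last]
  congr 1
  unfold pathProd
  refine Finset.prod_congr rfl fun i _ => ?_
  rw [ce_castSucc, Ym_apply]

/-- Rotating the position to the last one. -/
lemma rot_sum [Fintype V] {j : ℕ} (g : (Fin (j + 1) → V) → Fin (j + 1) → ℝ)
    (hg : ∀ (s : Fin (j + 1) → V) (c i : Fin (j + 1)), g (fun x => s (x + c)) i = g s (i + c)) :
    ∑ s : Fin (j + 1) ↪ V, ∑ i, g s i = ((j + 1 : ℕ) : ℝ) * ∑ s : Fin (j + 1) ↪ V,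
      g s (Fin.last j) := by
  rw [Finset.sum_comm]
  have h1 : ∀ i : Fin (j + 1), ∑ s : Fin (j + 1) ↪ V, g s i
      = ∑ s : Fin (j + 1) ↪ V, g s (Fin.last j) := by
    intro i
    set c : Fin (j + 1) := i - Fin.last j with hc
    set φ : (Fin (j + 1) ↪ V) ≃ (Fin (j + 1) ↪ V) :=
      Equiv.embeddingCongr (Equiv.addRight c).symm (Equiv.refl V) with hφ
    rw [← φ.sum_comp (fun s : Fin (j + 1) ↪ V => g s (Fin.last j))]
    refine Finset.sum_congr rfl fun s _ => ?_
    have h2 : (φ s : Fin (j + 1) → V) = fun x => s (x + c) := by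
      funext x
      simp [hφ, Equiv.embeddingCongr]
    rw [h2, hg]
    congr 1
    rw [hc]
    abel
  rw [Finset.sum_congr rfl fun i _ => h1 i, Finset.sum_const, Finset.card_univ, Fintype.card_fin,
    nsmul_eq_mul]

lemma sum_emb_le [Fintype V] {l : ℕ} (f : (Fin l → V) → ℝ) (hf : ∀ s, 0 ≤ f s) :
    ∑ s : Fin l ↪ V, f s ≤ ∑ s : Fin l → V, f s := by
  have h1 : ∑ s : Fin l ↪ V, f s = ∑ s ∈ (Finset.univ : Finset (Fin l ↪ V)).map
      (⟨DFunLike.coe, DFunLike.coe_injective⟩ : (Fin l ↪ V) ↪ (Fin l → V)), f s := by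
    rw [Finset.sum_map]; rfl
  rw [h1]
  exact Finset.sum_le_sum_of_subset_of_nonneg (Finset.subset_univ _) fun s _ _ => hf s

end Cyclic

end Pool.Agent.H28R3
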