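import Pool.Agent.H28R3.Defs
import Pool.Agent.H28R3.Seq

set_option autoImplicit false

namespace Pool.Agent.H28R3

open Finset

lemma HasOddCycle.mono {n : ℕ} {C C' : Finset (Sym2 (Fin n))} (h : HasOddCycle C) (hC : C ⊆ C') :
    HasOddCycle C' := by
  obtain ⟨v, p, hp, hodd⟩ := h
  have hle : SimpleGraph.fromEdgeSet (C : Set (Sym2 (Fin n)))
      ≤ SimpleGraph.fromEdgeSet (C' : Set (Sym2 (Fin n))) :=
    SimpleGraph.fromEdgeSet_mono (by exact_mod_cast hC)
  refine ⟨v, p.mapLe hle, ?_, ?_⟩
  · exact (SimpleGraph.Walk.isCycle_mapLe hle).mpr hp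
  · simpa using hodd

lemma forces_of_odd {n : ℕ} (r : LastRound) (q : ℕ) : ∀ (N : ℕ) (C U : Finset (Sym2 (Fin n))),
    U.card ≤ N → HasOddCycle C → WaiterForces r q C U := by
  intro N
  induction N using Nat.strong_induction_on with
  | _ N ih =>
    intro C U hU hC
    rcases Finset.eq_empty_or_nonempty U with rfl | hne
    · exact WaiterForces.finished C hC
    · by_cases hlt : U.card < q + 1
      · exact WaiterForces.last C U hne hlt (fun _ e _ => hC.mono (Finset.subset_insert e C))
          (fun _ => hC)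
      · push Not at hlt
        obtain ⟨F, hFU, hF⟩ := Finset.exists_subset_card_eq hlt
        refine WaiterForces.round C U F hFU hF fun e _ => ?_
        have hc : (U \ F).card = U.card - (q + 1) := by
          rw [Finset.card_sdiff_of_subset hFU, hF]
        have hpos : 0 < U.card := Finset.card_pos.mpr hne
        exact ih (U \ F).card (by omega) (insert e C) (U \ F) le_rfl
          (hC.mono (Finset.subset_insert e C))

section Walks

variable {V : Type*}

/-- A sequence with adjacent consecutive entries is a walk. -/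
lemma seqWalk (H : SimpleGraph V) : ∀ (j : ℕ) (s : Fin (j + 1) → V),
    (∀ i : Fin j, H.Adj (s i.castSucc) (s i.succ)) →
    ∃ p : H.Walk (s 0) (s (Fin.last j)), p.support = List.ofFn s ∧ p.length = j := by
  intro j
  induction j with
  | zero =>
    intro s _
    refine ⟨SimpleGraph.Walk.nil, ?_, rfl⟩
    simp
  | succ j ih =>
    intro s hs
    obtain ⟨p, hp, hl⟩ := ih (fun i => s i.succ) (fun i => by
      have := hs i.succ
      simpa using this)
    have hadj : H.Adj (s 0) ((fun i : Fin (j + 1) => s i.succ) 0) := by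
      have := hs 0
      simpa using this
    refine ⟨SimpleGraph.Walk.cons hadj p, ?_, ?_⟩
    · rw [SimpleGraph.Walk.support_cons, hp, List.ofFn_succ (f := s)]
    · rw [SimpleGraph.Walk.length_cons, hl]

lemma seqPath (H : SimpleGraph V) {j : ℕ} (s : Fin (j + 1) → V) (hinj : Function.Injective s)
    (hs : ∀ i : Fin j, H.Adj (s i.castSucc) (s i.succ)) :
    ∃ p : H.Walk (s 0) (s (Fin.last j)), p.IsPath ∧ p.support = List.ofFn s ∧ p.length = j := by
  obtain ⟨p, hp, hl⟩ := seqWalk H j s hs
  refine ⟨p, ?_, hp, hl⟩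
  rw [SimpleGraph.Walk.isPath_def, hp]
  exact List.nodup_ofFn.mpr hinj

end Walks

/-- `G` is locally acyclic: every set of at most `k` edges is acyclic. -/
def LocAcyc {V : Type*} (G : Finset (Sym2 V)) (k : ℕ) : Prop :=
  ∀ T : Finset (Sym2 V), T ⊆ G → T.card ≤ k →
    (SimpleGraph.fromEdgeSet (T : Set (Sym2 V))).IsAcyclic

/-- Uniqueness of short paths. -/
lemma unique_seq {V : Type*} [DecidableEq V] {G : Finset (Sym2 V)} {k : ℕ} (hG : LocAcyc G k)
    {j j' : ℕ} (hjj : j + j' ≤ k) (s : Fin (j + 1) → V) (s' : Fin (j' + 1) → V)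
    (hs : Function.Injective s) (hs' : Function.Injective s')
    (hadj : ∀ i : Fin j, s(s i.castSucc, s i.succ) ∈ G)
    (hadj' : ∀ i : Fin j', s(s' i.castSucc, s' i.succ) ∈ G)
    (h0 : s 0 = s' 0) (h1 : s (Fin.last j) = s' (Fin.last j')) :
    (⟨j + 1, s⟩ : Σ n, Fin n → V) = ⟨j' + 1, s'⟩ := by
  set T : Finset (Sym2 V) := (Finset.univ.image fun i : Fin j => s(s i.castSucc, s i.succ)) ∪
    (Finset.univ.image fun i : Fin j' => s(s' i.castSucc, s' i.succ)) with hT
  have hTG : T ⊆ G := by
    intro e he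
    rw [hT, Finset.mem_union, Finset.mem_image, Finset.mem_image] at he
    rcases he with ⟨i, _, rfl⟩ | ⟨i, _, rfl⟩
    · exact hadj i
    · exact hadj' i
  have hTc : T.card ≤ k := by
    refine (Finset.card_union_le _ _).trans ?_
    have a1 := Finset.card_image_le (s := (Finset.univ : Finset (Fin j)))
      (f := fun i : Fin j => s(s i.castSucc, s i.succ))
    have a2 := Finset.card_image_le (s := (Finset.univ : Finset (Fin j')))
      (f := fun i : Fin j' => s(s' i.castSucc, s' i.succ))
    rw [Finset.card_univ, Fintype.card_fin] at a1 a2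
    omega
  have hac := hG T hTG hTc
  have hA : ∀ i : Fin j, (SimpleGraph.fromEdgeSet (T : Set (Sym2 V))).Adj
      (s i.castSucc) (s i.succ) := by
    intro i
    rw [SimpleGraph.fromEdgeSet_adj]
    refine ⟨?_, ?_⟩
    · rw [Finset.mem_coe, hT, Finset.mem_union]
      left
      exact Finset.mem_image_of_mem _ (Finset.mem_univ i)
    · intro h
      have := hs h
      exact (Fin.castSucc_lt_succ (i := i)).ne this
  have hA' : ∀ i : Fin j', (SimpleGraph.fromEdgeSet (T : Set (Sym2 V))).Adj
      (s' i.castSucc) (s' i.succ) := by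
    intro i
    rw [SimpleGraph.fromEdgeSet_adj]
    refine ⟨?_, ?_⟩
    · rw [Finset.mem_coe, hT, Finset.mem_union]
      right
      exact Finset.mem_image_of_mem _ (Finset.mem_univ i)
    · intro h
      have := hs' h
      exact (Fin.castSucc_lt_succ (i := i)).ne this
  obtain ⟨p, hp, hps, -⟩ := seqPath _ s hs hA
  obtain ⟨p', hp', hps', -⟩ := seqPath _ s' hs' hA'
  have hcast : (p'.copy h0.symm h1.symm).IsPath := by
    rw [SimpleGraph.Walk.isPath_def, SimpleGraph.Walk.support_copy]
    exact (SimpleGraph.Walk.isPath_def p').mp hp'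
  have huniq := hac.path_unique ⟨p, hp⟩ ⟨p'.copy h0.symm h1.symm, hcast⟩
  have h2 : p = p'.copy h0.symm h1.symm := congrArg Subtype.val huniq
  have h3 : List.ofFn s = List.ofFn s' := by
    rw [← hps, ← hps', h2, SimpleGraph.Walk.support_copy]
  exact List.ofFn_inj'.mp h3

/-- A closing pair creates an odd cycle. -/
lemma odd_of_closing {n : ℕ} {G : Finset (Sym2 (Fin n))} {j : ℕ} (hj : Even j)
    (s : Fin (j + 1) → Fin n) (hs : Function.Injective s) (hj2 : 2 ≤ j)
    (hadj : ∀ i : Fin j, s(s i.castSucc, s i.succ) ∈ G)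
    (hcl : s(s (Fin.last j), s 0) ∉ G) :
    HasOddCycle (insert s(s (Fin.last j), s 0) G) := by
  set e := s(s (Fin.last j), s 0) with he
  set H := SimpleGraph.fromEdgeSet (G : Set (Sym2 (Fin n))) with hH
  set H' := SimpleGraph.fromEdgeSet ((insert e G : Finset (Sym2 (Fin n))) : Set (Sym2 (Fin n)))
    with hH'
  have hle : H ≤ H' := SimpleGraph.fromEdgeSet_mono (by
    rw [Finset.coe_insert]; exact Set.subset_insert _ _)
  have hA : ∀ i : Fin j, H.Adj (s i.castSucc) (s i.succ) := by
    intro i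
    rw [hH, SimpleGraph.fromEdgeSet_adj]
    refine ⟨hadj i, ?_⟩
    intro h
    exact (Fin.castSucc_lt_succ (i := i)).ne (hs h)
  obtain ⟨p, hp, -, hl⟩ := seqPath H s hs hA
  have hne : s (Fin.last j) ≠ s 0 := by
    intro h
    have := hs h
    have h2 := congrArg Fin.val this
    rw [Fin.val_last, Fin.val_zero] at h2
    omega
  have hadjc : H'.Adj (s (Fin.last j)) (s 0) := by
    rw [hH', SimpleGraph.fromEdgeSet_adj]
    refine ⟨?_, hne⟩
    rw [Finset.mem_coe]
    exact Finset.mem_insert_self _ _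
  refine ⟨s (Fin.last j), SimpleGraph.Walk.cons hadjc (p.mapLe hle), ?_, ?_⟩
  · rw [SimpleGraph.Walk.cons_isCycle_iff]
    refine ⟨(SimpleGraph.Walk.isPath_mapLe hle).mpr hp, ?_⟩
    intro hmem
    rw [SimpleGraph.Walk.edges_mapLe_eq_edges] at hmem
    have := SimpleGraph.Walk.edges_subset_edgeSet p hmem
    rw [hH, SimpleGraph.edgeSet_fromEdgeSet] at this
    exact hcl this.1
  · rw [SimpleGraph.Walk.length_cons, SimpleGraph.Walk.length_map, hl]
    exact hj.add_one

end Pool.Agent.H28R3
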