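import Pool.Agent.H28R3.Loop

set_option autoImplicit false

namespace Pool.Agent.H28R3

open Finset

variable {T n : ℕ}

/-- all edges of the complete graph -/
def E0 (n : ℕ) : Finset (Sym2 (Fin n)) := (⊤ : SimpleGraph (Fin n)).edgeFinset

lemma mem_E0 {u v : Fin n} : s(u, v) ∈ E0 n ↔ u ≠ v := by
  unfold E0
  rw [SimpleGraph.mem_edgeFinset, SimpleGraph.mem_edgeSet, SimpleGraph.top_adj]

lemma card_E0 : (E0 n).card = n.choose 2 := by
  unfold E0
  rw [SimpleGraph.card_edgeFinset_top_eq_card_choose_two, Fintype.card_fin]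

lemma card_E0_le : ((E0 n).card : ℝ) ≤ (n : ℝ) ^ 2 / 2 := by
  rw [card_E0, Nat.choose_two_right]
  have h1 : (((n * (n - 1) / 2 : ℕ)) : ℝ) ≤ ((n * (n - 1) : ℕ) : ℝ) / 2 := Nat.cast_div_le
  refine h1.trans ?_
  have h2 : ((n * (n - 1) : ℕ) : ℝ) ≤ (n : ℝ) ^ 2 := by
    rw [sq]
    exact_mod_cast Nat.mul_le_mul_left n (Nat.sub_le n 1)
  linarith

lemma good_init (D k : ℕ) : Good D k (∅ : Finset (Sym2 (Fin n))) (E0 n) := by
  refine ⟨Finset.disjoint_empty_left _, ?_, ?_, ?_⟩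
  · intro e he
    rw [Finset.empty_union] at he
    exact SimpleGraph.not_isDiag_of_mem_edgeFinset he
  · intro u
    unfold dg
    simp
  · intro S hS _
    rw [Finset.subset_empty.mp hS, Finset.coe_empty, SimpleGraph.fromEdgeSet_empty]
    exact SimpleGraph.isAcyclic_bot

lemma ew_init {m : ℝ} {e : Sym2 (Fin n)} (he : e ∈ E0 n) :
    ew m ∅ (E0 n) e = m⁻¹ := by
  unfold ew
  simp [he]

lemma ce_mem_E0 {j : ℕ} (hj : 1 ≤ j) {s : Fin (j + 1) → Fin n} (hs : Function.Injective s)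
    (i : Fin (j + 1)) : ce s i ∈ E0 n := by
  unfold ce
  rw [mem_E0]
  intro h
  have h1 := hs h
  have h2 : (1 : Fin (j + 1)) = 0 := by
    have : i + 1 = i + 0 := by rw [add_zero]; exact h1.symm
    exact add_left_cancel this
  have h3 := congrArg Fin.val h2
  rw [Fin.val_one', Fin.val_zero, Nat.mod_eq_of_lt (by omega)] at h3
  omega

lemma pS_init {m : ℝ} {j : ℕ} (hj : 2 ≤ j) {s : Fin (j + 1) → Fin n}
    (hs : Function.Injective s) :
    pS m ∅ (E0 n) s = (m⁻¹) ^ (j + 1) := by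
  unfold pS
  rw [wt_cyc hj hs]
  rw [Finset.prod_congr rfl fun i _ => ew_init (ce_mem_E0 (by omega) hs i)]
  rw [Finset.prod_const, Finset.card_univ, Fintype.card_fin]

lemma qS_init_le {m : ℝ} (hm : 0 < m) (hnm : (n : ℝ) ≤ m) {j : ℕ} (hj : 2 ≤ j)
    {s : Fin (j + 1) → Fin n} (hs : Function.Injective s) :
    qS m ∅ (E0 n) s ≤ ((j + 1 : ℕ) : ℝ) * (m⁻¹) ^ (j + 1) := by
  classical
  have hmi : 0 ≤ m⁻¹ := inv_nonneg.mpr hm.le
  unfold qS
  have h1 : ∀ k : Fin (j + 1), ∑ x, (if x ∈ Set.range s then 0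
      else wt m ∅ (E0 n) (insert s(s k, x) (cyc s))) ≤ (m⁻¹) ^ (j + 1) := by
    intro k
    calc ∑ x, (if x ∈ Set.range s then 0 else wt m ∅ (E0 n) (insert s(s k, x) (cyc s)))
        ≤ ∑ _x : Fin n, m⁻¹ * (m⁻¹) ^ (j + 1) := by
          refine Finset.sum_le_sum fun x _ => ?_
          split_ifs with hx
          · positivity
          · have hp := pS_init (m := m) hj hs
            unfold pS at hp
            unfold wt at hp ⊢
            rw [Finset.prod_insert (pendant_notMem s k hx), hp, ew_init]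
            rw [mem_E0]
            rintro rfl
            exact hx ⟨k, rfl⟩
      _ = (n * m⁻¹) * (m⁻¹) ^ (j + 1) := by
          rw [Finset.sum_const, Finset.card_univ, Fintype.card_fin, nsmul_eq_mul]; ring
      _ ≤ 1 * (m⁻¹) ^ (j + 1) := by
          apply mul_le_mul_of_nonneg_right _ (by positivity)
          rw [mul_inv_le_iff₀ hm]; linarith
      _ = _ := one_mul _
  calc _ ≤ ∑ _k : Fin (j + 1), (m⁻¹) ^ (j + 1) := Finset.sum_le_sum fun k _ => h1 k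
    _ = _ := by rw [Finset.sum_const, Finset.card_univ, Fintype.card_fin, nsmul_eq_mul]

/-- Lower bound for the initial potential. -/
lemma Phi_init {m lam : ℝ} (hm : 0 < m) (hnm : (n : ℝ) ≤ m) (hlam : 0 ≤ lam) :
    ∑ t : Fin T, (2 * ((2 * (t : ℕ) + 2 + 1 : ℕ) : ℝ))⁻¹
      * ((n.descFactorial (2 * (t : ℕ) + 2 + 1) : ℝ) * (m⁻¹) ^ (2 * (t : ℕ) + 2 + 1))
      - lam * T ≤ Phi m (aI lam) (SI (T := T) (n := n)) ∅ (E0 n) := by
  have hmi : 0 ≤ m⁻¹ := inv_nonneg.mpr hm.le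
  rw [Phi_eq]
  have h0 : lam * (T : ℝ) = ∑ _t : Fin T, lam := by
    rw [Finset.sum_const, Finset.card_univ, Fintype.card_fin, nsmul_eq_mul]; ring
  rw [h0, ← Finset.sum_sub_distrib]
  refine Finset.sum_le_sum fun t _ => ?_
  set j : ℕ := 2 * (t : ℕ) + 2 with hj
  have hj2 : 2 ≤ j := by omega
  have hl : (0 : ℝ) < ((j + 1 : ℕ) : ℝ) := by positivity
  have hcard : (Finset.univ : Finset (Fin (j + 1) ↪ Fin n)).card = n.descFactorial (j + 1) := by
    rw [Finset.card_univ, Fintype.card_embedding_eq, Fintype.card_fin, Fintype.card_fin]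
  have hterm : ∀ s : Fin (j + 1) ↪ Fin n,
      (2 * ((j + 1 : ℕ) : ℝ))⁻¹ * ((m⁻¹) ^ (j + 1)) - lam * (m⁻¹) ^ (j + 1)
      ≤ (2 * ((j + 1 : ℕ) : ℝ))⁻¹ * (pS m ∅ (E0 n) s - lam * qS m ∅ (E0 n) s) := by
    intro s
    rw [pS_init hj2 s.injective]
    have h1 := qS_init_le hm hnm hj2 s.injective
    have h2 : lam * qS m ∅ (E0 n) s ≤ lam * (((j + 1 : ℕ) : ℝ) * (m⁻¹) ^ (j + 1)) :=
      mul_le_mul_of_nonneg_left h1 hlam
    have h3 : (2 * ((j + 1 : ℕ) : ℝ))⁻¹ * (lam * qS m ∅ (E0 n) s)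
        ≤ lam * (m⁻¹) ^ (j + 1) := by
      calc (2 * ((j + 1 : ℕ) : ℝ))⁻¹ * (lam * qS m ∅ (E0 n) s)
          ≤ (2 * ((j + 1 : ℕ) : ℝ))⁻¹ * (lam * (((j + 1 : ℕ) : ℝ) * (m⁻¹) ^ (j + 1))) :=
            mul_le_mul_of_nonneg_left h2 (by positivity)
        _ = 2⁻¹ * (lam * (m⁻¹) ^ (j + 1)) := by field_simp
        _ ≤ 1 * (lam * (m⁻¹) ^ (j + 1)) := by
            apply mul_le_mul_of_nonneg_right (by norm_num) (by positivity)
        _ = _ := one_mul _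
    rw [mul_sub]
    linarith
  refine le_trans ?_ (Finset.sum_le_sum fun s _ => hterm s)
  rw [Finset.sum_const, hcard, nsmul_eq_mul]
  have hdf : ((n.descFactorial (j + 1) : ℕ) : ℝ) * (m⁻¹) ^ (j + 1) ≤ 1 := by
    calc ((n.descFactorial (j + 1) : ℕ) : ℝ) * (m⁻¹) ^ (j + 1)
        ≤ (n : ℝ) ^ (j + 1) * (m⁻¹) ^ (j + 1) := by
          apply mul_le_mul_of_nonneg_right _ (by positivity)
          exact_mod_cast Nat.descFactorial_le_pow n (j + 1)
      _ = (n * m⁻¹) ^ (j + 1) := by rw [mul_pow]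
      _ ≤ 1 := by
          apply pow_le_one₀ (by positivity)
          rw [mul_inv_le_iff₀ hm]; linarith
  have h5 : lam * (((n.descFactorial (j + 1) : ℕ) : ℝ) * (m⁻¹) ^ (j + 1)) ≤ lam * 1 :=
    mul_le_mul_of_nonneg_left hdf hlam
  have h6 : ((n.descFactorial (j + 1) : ℕ) : ℝ) *
      ((2 * ((j + 1 : ℕ) : ℝ))⁻¹ * ((m⁻¹) ^ (j + 1)) - lam * (m⁻¹) ^ (j + 1))
      = (2 * ((j + 1 : ℕ) : ℝ))⁻¹ * (((n.descFactorial (j + 1) : ℕ) : ℝ) * (m⁻¹) ^ (j + 1))
        - lam * (((n.descFactorial (j + 1) : ℕ) : ℝ) * (m⁻¹) ^ (j + 1)) := by ring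
  rw [h6]
  linarith

end Pool.Agent.H28R3
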