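import Pool.Agent.H28R3.Final

set_option autoImplicit false

namespace Pool.Agent.H28R3

open Finset

/-- The index type of the potential. -/
abbrev Idx (T n : ℕ) : Type :=
  (t : Fin T) × ((Fin (2 * (t : ℕ) + 2 + 1) ↪ Fin n) ×
    Option (Fin (2 * (t : ℕ) + 2 + 1) × Fin n))

variable {T n : ℕ}

/-- The edge sets of the potential. -/
def SI : Idx T n → Finset (Sym2 (Fin n))
  | ⟨_, s, none⟩ => cyc s
  | ⟨_, s, some (k, x)⟩ => insert s(s k, x) (cyc s)

open Classical in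
/-- The coefficients of the potential. -/
noncomputable def aI (lam : ℝ) : Idx T n → ℝ
  | ⟨t, _, none⟩ => (2 * ((2 * (t : ℕ) + 2 + 1 : ℕ) : ℝ))⁻¹
  | ⟨t, s, some (_, x)⟩ =>
      if x ∈ Set.range s then 0 else -(lam * (2 * ((2 * (t : ℕ) + 2 + 1 : ℕ) : ℝ))⁻¹)

variable {G U : Finset (Sym2 (Fin n))} {m lam : ℝ}

lemma Phi_eq : Phi m (aI lam) (SI (T := T) (n := n)) G U
    = ∑ t : Fin T, ∑ s : Fin (2 * (t : ℕ) + 2 + 1) ↪ Fin n,
      (2 * ((2 * (t : ℕ) + 2 + 1 : ℕ) : ℝ))⁻¹ * (pS m G U s - lam * qS m G U s) := by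
  classical
  unfold Phi
  rw [Fintype.sum_sigma]
  refine Finset.sum_congr rfl fun t _ => ?_
  rw [Fintype.sum_prod_type]
  refine Finset.sum_congr rfl fun s _ => ?_
  rw [Fintype.sum_option, Fintype.sum_prod_type]
  have h1 : ∀ (k : Fin (2 * (t : ℕ) + 2 + 1)) (x : Fin n),
      aI lam (⟨t, s, some (k, x)⟩ : Idx T n) * wt m G U (SI (⟨t, s, some (k, x)⟩ : Idx T n))
      = -(lam * (2 * ((2 * (t : ℕ) + 2 + 1 : ℕ) : ℝ))⁻¹)
        * (if x ∈ Set.range s then 0 else wt m G U (insert s(s k, x) (cyc s))) := by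
    intro k x
    by_cases hx : x ∈ Set.range s
    · simp [aI, hx]
    · simp [aI, hx, SI]
  simp only [h1, ← Finset.mul_sum]
  have h2 : aI lam (⟨t, s, none⟩ : Idx T n) * wt m G U (SI (⟨t, s, none⟩ : Idx T n))
      = (2 * ((2 * (t : ℕ) + 2 + 1 : ℕ) : ℝ))⁻¹ * pS m G U s := rfl
  rw [h2]
  unfold qS
  ring

lemma absPhi_eq (hlam : 0 ≤ lam) :
    ∑ i : Idx T n, |aI lam i| * wt m G U (SI i)
    = ∑ t : Fin T, ∑ s : Fin (2 * (t : ℕ) + 2 + 1) ↪ Fin n,
      (2 * ((2 * (t : ℕ) + 2 + 1 : ℕ) : ℝ))⁻¹ * (pS m G U s + lam * qS m G U s) := by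
  classical
  rw [Fintype.sum_sigma]
  refine Finset.sum_congr rfl fun t _ => ?_
  rw [Fintype.sum_prod_type]
  refine Finset.sum_congr rfl fun s _ => ?_
  rw [Fintype.sum_option, Fintype.sum_prod_type]
  have hpos : (0 : ℝ) ≤ (2 * ((2 * (t : ℕ) + 2 + 1 : ℕ) : ℝ))⁻¹ := by positivity
  have h1 : ∀ (k : Fin (2 * (t : ℕ) + 2 + 1)) (x : Fin n),
      |aI lam (⟨t, s, some (k, x)⟩ : Idx T n)| * wt m G U (SI (⟨t, s, some (k, x)⟩ : Idx T n))
      = (lam * (2 * ((2 * (t : ℕ) + 2 + 1 : ℕ) : ℝ))⁻¹)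
        * (if x ∈ Set.range s then 0 else wt m G U (insert s(s k, x) (cyc s))) := by
    intro k x
    by_cases hx : x ∈ Set.range s
    · simp [aI, hx]
    · have e1 : aI lam (⟨t, s, some (k, x)⟩ : Idx T n)
          = -(lam * (2 * ((2 * (t : ℕ) + 2 + 1 : ℕ) : ℝ))⁻¹) := by
        simp only [aI]; rw [if_neg hx]
      rw [e1, abs_neg, abs_of_nonneg (mul_nonneg hlam hpos), if_neg hx]
      rfl
  simp only [h1, ← Finset.mul_sum]
  have h2 : |aI lam (⟨t, s, none⟩ : Idx T n)| * wt m G U (SI (⟨t, s, none⟩ : Idx T n))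
      = (2 * ((2 * (t : ℕ) + 2 + 1 : ℕ) : ℝ))⁻¹ * pS m G U s := by
    have e1 : aI lam (⟨t, s, none⟩ : Idx T n) = (2 * ((2 * (t : ℕ) + 2 + 1 : ℕ) : ℝ))⁻¹ := rfl
    rw [e1, abs_of_nonneg hpos]
    rfl
  rw [h2]
  unfold qS
  ring

lemma SI_card (i : Idx T n) : (SI i).card ≤ 2 * T + 2 := by
  obtain ⟨t, s, o⟩ := i
  have ht : (t : ℕ) < T := t.2
  have h1 : (cyc (s : Fin (2 * (t : ℕ) + 2 + 1) → Fin n)).card ≤ 2 * (t : ℕ) + 2 + 1 := by
    unfold cyc
    refine Finset.card_image_le.trans ?_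
    rw [Finset.card_univ, Fintype.card_fin]
  rcases o with _ | ⟨k, x⟩
  · have : SI (⟨t, s, none⟩ : Idx T n) = cyc s := rfl
    rw [this]; omega
  · have : SI (⟨t, s, some (k, x)⟩ : Idx T n) = insert s(s k, x) (cyc s) := rfl
    rw [this]
    have := Finset.card_insert_le s(s k, x) (cyc (s : Fin (2 * (t : ℕ) + 2 + 1) → Fin n))
    omega

section AbsBound

variable {E I : Type*} [DecidableEq E] [Fintype I]

/-- absolute weight of an element -/
noncomputable def Wabs (m : ℝ) (a : I → ℝ) (S : I → Finset E) (G U : Finset E) (e : E) : ℝ :=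
  ∑ i, |a i| * wt m G U (S i) * ind (S i) e

lemma W1_le_Wabs {m : ℝ} (hm : 0 ≤ m) (a : I → ℝ) (S : I → Finset E) (G U : Finset E) (e : E) :
    |W1 m a S G U e| ≤ Wabs m a S G U e := by
  unfold W1 Wabs
  refine (Finset.abs_sum_le_sum_abs _ _).trans (Finset.sum_le_sum fun i _ => ?_)
  rw [abs_mul, abs_mul, abs_of_nonneg (wt_nonneg hm _ _ _), abs_of_nonneg (ind_nonneg _ _)]

lemma sum_ind_le (S X : Finset E) : ∑ f ∈ X, ind S f ≤ S.card := by
  unfold ind
  rw [Finset.sum_ite_mem, Finset.sum_const, nsmul_eq_mul, mul_one]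
  exact_mod_cast Finset.card_le_card Finset.inter_subset_right

lemma sum_Wabs_le {m : ℝ} (hm : 0 ≤ m) (a : I → ℝ) (S : I → Finset E) (G U X : Finset E) {c : ℕ}
    (hc : ∀ i, (S i).card ≤ c) :
    ∑ f ∈ X, Wabs m a S G U f ≤ c * ∑ i, |a i| * wt m G U (S i) := by
  unfold Wabs
  rw [Finset.sum_comm, Finset.mul_sum]
  refine Finset.sum_le_sum fun i _ => ?_
  rw [← Finset.mul_sum, mul_comm (c : ℝ)]
  apply mul_le_mul_of_nonneg_left _ (mul_nonneg (abs_nonneg _) (wt_nonneg hm _ _ _))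
  exact (sum_ind_le _ _).trans (by exact_mod_cast hc i)

lemma sum_W2_le {m : ℝ} (hm : 0 ≤ m) (a : I → ℝ) (S : I → Finset E) (G U X : Finset E) {c : ℕ}
    (hc : ∀ i, (S i).card ≤ c) (f : E) :
    ∑ g ∈ X, W2 m a S G U f g ≤ c * Wabs m a S G U f := by
  unfold Wabs W2
  rw [Finset.sum_comm, Finset.mul_sum]
  refine Finset.sum_le_sum fun i _ => ?_
  rw [← Finset.mul_sum, ← Finset.mul_sum]
  have h1 : ∑ g ∈ X, ind (S i) g ≤ c := (sum_ind_le _ _).trans (by exact_mod_cast hc i)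
  have h2 : 0 ≤ |a i| * wt m G U (S i) * ind (S i) f :=
    mul_nonneg (mul_nonneg (abs_nonneg _) (wt_nonneg hm _ _ _)) (ind_nonneg _ _)
  calc |a i| * wt m G U (S i) * (ind (S i) f * ∑ g ∈ X, ind (S i) g)
      = (|a i| * wt m G U (S i) * ind (S i) f) * ∑ g ∈ X, ind (S i) g := by ring
    _ ≤ (|a i| * wt m G U (S i) * ind (S i) f) * c := mul_le_mul_of_nonneg_left h1 h2
    _ = _ := by ring

end AbsBound

/-- The main loop. -/
theorem loop (r : LastRound) {q D k M N : ℕ} {X B δ Φ₁ : ℝ}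
    (hn : n ≤ q + 1) (hTD : 2 * T + 1 < D) (hlam : 1 ≤ lam * ((D : ℝ) - (2 * T + 1)))
    (hlam0 : 0 ≤ lam)
    (hX : X = T * ((1 + lam * ((2 * T + 1) * ((D : ℝ) + 1))) * ((D : ℝ) + 1) ^ (2 * T)))
    (hB : 0 < B) (hk : 0 < k) (hM : q + 1 < M)
    (hN : ((k + 1) * M : ℝ) + (2 * T + 2 : ℕ) * X / B ≤ N)
    (hδ : 2 * B / k + 2 * (((q + 1 : ℕ) : ℝ) * ((2 * T + 2 : ℕ) * B) / (M - ((q + 1 : ℕ) : ℝ))) ≤ δ)
    (hΦ : 1 + T * (N * (2 * T * ((D : ℝ) + 1) ^ (2 * T)) * ((((q + 1 : ℕ) : ℝ))⁻¹) ^ 2)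
        + T * ((n * ((((4 * T + 1 : ℕ) : ℝ) + 1) * ((D : ℝ) + 1) ^ (4 * T + 1)) ^ (2 * T))
          * ((((q + 1 : ℕ) : ℝ))⁻¹) ^ 2) ≤ Φ₁) :
    ∀ (K : ℕ) (G U : Finset (Sym2 (Fin n))), U.card ≤ K → Good D (4 * T + 1) G U →
      Φ₁ + δ * U.card ≤ Phi ((q + 1 : ℕ) : ℝ) (aI lam) (SI (T := T) (n := n)) G U →
      WaiterForces r q G U := by
  classical
  have hm1 : (1 : ℝ) ≤ ((q + 1 : ℕ) : ℝ) := by exact_mod_cast Nat.succ_le_succ (Nat.zero_le q)
  have hm0 : (0 : ℝ) < ((q + 1 : ℕ) : ℝ) := by linarith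
  have hnm : (n : ℝ) ≤ ((q + 1 : ℕ) : ℝ) := by exact_mod_cast hn
  have hMm : (0 : ℝ) < M - ((q + 1 : ℕ) : ℝ) := by
    have : (((q + 1 : ℕ) : ℝ)) < M := by exact_mod_cast hM
    linarith
  have hδ0 : 0 ≤ δ := by
    refine le_trans ?_ hδ
    have : (0 : ℝ) < k := by exact_mod_cast hk
    positivity
  intro K
  induction K using Nat.strong_induction_on with
  | _ K ih =>
    intro G U hUK hG hphi
    set m : ℝ := ((q + 1 : ℕ) : ℝ) with hmdef
    by_cases hoff : N ≤ (Off D (4 * T + 1) G U).card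
    · -- make a round
      set S0 := Off D (4 * T + 1) G U with hS0
      set S := S0.filter (fun e => Wabs m (aI lam) (SI (T := T) (n := n)) G U e ≤ B) with hS
      have habs : ∑ i : Idx T n, |aI lam i| * wt m G U (SI i) ≤ X := by
        rw [absPhi_eq hlam0, hX]
        exact abs_ineq hG hm1 hnm hlam0
      have hbad : ((S0 \ S).card : ℝ) * B ≤ (2 * T + 2 : ℕ) * X := by
        calc ((S0 \ S).card : ℝ) * B = ∑ _e ∈ S0 \ S, B := by
              rw [Finset.sum_const, nsmul_eq_mul]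
          _ ≤ ∑ e ∈ S0 \ S, Wabs m (aI lam) (SI (T := T) (n := n)) G U e := by
              refine Finset.sum_le_sum fun e he => ?_
              rw [Finset.mem_sdiff, hS, Finset.mem_filter] at he
              by_contra hcon
              push Not at hcon
              exact he.2 ⟨he.1, hcon.le⟩
          _ ≤ (2 * T + 2 : ℕ) * ∑ i : Idx T n, |aI lam i| * wt m G U (SI i) :=
              sum_Wabs_le hm0.le _ _ _ _ _ SI_card
          _ ≤ (2 * T + 2 : ℕ) * X := mul_le_mul_of_nonneg_left habs (by positivity)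
      have hcardS : (k + 1) * M ≤ S.card := by
        have h1 : ((S0 \ S).card : ℝ) ≤ (2 * T + 2 : ℕ) * X / B := by
          rw [le_div_iff₀ hB]; exact hbad
        have h2 : (S0.card : ℝ) = (S0 \ S).card + S.card := by
          rw [← Nat.cast_add, Finset.card_sdiff_add_card_eq_card (Finset.filter_subset _ _)]
        have h3 : (N : ℝ) ≤ S0.card := by exact_mod_cast hoff
        have h4 : (((k + 1) * M : ℕ) : ℝ) ≤ S.card := by
          push_cast
          linarith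
        exact_mod_cast h4
      obtain ⟨F, hFS, hFc, hF1, hF2⟩ := select S (W1 m (aI lam) (SI (T := T) (n := n)) G U)
        (W2 m (aI lam) (SI (T := T) (n := n)) G U) (B := B) (C := (2 * T + 2 : ℕ) * B) hB
        (k := k) (m := q + 1) (M := M) hk
        (fun f hf => (W1_le_Wabs hm0.le _ _ _ _ _).trans (Finset.mem_filter.mp hf).2)
        (fun f g => W2_nonneg hm0.le _ _ _ _ _ _) (fun f g => W2_comm _ _ _ _ _ _)
        (fun f hf => (sum_W2_le hm0.le _ _ _ _ _ SI_card f).trans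
          (mul_le_mul_of_nonneg_left (Finset.mem_filter.mp hf).2 (by positivity)))
        hcardS hM
      have hSU : S ⊆ U := by
        intro e he
        exact (mem_Off.mp (Finset.mem_filter.mp he).1).1
      have hFU : F ⊆ U := hFS.trans hSU
      refine WaiterForces.round G U F hFU hFc fun e he => ?_
      have hoffe : Offerable D (4 * T + 1) G e :=
        (mem_Off.mp (Finset.mem_filter.mp (hFS he)).1).2
      have hgood := good_step hG hFU he hoffe
      have hcardU : (U \ F).card = U.card - (q + 1) := by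
        rw [Finset.card_sdiff_of_subset hFU, hFc]
      have hle : q + 1 ≤ U.card := by rw [← hFc]; exact Finset.card_le_card hFU
      have hstep := step_bound (m := q + 1) (by omega) (aI lam) (SI (T := T) (n := n)) hG.disj
        hFU hFc he (η := 2 * B / k)
        (ρ := ((q + 1 : ℕ) : ℝ) * ((2 * T + 2 : ℕ) * B) / (M - ((q + 1 : ℕ) : ℝ)))
        (fun f hf => hF1 e he f hf) hF2
      refine ih (U \ F).card (by omega) (insert e G) (U \ F) le_rfl hgood ?_
      have hc2 : ((U \ F).card : ℝ) = U.card - m := by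
        rw [hcardU, Nat.cast_sub hle]
      rw [hc2]
      have h5 : m * (2 * B / k) + 2 * m * (m * ((2 * T + 2 : ℕ) * B) / (M - m)) ≤ m * δ := by
        have := mul_le_mul_of_nonneg_left hδ hm0.le
        calc _ = m * (2 * B / k + 2 * (m * ((2 * T + 2 : ℕ) * B) / (M - m))) := by ring
          _ ≤ m * δ := this
      linarith
    · -- final position
      push Not at hoff
      have hfin := final_ineq (T := T) hG hm1 hnm hTD hlam
      rw [← Phi_eq] at hfin
      have hN' : ((Off D (4 * T + 1) G U).card : ℝ) ≤ N := by exact_mod_cast hoff.le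
      have h1 : (T : ℝ) * ((Off D (4 * T + 1) G U).card * (2 * T * ((D : ℝ) + 1) ^ (2 * T))
          * (m⁻¹) ^ 2) ≤ T * (N * (2 * T * ((D : ℝ) + 1) ^ (2 * T)) * (m⁻¹) ^ 2) := by
        apply mul_le_mul_of_nonneg_left _ (by positivity)
        apply mul_le_mul_of_nonneg_right _ (by positivity)
        exact mul_le_mul_of_nonneg_right hN' (by positivity)
      have h2 : 0 ≤ δ * U.card := by positivity
      have h3 : 1 ≤ ((Cl G U).card : ℝ) * m⁻¹ := by linarith
      have h4 : q + 1 ≤ (Cl G U).card := by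
        have : m ≤ (Cl G U).card := by
          have := mul_le_mul_of_nonneg_right h3 hm0.le
          rw [mul_assoc, inv_mul_cancel₀ hm0.ne', one_mul, mul_one] at this
          exact this
        have h6 : ((q + 1 : ℕ) : ℝ) ≤ ((Cl G U).card : ℝ) := this
        exact_mod_cast h6
      obtain ⟨F, hFC, hFc⟩ := Finset.exists_subset_card_eq h4
      have hCU : Cl G U ⊆ U := by unfold Cl; exact Finset.filter_subset _ _
      refine WaiterForces.round G U F (hFC.trans hCU) hFc fun e he => ?_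
      apply forces_of_odd r q (U \ F).card _ _ le_rfl
      have := hFC he
      unfold Cl at this
      exact (Finset.mem_filter.mp this).2

end Pool.Agent.H28R3
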