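import Pool.Agent.H28R3.Init

set_option autoImplicit false

namespace Pool.Agent.H28R3

open Finset Filter Topology

/-- The series whose sum governs the threshold. -/
lemma exists_T {c : ℝ} (hc0 : 0 < c) (hc1 : c < 1)
    (hc : 2 < (Real.log (1 + c) - Real.log (1 - c)) / 2 - c) :
    ∃ (T : ℕ) (κ : ℝ), 1 ≤ T ∧ 0 < κ ∧
      1 + 4 * κ ≤ ∑ t : Fin T, (2 * ((2 * (t : ℕ) + 2 + 1 : ℕ) : ℝ))⁻¹
        * c ^ (2 * (t : ℕ) + 2 + 1) := by
  have habs : |c| < 1 := by rw [abs_of_pos hc0]; exact hc1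
  have hs := Real.hasSum_log_sub_log_of_abs_lt_one habs
  set S := Real.log (1 + c) - Real.log (1 - c) with hS
  have ht := hs.tendsto_sum_nat
  have ht1 := (tendsto_add_atTop_iff_nat 1).mpr ht
  set κ : ℝ := ((S - 2 * c) / 4 - 1) / 8 with hκ
  have hκ0 : 0 < κ := by rw [hκ]; linarith
  have hlt : 2 * c + 4 * (1 + 4 * κ) < S := by rw [hκ]; linarith
  have hev := ht1.eventually (lt_mem_nhds hlt)
  obtain ⟨T, hT1, hT⟩ := (hev.and (eventually_ge_atTop 1)).exists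
  refine ⟨T, κ, hT, hκ0, ?_⟩
  rw [Finset.sum_range_succ'] at hT1
  have h1 : ∑ t : Fin T, (2 * ((2 * (t : ℕ) + 2 + 1 : ℕ) : ℝ))⁻¹ * c ^ (2 * (t : ℕ) + 2 + 1)
      = ∑ k ∈ Finset.range T, (2 * ((2 * k + 2 + 1 : ℕ) : ℝ))⁻¹ * c ^ (2 * k + 2 + 1) :=
    (Finset.sum_range (fun k => (2 * ((2 * k + 2 + 1 : ℕ) : ℝ))⁻¹ * c ^ (2 * k + 2 + 1))).symm
  have h2 : ∑ k ∈ Finset.range T, (2 : ℝ) * (1 / (2 * ((k + 1 : ℕ) : ℝ) + 1))
        * c ^ (2 * (k + 1) + 1)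
      = 4 * ∑ k ∈ Finset.range T, (2 * ((2 * k + 2 + 1 : ℕ) : ℝ))⁻¹ * c ^ (2 * k + 2 + 1) := by
    rw [Finset.mul_sum]
    refine Finset.sum_congr rfl fun k _ => ?_
    have e1 : 2 * (k + 1) + 1 = 2 * k + 2 + 1 := by ring
    rw [e1]
    push_cast
    have : (2 * (k : ℝ) + 2 + 1) ≠ 0 := by positivity
    have h3 : (2 * ((k : ℝ) + 1) + 1) ≠ 0 := by positivity
    field_simp
    ring
  rw [h1]
  rw [h2] at hT1
  simp only [CharP.cast_eq_zero, mul_zero, zero_add, div_one, mul_one, pow_one] at hT1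
  linarith

lemma quad (a b d : ℝ) (ha : 0 < a) : ∀ᶠ n : ℕ in atTop, b * n + d ≤ a * (n : ℝ) ^ 2 := by
  filter_upwards [eventually_ge_atTop 1, eventually_ge_atTop (⌈(|b| + |d|) / a⌉₊)] with n h1 h2
  have h1' : (1 : ℝ) ≤ n := by exact_mod_cast h1
  have h2' : (|b| + |d|) / a ≤ n := (Nat.le_ceil _).trans (by exact_mod_cast h2)
  rw [div_le_iff₀ ha] at h2'
  have hb := le_abs_self b
  have hd := le_abs_self d
  have hbn := abs_nonneg b
  have hdn := abs_nonneg d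
  nlinarith

lemma eventually_sum {c : ℝ} (hc0 : 0 < c) {T : ℕ} {κ : ℝ} (hκ : 0 < κ)
    (h : 1 + 4 * κ ≤ ∑ t : Fin T, (2 * ((2 * (t : ℕ) + 2 + 1 : ℕ) : ℝ))⁻¹
        * c ^ (2 * (t : ℕ) + 2 + 1)) :
    ∀ᶠ n : ℕ in atTop, 1 + 3 * κ ≤ ∑ t : Fin T, (2 * ((2 * (t : ℕ) + 2 + 1 : ℕ) : ℝ))⁻¹
        * ((n.descFactorial (2 * (t : ℕ) + 2 + 1) : ℝ)
          * (((n : ℝ) / c + 1)⁻¹) ^ (2 * (t : ℕ) + 2 + 1)) := by
  have hlim : ∀ t : Fin T, Tendsto (fun n : ℕ => (n.descFactorial (2 * (t : ℕ) + 2 + 1) : ℝ)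
      * (((n : ℝ) / c + 1)⁻¹) ^ (2 * (t : ℕ) + 2 + 1)) atTop (𝓝 (c ^ (2 * (t : ℕ) + 2 + 1))) := by
    intro t
    set l := 2 * (t : ℕ) + 2 + 1 with hl
    -- lower and upper bound
    have hbase : Tendsto (fun n : ℕ => (n : ℝ) / ((n : ℝ) / c + 1)) atTop (𝓝 c) := by
      have h1 : Tendsto (fun n : ℕ => (1 / c + 1 / (n : ℝ))⁻¹) atTop (𝓝 c) := by
        have := (tendsto_const_nhds (x := 1 / c)).add
          (tendsto_one_div_atTop_nhds_zero_nat (𝕜 := ℝ))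
        have h2 := this.inv₀ (by rw [add_zero]; positivity)
        rw [add_zero, one_div, inv_inv] at h2
        simpa [one_div] using h2
      refine h1.congr' ?_
      filter_upwards [eventually_ge_atTop 1] with n hn
      have hn' : (0 : ℝ) < n := by exact_mod_cast hn
      field_simp
    have hsmall : Tendsto (fun n : ℕ => (l : ℝ) / ((n : ℝ) / c + 1)) atTop (𝓝 0) := by
      apply Tendsto.const_div_atTop
      apply tendsto_atTop_add_const_right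
      exact tendsto_natCast_atTop_atTop.atTop_div_const hc0
    have hlow : Tendsto (fun n : ℕ => ((n : ℝ) / ((n : ℝ) / c + 1) - (l : ℝ) / ((n : ℝ) / c + 1)) ^ l)
        atTop (𝓝 (c ^ l)) := by
      have := (hbase.sub hsmall).pow l
      rwa [sub_zero] at this
    have hup : Tendsto (fun n : ℕ => ((n : ℝ) / ((n : ℝ) / c + 1)) ^ l) atTop (𝓝 (c ^ l)) :=
      hbase.pow l
    refine tendsto_of_tendsto_of_tendsto_of_le_of_le' hlow hup ?_ ?_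
    · filter_upwards [eventually_ge_atTop l] with n hn
      have hpos : (0 : ℝ) < (n : ℝ) / c + 1 := by positivity
      have h1 : ((n : ℝ) / ((n : ℝ) / c + 1) - (l : ℝ) / ((n : ℝ) / c + 1))
          = ((n : ℝ) - l) * ((n : ℝ) / c + 1)⁻¹ := by
        rw [div_eq_mul_inv, div_eq_mul_inv]; ring
      rw [h1, mul_pow]
      apply mul_le_mul_of_nonneg_right _ (by positivity)
      have h2 := Nat.pow_sub_le_descFactorial n l
      have h3 : ((n : ℝ) - l) ^ l ≤ (((n + 1 - l) ^ l : ℕ) : ℝ) := by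
        push_cast
        apply pow_le_pow_left₀
        · have : (l : ℝ) ≤ n := by exact_mod_cast hn
          linarith
        · rw [Nat.cast_sub (by omega)]
          push_cast
          linarith
      refine h3.trans ?_
      exact_mod_cast h2
    · filter_upwards with n
      have hpos : (0 : ℝ) < (n : ℝ) / c + 1 := by positivity
      rw [div_eq_mul_inv (n : ℝ) ((n : ℝ) / c + 1), mul_pow]
      apply mul_le_mul_of_nonneg_right _ (by positivity)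
      exact_mod_cast Nat.descFactorial_le_pow n l
  have hsum : Tendsto (fun n : ℕ => ∑ t : Fin T, (2 * ((2 * (t : ℕ) + 2 + 1 : ℕ) : ℝ))⁻¹
        * ((n.descFactorial (2 * (t : ℕ) + 2 + 1) : ℝ)
          * (((n : ℝ) / c + 1)⁻¹) ^ (2 * (t : ℕ) + 2 + 1))) atTop
      (𝓝 (∑ t : Fin T, (2 * ((2 * (t : ℕ) + 2 + 1 : ℕ) : ℝ))⁻¹ * c ^ (2 * (t : ℕ) + 2 + 1))) :=
    tendsto_finsetSum _ fun t _ => (hlim t).const_mul _
  have hlt : 1 + 3 * κ < ∑ t : Fin T, (2 * ((2 * (t : ℕ) + 2 + 1 : ℕ) : ℝ))⁻¹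
      * c ^ (2 * (t : ℕ) + 2 + 1) := by linarith
  filter_upwards [hsum.eventually (lt_mem_nhds hlt)] with n hn
  exact hn.le

/-- Waiter wins for all large `n` and all `q` between `n` and `n / c`. -/
theorem waiter_wins {c : ℝ} (hc0 : 0 < c) (hc1 : c < 1)
    (hc : 2 < (Real.log (1 + c) - Real.log (1 - c)) / 2 - c) :
    ∀ᶠ n : ℕ in atTop, ∀ q : ℕ, n ≤ q → (q : ℝ) ≤ n / c → ∀ r, WaiterWins r n q := by
  obtain ⟨T, κ, hT, hκ, hsum⟩ := exists_T hc0 hc1 hc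
  have hT' : (1 : ℝ) ≤ T := by exact_mod_cast hT
  have hT0 : (0 : ℝ) < T := by linarith
  -- lam and D
  obtain ⟨lam, hlamdef⟩ : ∃ lam : ℝ, lam = κ / T := ⟨_, rfl⟩
  have hlam : 0 < lam := by rw [hlamdef]; positivity
  have hlamT : lam * T = κ := by rw [hlamdef]; field_simp
  obtain ⟨D, hDdef⟩ : ∃ D : ℕ, D = 2 * T + 2 + ⌈1 / lam⌉₊ := ⟨_, rfl⟩
  have hTD : 2 * T + 1 < D := by omega
  have hlamD : 1 ≤ lam * ((D : ℝ) - (2 * T + 1)) := by
    have h1 : 1 / lam ≤ (D : ℝ) - (2 * T + 1) := by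
      have h2 := Nat.le_ceil (1 / lam)
      rw [hDdef]
      push_cast
      linarith
    have h2 := mul_le_mul_of_nonneg_left h1 hlam.le
    rwa [mul_one_div, div_self hlam.ne'] at h2
  -- constants
  obtain ⟨X, hX⟩ : ∃ X : ℝ, X = T * ((1 + lam * ((2 * T + 1) * ((D : ℝ) + 1)))
      * ((D : ℝ) + 1) ^ (2 * T)) := ⟨_, rfl⟩
  have hX0 : 0 < X := by rw [hX]; positivity
  obtain ⟨C1, hC1⟩ : ∃ C1 : ℝ, C1 = 2 * T * ((D : ℝ) + 1) ^ (2 * T) := ⟨_, rfl⟩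
  have hC10 : 0 < C1 := by rw [hC1]; positivity
  obtain ⟨C2, hC2⟩ : ∃ C2 : ℝ, C2 = ((((4 * T + 1 : ℕ) : ℝ) + 1)
      * ((D : ℝ) + 1) ^ (4 * T + 1)) ^ (2 * T) := ⟨_, rfl⟩
  have hC20 : 0 < C2 := by rw [hC2]; positivity
  obtain ⟨γ, hγ⟩ : ∃ γ : ℝ, γ = κ / (4 * T * C1) := ⟨_, rfl⟩
  have hγ0 : 0 < γ := by rw [hγ]; positivity
  obtain ⟨A, hA⟩ : ∃ A : ℝ, A = 4 * ((2 * T + 2 : ℕ) : ℝ) * X / γ := ⟨_, rfl⟩
  have hA0 : 0 < A := by rw [hA]; positivity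
  obtain ⟨k, hk⟩ : ∃ k : ℕ, k = ⌈4 * A / κ⌉₊ + 1 := ⟨_, rfl⟩
  have hk0 : 0 < k := by omega
  have hk0' : (0 : ℝ) < k := by exact_mod_cast hk0
  have hAk : A / k ≤ κ / 4 := by
    have h1 : 4 * A / κ ≤ k := by
      have := Nat.le_ceil (4 * A / κ)
      rw [hk]; push_cast; linarith
    rw [div_le_iff₀ hκ] at h1
    rw [div_le_iff₀ hk0']
    linarith
  obtain ⟨P, hP⟩ : ∃ P : ℝ, P = (1 / c + 1) * (1 + 4 * A * ((2 * T + 2 : ℕ) : ℝ) / κ) :=
    ⟨_, rfl⟩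
  have hP0 : 0 < P := by rw [hP]; positivity
  filter_upwards [eventually_sum hc0 hκ hsum, eventually_ge_atTop 1,
    quad (κ / (4 * T * C1)) 0 1 (by positivity),
    eventually_ge_atTop ⌈2 * T * C2 / κ⌉₊,
    quad (γ / (4 * (k + 1))) P 2 (by positivity)] with n h1 h2 h3 h4 h5 q hq1 hq2 r
  have hn0 : (0 : ℝ) < n := by exact_mod_cast h2
  have hn1 : (1 : ℝ) ≤ n := by exact_mod_cast h2
  obtain ⟨m, hm⟩ : ∃ m : ℝ, m = ((q + 1 : ℕ) : ℝ) := ⟨_, rfl⟩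
  have hmq : m = q + 1 := by rw [hm]; push_cast; ring
  have hqn : (n : ℝ) ≤ q := by exact_mod_cast hq1
  have hnm : (n : ℝ) ≤ m := by rw [hmq]; linarith
  have hm0 : 0 < m := by linarith
  have hmle : m ≤ n / c + 1 := by rw [hmq]; linarith
  have hmle2 : m ≤ (1 / c + 1) * n := by
    refine hmle.trans ?_
    have : (n : ℝ) / c = 1 / c * n := by ring
    rw [this]
    nlinarith
  have hminv : m⁻¹ ≤ (n : ℝ)⁻¹ := inv_anti₀ hn0 hnm
  have hminv0 : 0 ≤ m⁻¹ := inv_nonneg.mpr hm0.le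
  have hminv2 : (m⁻¹) ^ 2 ≤ ((n : ℝ)⁻¹) ^ 2 := pow_le_pow_left₀ hminv0 hminv 2
  -- M and N, B
  obtain ⟨M, hM⟩ : ∃ M : ℕ, M = ⌊γ * (n : ℝ) ^ 2 / (4 * (k + 1))⌋₊ := ⟨_, rfl⟩
  obtain ⟨N, hN⟩ : ∃ N : ℕ, N = ⌈γ * (n : ℝ) ^ 2⌉₊ := ⟨_, rfl⟩
  obtain ⟨B, hB⟩ : ∃ B : ℝ, B = A / (n : ℝ) ^ 2 := ⟨_, rfl⟩
  have hB0 : 0 < B := by rw [hB]; positivity
  have hMle : (M : ℝ) ≤ γ * (n : ℝ) ^ 2 / (4 * (k + 1)) := by
    rw [hM]; exact Nat.floor_le (by positivity)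
  have hMge : γ * (n : ℝ) ^ 2 / (4 * (k + 1)) - 1 < M := by
    rw [hM]
    have := Nat.lt_floor_add_one (γ * (n : ℝ) ^ 2 / (4 * (k + 1)))
    linarith
  have hMP : P * n + 1 ≤ M := by
    have : γ / (4 * (k + 1)) * (n : ℝ) ^ 2 = γ * (n : ℝ) ^ 2 / (4 * (k + 1)) := by ring
    rw [this] at h5
    linarith
  have hPm : m * (1 + 4 * A * ((2 * T + 2 : ℕ) : ℝ) / κ) ≤ P * n := by
    rw [hP]
    have h6 : (0 : ℝ) ≤ 1 + 4 * A * ((2 * T + 2 : ℕ) : ℝ) / κ := by positivity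
    calc m * (1 + 4 * A * ((2 * T + 2 : ℕ) : ℝ) / κ)
        ≤ ((1 / c + 1) * n) * (1 + 4 * A * ((2 * T + 2 : ℕ) : ℝ) / κ) :=
          mul_le_mul_of_nonneg_right hmle2 h6
      _ = _ := by ring
  have hMm1 : m * (4 * A * ((2 * T + 2 : ℕ) : ℝ) / κ) ≤ M - m := by
    have : m * (1 + 4 * A * ((2 * T + 2 : ℕ) : ℝ) / κ)
        = m + m * (4 * A * ((2 * T + 2 : ℕ) : ℝ) / κ) := by ring
    rw [this] at hPm
    linarith
  have hMm : 0 < (M : ℝ) - m := by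
    have : 0 < m * (4 * A * ((2 * T + 2 : ℕ) : ℝ) / κ) := by positivity
    linarith
  have hMq : q + 1 < M := by
    have : ((q + 1 : ℕ) : ℝ) < M := by rw [← hm]; linarith
    exact_mod_cast this
  have hNge : γ * (n : ℝ) ^ 2 ≤ N := by rw [hN]; exact Nat.le_ceil _
  have hNle : (N : ℝ) ≤ γ * (n : ℝ) ^ 2 + 1 := by
    rw [hN]; exact (Nat.ceil_lt_add_one (by positivity)).le
  have hNcond : ((k + 1) * M : ℝ) + (2 * T + 2 : ℕ) * X / B ≤ N := by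
    have e1 : ((k : ℝ) + 1) * M ≤ γ * (n : ℝ) ^ 2 / 4 := by
      have := mul_le_mul_of_nonneg_left hMle (by positivity : (0 : ℝ) ≤ (k : ℝ) + 1)
      refine this.trans (le_of_eq ?_)
      field_simp
    have e2 : ((2 * T + 2 : ℕ) : ℝ) * X / B = γ * (n : ℝ) ^ 2 / 4 := by
      rw [hB, hA]
      field_simp
    rw [e2]
    have : 0 ≤ γ * (n : ℝ) ^ 2 := by positivity
    linarith
  obtain ⟨δ, hδ⟩ : ∃ δ : ℝ, δ = 2 * B / k
      + 2 * (((q + 1 : ℕ) : ℝ) * ((2 * T + 2 : ℕ) * B) / (M - ((q + 1 : ℕ) : ℝ))) := ⟨_, rfl⟩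
  have hδU : δ * (E0 n).card ≤ κ / 2 := by
    have hδ0 : 0 ≤ δ := by
      rw [hδ, ← hm]
      positivity
    refine (mul_le_mul_of_nonneg_left card_E0_le hδ0).trans ?_
    rw [hδ, ← hm, hB]
    have e1 : (2 * (A / (n : ℝ) ^ 2) / k
        + 2 * (m * (((2 * T + 2 : ℕ) : ℝ) * (A / (n : ℝ) ^ 2)) / (M - m))) * ((n : ℝ) ^ 2 / 2)
        = A / k + A * ((2 * T + 2 : ℕ) : ℝ) * m / (M - m) := by
      field_simp
    rw [e1]
    have e2 : A * ((2 * T + 2 : ℕ) : ℝ) * m / (M - m) ≤ κ / 4 := by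
      rw [div_le_iff₀ hMm]
      have := mul_le_mul_of_nonneg_left hMm1 (by positivity : (0 : ℝ) ≤ κ / 4)
      refine le_trans (le_of_eq ?_) this
      field_simp
    linarith
  have hΦ : 1 + T * (N * (2 * T * ((D : ℝ) + 1) ^ (2 * T)) * ((((q + 1 : ℕ) : ℝ))⁻¹) ^ 2)
        + T * ((n * ((((4 * T + 1 : ℕ) : ℝ) + 1) * ((D : ℝ) + 1) ^ (4 * T + 1)) ^ (2 * T))
          * ((((q + 1 : ℕ) : ℝ))⁻¹) ^ 2) ≤ 1 + κ := by
    rw [← hm, ← hC1, ← hC2]
    have e1 : (T : ℝ) * (N * C1 * (m⁻¹) ^ 2) ≤ κ / 2 := by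
      calc (T : ℝ) * (N * C1 * (m⁻¹) ^ 2)
          ≤ T * ((γ * (n : ℝ) ^ 2 + 1) * C1 * ((n : ℝ)⁻¹) ^ 2) := by
            apply mul_le_mul_of_nonneg_left _ hT0.le
            apply mul_le_mul _ hminv2 (by positivity) (by positivity)
            exact mul_le_mul_of_nonneg_right hNle hC10.le
        _ = T * C1 * γ + T * C1 / (n : ℝ) ^ 2 := by
            field_simp
        _ ≤ κ / 4 + κ / 4 := by
            apply add_le_add
            · rw [hγ]; apply le_of_eq; field_simp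
            · rw [div_le_iff₀ (by positivity)]
              rw [zero_mul, zero_add] at h3
              have h7 := mul_le_mul_of_nonneg_left h3 (by positivity : (0 : ℝ) ≤ T * C1)
              refine le_trans (le_of_eq (by ring)) (h7.trans (le_of_eq ?_))
              field_simp
        _ = κ / 2 := by ring
    have e2 : (T : ℝ) * ((n * C2) * (m⁻¹) ^ 2) ≤ κ / 2 := by
      calc (T : ℝ) * ((n * C2) * (m⁻¹) ^ 2)
          ≤ T * ((n * C2) * ((n : ℝ)⁻¹) ^ 2) := by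
            apply mul_le_mul_of_nonneg_left _ hT0.le
            exact mul_le_mul_of_nonneg_left hminv2 (by positivity)
        _ = T * C2 / n := by field_simp
        _ ≤ κ / 2 := by
            rw [div_le_iff₀ hn0]
            have h8 : 2 * T * C2 / κ ≤ n := (Nat.le_ceil _).trans (by exact_mod_cast h4)
            rw [div_le_iff₀ hκ] at h8
            linarith
    linarith
  have hinit := Phi_init (T := T) (n := n) hm0 hnm hlam.le
  have hs2 : 1 + 3 * κ ≤ ∑ t : Fin T, (2 * ((2 * (t : ℕ) + 2 + 1 : ℕ) : ℝ))⁻¹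
      * ((n.descFactorial (2 * (t : ℕ) + 2 + 1) : ℝ) * (m⁻¹) ^ (2 * (t : ℕ) + 2 + 1)) := by
    refine h1.trans (Finset.sum_le_sum fun t _ => ?_)
    apply mul_le_mul_of_nonneg_left _ (by positivity)
    apply mul_le_mul_of_nonneg_left _ (by positivity)
    apply pow_le_pow_left₀ (by positivity)
    exact inv_anti₀ hm0 hmle
  apply loop (T := T) (n := n) r (q := q) (D := D) (k := k) (M := M) (N := N) (X := X) (B := B)
    (δ := δ) (Φ₁ := 1 + κ) (lam := lam) (by omega) hTD hlamD hlam.le hX hB0 hk0 hMq hNcond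
    (le_of_eq hδ.symm) hΦ (E0 n).card ∅ (E0 n) le_rfl (good_init D (4 * T + 1))
  rw [← hm]
  rw [hlamT] at hinit
  linarith

end Pool.Agent.H28R3
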