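import Pool.Agent.H28R3.Good

set_option autoImplicit false

namespace Pool.Agent.H28R3

open Finset

variable {n : ℕ}

/-- the weight of a closed sequence -/
noncomputable def pS (m : ℝ) (G U : Finset (Sym2 (Fin n))) {j : ℕ} (s : Fin (j + 1) → Fin n) : ℝ :=
  wt m G U (cyc s)

open Classical in
/-- the total weight of the closed sequence `s` with a pendant edge -/
noncomputable def qS (m : ℝ) (G U : Finset (Sym2 (Fin n))) {j : ℕ} (s : Fin (j + 1) → Fin n) : ℝ :=
  ∑ k, ∑ x, if x ∈ Set.range s then 0 else wt m G U (insert s(s k, x) (cyc s))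

lemma pS_nonneg {m : ℝ} (hm : 0 ≤ m) (G U : Finset (Sym2 (Fin n))) {j : ℕ}
    (s : Fin (j + 1) → Fin n) : 0 ≤ pS m G U s := wt_nonneg hm _ _ _

lemma qS_nonneg {m : ℝ} (hm : 0 ≤ m) (G U : Finset (Sym2 (Fin n))) {j : ℕ}
    (s : Fin (j + 1) → Fin n) : 0 ≤ qS m G U s := by
  unfold qS
  refine Finset.sum_nonneg fun k _ => Finset.sum_nonneg fun x _ => ?_
  split_ifs
  · exact le_refl _
  · exact wt_nonneg hm _ _ _

lemma pendant_notMem {j : ℕ} (s : Fin (j + 1) → Fin n) (k : Fin (j + 1)) {x : Fin n}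
    (hx : x ∉ Set.range s) : s(s k, x) ∉ cyc s := by
  intro h
  unfold cyc at h
  rw [Finset.mem_image] at h
  obtain ⟨i, -, hi⟩ := h
  apply hx
  have h1 : x ∈ ce s i := by rw [hi]; exact Sym2.mem_mk_right _ _
  unfold ce at h1
  rw [Sym2.mem_iff] at h1
  rcases h1 with rfl | rfl
  · exact ⟨i, rfl⟩
  · exact ⟨i + 1, rfl⟩

section Rows

variable {D k : ℕ} {G U : Finset (Sym2 (Fin n))} {m : ℝ}

lemma Ym_le (hm : 0 ≤ m) (u v : Fin n) : Ym m G U u v ≤ Am G u v + m⁻¹ := by
  rw [Ym_apply, Am_apply]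
  unfold ew
  have : 0 ≤ m⁻¹ := inv_nonneg.mpr hm
  split_ifs <;> linarith

lemma Ym_nonneg (hm : 0 ≤ m) (u v : Fin n) : 0 ≤ Ym m G U u v := ew_nonneg hm _ _ _

lemma Ym_row (hm : 0 < m) (hnm : (n : ℝ) ≤ m) (hdeg : ∀ u, dg G u ≤ D) (u : Fin n) :
    ∑ v, Ym m G U u v ≤ (D : ℝ) + 1 := by
  calc ∑ v, Ym m G U u v ≤ ∑ v, (Am G u v + m⁻¹) :=
        Finset.sum_le_sum fun v _ => Ym_le hm.le u v
    _ = dg G u + n * m⁻¹ := by
        rw [Finset.sum_add_distrib, Am_row, Finset.sum_const, Finset.card_univ, Fintype.card_fin,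
          nsmul_eq_mul]
    _ ≤ (D : ℝ) + 1 := by
        have h1 : ((dg G u : ℕ) : ℝ) ≤ D := by exact_mod_cast hdeg u
        have h2 : (n : ℝ) * m⁻¹ ≤ 1 := by
          rw [mul_inv_le_iff₀ hm]; linarith
        linarith

lemma qS_le (hm : 0 < m) (hnm : (n : ℝ) ≤ m) (hdeg : ∀ u, dg G u ≤ D) {j : ℕ}
    (s : Fin (j + 1) → Fin n) :
    qS m G U s ≤ ((j + 1 : ℕ) : ℝ) * ((D : ℝ) + 1) * pS m G U s := by
  classical
  unfold qS
  have h1 : ∀ k : Fin (j + 1), ∑ x, (if x ∈ Set.range s then 0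
      else wt m G U (insert s(s k, x) (cyc s))) ≤ ((D : ℝ) + 1) * pS m G U s := by
    intro k
    calc ∑ x, (if x ∈ Set.range s then 0 else wt m G U (insert s(s k, x) (cyc s)))
        ≤ ∑ x, Ym m G U (s k) x * pS m G U s := by
          refine Finset.sum_le_sum fun x _ => ?_
          split_ifs with hx
          · exact mul_nonneg (Ym_nonneg hm.le _ _) (pS_nonneg hm.le _ _ _)
          · unfold wt
            rw [Finset.prod_insert (pendant_notMem s k hx)]
            exact le_refl _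
      _ = (∑ x, Ym m G U (s k) x) * pS m G U s := by rw [Finset.sum_mul]
      _ ≤ ((D : ℝ) + 1) * pS m G U s :=
          mul_le_mul_of_nonneg_right (Ym_row hm hnm hdeg _) (pS_nonneg hm.le _ _ _)
  calc _ ≤ ∑ _k : Fin (j + 1), ((D : ℝ) + 1) * pS m G U s := Finset.sum_le_sum fun k _ => h1 k
    _ = _ := by
      rw [Finset.sum_const, Finset.card_univ, Fintype.card_fin, nsmul_eq_mul, mul_assoc]

/-- A saturated vertex. -/
lemma sat_le (hm : 0 < m) {j : ℕ} (hjD : j + 1 < D)
    (s : Fin (j + 1) → Fin n) (k : Fin (j + 1)) (hk : D ≤ dg G (s k)) :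
    ((D : ℝ) - ((j + 1 : ℕ) : ℝ)) * pS m G U s ≤ qS m G U s := by
  classical
  have h1 : ∑ x, (if x ∈ Set.range s then 0 else wt m G U (insert s(s k, x) (cyc s)))
      ≤ qS m G U s := by
    unfold qS
    refine Finset.single_le_sum (f := fun k => ∑ x, (if x ∈ Set.range s then (0 : ℝ)
      else wt m G U (insert s(s k, x) (cyc s)))) (fun k _ => ?_) (Finset.mem_univ k)
    refine Finset.sum_nonneg fun x _ => ?_
    split_ifs
    · exact le_refl _
    · exact wt_nonneg hm.le _ _ _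
  refine le_trans ?_ h1
  set N : Finset (Fin n) := Finset.univ.filter fun v => s(s k, v) ∈ G with hN
  set Rg : Finset (Fin n) := Finset.univ.image s with hRg
  have hRgc : Rg.card ≤ j + 1 := by
    refine Finset.card_image_le.trans ?_
    rw [Finset.card_univ, Fintype.card_fin]
  have hNc : D - (j + 1) ≤ (N \ Rg).card := by
    have := Finset.le_card_sdiff Rg N
    have h2 : D ≤ N.card := hk
    omega
  calc ((D : ℝ) - ((j + 1 : ℕ) : ℝ)) * pS m G U s
      ≤ ((N \ Rg).card : ℝ) * pS m G U s := by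
        apply mul_le_mul_of_nonneg_right _ (pS_nonneg hm.le _ _ _)
        rw [← Nat.cast_sub hjD.le]
        exact_mod_cast hNc
    _ = ∑ x ∈ N \ Rg, pS m G U s := by rw [Finset.sum_const, nsmul_eq_mul]
    _ ≤ ∑ x ∈ N \ Rg, (if x ∈ Set.range s then 0
          else wt m G U (insert s(s k, x) (cyc s))) := by
        refine Finset.sum_le_sum fun x hx => ?_
        rw [Finset.mem_sdiff] at hx
        have hxr : x ∉ Set.range s := by
          rintro ⟨i, rfl⟩
          exact hx.2 (Finset.mem_image_of_mem _ (Finset.mem_univ i))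
        rw [if_neg hxr]
        unfold wt
        rw [Finset.prod_insert (pendant_notMem s k hxr)]
        have hG : s(s k, x) ∈ G := by
          have := hx.1
          rw [hN, Finset.mem_filter] at this
          exact this.2
        have : ew m G U s(s k, x) = 1 := by unfold ew; rw [if_pos hG]
        rw [this, one_mul]
        exact le_refl _
    _ ≤ ∑ x, (if x ∈ Set.range s then 0 else wt m G U (insert s(s k, x) (cyc s))) := by
        apply Finset.sum_le_sum_of_subset_of_nonneg (Finset.subset_univ _)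
        intro x _ _
        split_ifs
        · exact le_refl _
        · exact wt_nonneg hm.le _ _ _

end Rows

section Classify

variable {D k : ℕ} {G U : Finset (Sym2 (Fin n))} {m : ℝ}

lemma mem_of_pS_ne {j : ℕ} {s : Fin (j + 1) → Fin n} (h : pS m G U s ≠ 0) (i : Fin (j + 1)) :
    ce s i ∈ G ∨ ce s i ∈ U := by
  by_contra hcon
  push Not at hcon
  apply h
  unfold pS wt
  apply Finset.prod_eq_zero (i := ce s i)
  · exact Finset.mem_image_of_mem _ (Finset.mem_univ i)
  · unfold ew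
    rw [if_neg hcon.1, if_neg hcon.2]

/-- There is at least one unclaimed edge. -/
lemma exists_unclaimed (hG : Good D k G U) {j : ℕ} (hj : 2 ≤ j) (hjk : j + 1 ≤ k)
    {s : Fin (j + 1) → Fin n} (hs : Function.Injective s) (h : pS m G U s ≠ 0) :
    ∃ i, ce s i ∈ U := by
  by_contra hcon
  push Not at hcon
  have hall : ∀ i, ce s i ∈ G := fun i => (mem_of_pS_ne h i).resolve_right (hcon i)
  have h1 : ∀ i : Fin j, s(s i.castSucc, s i.succ) ∈ G := by
    intro i
    rw [← ce_castSucc]; exact hall _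
  have hlast : s(s (Fin.last j), s 0) ∈ G := by
    rw [← ce_last]; exact hall _
  have hne : s 0 ≠ s (Fin.last j) := by
    intro h0
    have := congrArg Fin.val (hs h0)
    rw [Fin.val_last, Fin.val_zero] at this
    omega
  set s' : Fin (1 + 1) → Fin n := ![s 0, s (Fin.last j)] with hs'
  have hinj' : Function.Injective s' := by
    intro a b hab
    fin_cases a <;> fin_cases b <;> simp_all
  have hadj' : ∀ i : Fin 1, s(s' i.castSucc, s' i.succ) ∈ G := by
    intro i
    fin_cases i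
    have : s((s' (0 : Fin 1).castSucc), s' (0 : Fin 1).succ) = s(s (Fin.last j), s 0) := by
      rw [Sym2.eq_swap]
      rfl
    exact this ▸ hlast
  have hu := unique_seq hG.loc (j := j) (j' := 1) (by omega) s s' hs hinj' h1 hadj' rfl rfl
  have := congrArg Sigma.fst hu
  simp at this
  omega

open Classical in
noncomputable def aT (m : ℝ) (G U : Finset (Sym2 (Fin n))) {j : ℕ} (s : Fin (j + 1) → Fin n)
    (i : Fin (j + 1)) : ℝ :=
  if ce s i ∈ U ∧ ∀ i', i' ≠ i → ce s i' ∈ G then m⁻¹ else 0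

open Classical in
noncomputable def cT (D k : ℕ) (m : ℝ) (G U : Finset (Sym2 (Fin n))) {j : ℕ}
    (s : Fin (j + 1) → Fin n) (i : Fin (j + 1)) : ℝ :=
  if ce s i ∈ Off D k G U then pS m G U s else 0

open Classical in
noncomputable def dT (k : ℕ) (m : ℝ) (G : Finset (Sym2 (Fin n))) {j : ℕ}
    (s : Fin (j + 1) → Fin n) : ℝ :=
  if ∀ i, Near G k (s i) (s (i + 1)) then (m⁻¹) ^ 2 else 0

lemma aT_nonneg (hm : 0 ≤ m) {j : ℕ} (s : Fin (j + 1) → Fin n) (i : Fin (j + 1)) :
    0 ≤ aT m G U s i := by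
  unfold aT; split_ifs
  · exact inv_nonneg.mpr hm
  · exact le_refl _

lemma cT_nonneg (hm : 0 ≤ m) {j : ℕ} (s : Fin (j + 1) → Fin n) (i : Fin (j + 1)) :
    0 ≤ cT D k m G U s i := by
  unfold cT; split_ifs
  · exact pS_nonneg hm _ _ _
  · exact le_refl _

lemma dT_nonneg {j : ℕ} (s : Fin (j + 1) → Fin n) :
    0 ≤ dT k m G s := by
  unfold dT; split_ifs
  · positivity
  · exact le_refl _

lemma near_symm {G : Finset (Sym2 (Fin n))} {k : ℕ} {u v : Fin n} (h : Near G k u v) :
    Near G k v u := by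
  obtain ⟨j, hj, hne⟩ := h
  refine ⟨j, hj, ?_⟩
  have hT : (Am G).transpose = Am G := by
    ext a b
    rw [Matrix.transpose_apply]
    exact Am_symm G b a
  have : (Am G ^ j) v u = (Am G ^ j).transpose u v := rfl
  rw [this, Matrix.transpose_pow, hT]
  exact hne

/-- The pointwise bound. -/
lemma classify (hG : Good D k G U) (hm : 1 ≤ m) {j : ℕ} (hj : 2 ≤ j) (hjk : j + 1 ≤ k)
    (hjD : j + 1 < D) {lam : ℝ} (hlam : 1 ≤ lam * ((D : ℝ) - ((j + 1 : ℕ) : ℝ)))
    {s : Fin (j + 1) → Fin n} (hs : Function.Injective s) :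
    pS m G U s ≤ ∑ i, aT m G U s i + lam * qS m G U s + ∑ i, cT D k m G U s i + dT k m G s := by
  classical
  have hm0 : 0 < m := by linarith
  have hDj : (0 : ℝ) < (D : ℝ) - ((j + 1 : ℕ) : ℝ) := by
    have : ((j + 1 : ℕ) : ℝ) < D := by exact_mod_cast hjD
    linarith
  have hlam0 : 0 < lam := by
    by_contra hcon
    push Not at hcon
    nlinarith
  have nA : 0 ≤ ∑ i, aT m G U s i := Finset.sum_nonneg fun i _ => aT_nonneg hm0.le s i
  have nB : 0 ≤ lam * qS m G U s := mul_nonneg hlam0.le (qS_nonneg hm0.le _ _ _)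
  have nC : 0 ≤ ∑ i, cT D k m G U s i := Finset.sum_nonneg fun i _ => cT_nonneg hm0.le s i
  have nD : 0 ≤ dT k m G s := dT_nonneg s
  by_cases h0 : pS m G U s = 0
  · rw [h0]; linarith
  obtain ⟨i0, hi0⟩ := exists_unclaimed hG hj hjk hs h0
  have hprod : pS m G U s = ∏ i, ew m G U (ce s i) := wt_cyc hj hs m G U
  have hmi : 0 ≤ m⁻¹ := inv_nonneg.mpr hm0.le
  have hmi1 : m⁻¹ ≤ 1 := inv_le_one_of_one_le₀ hm
  by_cases hone : ∀ i', i' ≠ i0 → ce s i' ∈ G
  · -- exactly one unclaimed edge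
    have h1 : pS m G U s = m⁻¹ := by
      rw [hprod, ← Finset.mul_prod_erase Finset.univ _ (Finset.mem_univ i0), ew_old hG.disj hi0]
      rw [Finset.prod_eq_one, mul_one]
      intro i hi
      rw [Finset.mem_erase] at hi
      unfold ew
      rw [if_pos (hone i hi.1)]
    have h2 : aT m G U s i0 ≤ ∑ i, aT m G U s i :=
      Finset.single_le_sum (f := fun i => aT m G U s i) (fun i _ => aT_nonneg hm0.le s i)
        (Finset.mem_univ i0)
    have h3 : aT m G U s i0 = m⁻¹ := by
      unfold aT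
      rw [if_pos ⟨hi0, hone⟩]
    rw [h1]; rw [h3] at h2; linarith
  push Not at hone
  obtain ⟨i1, hi1, hi1G⟩ := hone
  have hi1U : ce s i1 ∈ U := (mem_of_pS_ne h0 i1).resolve_left hi1G
  by_cases hsat : ∃ i, D ≤ dg G (s i)
  · obtain ⟨i, hi⟩ := hsat
    have h1 := sat_le (U := U) hm0 hjD s i hi
    have h2 : lam * (((D : ℝ) - ((j + 1 : ℕ) : ℝ)) * pS m G U s) ≤ lam * qS m G U s :=
      mul_le_mul_of_nonneg_left h1 hlam0.le
    have h3 : pS m G U s ≤ lam * (((D : ℝ) - ((j + 1 : ℕ) : ℝ)) * pS m G U s) := by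
      rw [← mul_assoc]
      have := mul_le_mul_of_nonneg_right hlam (pS_nonneg hm0.le G U s)
      linarith
    linarith
  push Not at hsat
  by_cases hoff : ∃ i, ce s i ∈ Off D k G U
  · obtain ⟨i, hi⟩ := hoff
    have h2 : cT D k m G U s i ≤ ∑ i, cT D k m G U s i :=
      Finset.single_le_sum (f := fun i => cT D k m G U s i) (fun i _ => cT_nonneg hm0.le s i)
        (Finset.mem_univ i)
    have h3 : cT D k m G U s i = pS m G U s := by
      unfold cT
      rw [if_pos hi]
    rw [h3] at h2; linarith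
  push Not at hoff
  -- all consecutive vertices are near
  have hnear : ∀ i, Near G k (s i) (s (i + 1)) := by
    intro i
    rcases mem_of_pS_ne h0 i with hiG | hiU
    · exact near_of_mem (by omega) hiG
    · have h1 := hoff i
      rw [mem_Off] at h1
      have h2 : ¬ Offerable D k G (ce s i) := fun h => h1 ⟨hiU, h⟩
      unfold Offerable at h2
      push Not at h2
      obtain ⟨u, v, huv, h3⟩ := h2
      have hu : u ∈ Set.range s := by
        have : u ∈ ce s i := by rw [huv]; exact Sym2.mem_mk_left _ _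
        unfold ce at this
        rw [Sym2.mem_iff] at this
        rcases this with rfl | rfl
        · exact ⟨i, rfl⟩
        · exact ⟨i + 1, rfl⟩
      have h4 : dg G u < D := by
        obtain ⟨i', rfl⟩ := hu
        exact hsat i'
      have h5 := h3 h4
      unfold ce at huv
      rw [Sym2.eq_iff] at huv
      rcases huv with ⟨e1, e2⟩ | ⟨e1, e2⟩
      · rw [e1, e2]; exact h5
      · rw [e1, e2]; exact near_symm h5
  have h1 : dT k m G s = (m⁻¹) ^ 2 := by
    unfold dT
    rw [if_pos hnear]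
  have h2 : pS m G U s ≤ (m⁻¹) ^ 2 := by
    have hmem : i1 ∈ (Finset.univ.erase i0 : Finset (Fin (j + 1))) :=
      Finset.mem_erase.mpr ⟨hi1, Finset.mem_univ _⟩
    rw [hprod, ← Finset.mul_prod_erase Finset.univ _ (Finset.mem_univ i0), ew_old hG.disj hi0,
      ← Finset.mul_prod_erase _ _ hmem, ew_old hG.disj hi1U]
    have h3 : ∏ x ∈ ((Finset.univ.erase i0).erase i1 : Finset (Fin (j + 1))),
        ew m G U (ce s x) ≤ 1 :=
      Finset.prod_le_one (fun x _ => ew_nonneg hm0.le _ _ _) fun x _ => ew_le_one hm _ _ _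
    have h4 : m⁻¹ * (m⁻¹ * ∏ x ∈ ((Finset.univ.erase i0).erase i1 : Finset (Fin (j + 1))),
        ew m G U (ce s x)) ≤ m⁻¹ * (m⁻¹ * 1) := by
      apply mul_le_mul_of_nonneg_left _ hmi
      exact mul_le_mul_of_nonneg_left h3 hmi
    calc _ ≤ m⁻¹ * (m⁻¹ * 1) := h4
      _ = (m⁻¹) ^ 2 := by ring
  linarith

end Classify

end Pool.Agent.H28R3
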