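import Pool.Agent.H28R3.Step

set_option autoImplicit false

namespace Pool.Agent.H28R3

open Finset

section StepBound

variable {E : Type*} [DecidableEq E] {I : Type*} [Fintype I]

/-- The potential of a position. -/
noncomputable def Phi (m : ℝ) (a : I → ℝ) (S : I → Finset E) (G U : Finset E) : ℝ :=
  ∑ i, a i * wt m G U (S i)

noncomputable def W1 (m : ℝ) (a : I → ℝ) (S : I → Finset E) (G U : Finset E) (e : E) : ℝ :=
  ∑ i, a i * wt m G U (S i) * ind (S i) e

noncomputable def W2 (m : ℝ) (a : I → ℝ) (S : I → Finset E) (G U : Finset E) (e f : E) : ℝ :=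
  ∑ i, |a i| * wt m G U (S i) * (ind (S i) e * ind (S i) f)

lemma W2_nonneg {m : ℝ} (hm : 0 ≤ m) (a : I → ℝ) (S : I → Finset E) (G U : Finset E) (e f : E) :
    0 ≤ W2 m a S G U e f :=
  Finset.sum_nonneg fun i _ => mul_nonneg (mul_nonneg (abs_nonneg _) (wt_nonneg hm _ _ _))
    (mul_nonneg (ind_nonneg _ _) (ind_nonneg _ _))

lemma W2_comm {m : ℝ} (a : I → ℝ) (S : I → Finset E) (G U : Finset E) (e f : E) :
    W2 m a S G U e f = W2 m a S G U f e := by
  unfold W2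
  refine Finset.sum_congr rfl fun i _ => ?_
  ring

theorem step_bound {m : ℕ} (hm : 0 < m) (a : I → ℝ) (S : I → Finset E) {G U F : Finset E}
    (hGU : Disjoint G U) (hFU : F ⊆ U) (hcard : F.card = m) {e : E} (he : e ∈ F) {η ρ : ℝ}
    (h1 : ∀ f ∈ F, |W1 m a S G U e - W1 m a S G U f| ≤ η)
    (h2 : ∀ f ∈ F, ∑ g ∈ F.erase f, W2 m a S G U f g ≤ ρ) :
    Phi m a S G U - m * η - 2 * m * ρ ≤ Phi m a S (insert e G) (U \ F) := by
  have hm0 : (0 : ℝ) ≤ m := by exact_mod_cast hm.le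
  have key : ∑ i, (a i * wt m G U (S i)
      + a i * wt m G U (S i) * (m * ind (S i) e - ∑ f ∈ F, ind (S i) f)
      - |a i| * wt m G U (S i) * (∑ f ∈ F, ∑ g ∈ F.erase f, ind (S i) f * ind (S i) g)
      - |a i| * wt m G U (S i) * (m * ∑ g ∈ F.erase e, ind (S i) e * ind (S i) g))
      ≤ Phi m a S (insert e G) (U \ F) :=
    Finset.sum_le_sum fun i _ => pointwise hm hGU hFU he (a i)
  rw [Finset.sum_sub_distrib, Finset.sum_sub_distrib, Finset.sum_add_distrib] at key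
  have e1 : ∑ i, a i * wt m G U (S i) * (m * ind (S i) e - ∑ f ∈ F, ind (S i) f)
      = ∑ f ∈ F, (W1 m a S G U e - W1 m a S G U f) := by
    rw [Finset.sum_sub_distrib, Finset.sum_const, hcard, nsmul_eq_mul]
    unfold W1
    rw [Finset.sum_comm, Finset.mul_sum, ← Finset.sum_sub_distrib]
    refine Finset.sum_congr rfl fun i _ => ?_
    rw [← Finset.mul_sum]
    ring
  have e2 : ∑ i, |a i| * wt m G U (S i) * (∑ f ∈ F, ∑ g ∈ F.erase f, ind (S i) f * ind (S i) g)
      = ∑ f ∈ F, ∑ g ∈ F.erase f, W2 m a S G U f g := by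
    unfold W2
    simp only [Finset.mul_sum]
    rw [Finset.sum_comm]
    refine Finset.sum_congr rfl fun f _ => ?_
    rw [Finset.sum_comm]
  have e3 : ∑ i, |a i| * wt m G U (S i) * (m * ∑ g ∈ F.erase e, ind (S i) e * ind (S i) g)
      = m * ∑ g ∈ F.erase e, W2 m a S G U e g := by
    unfold W2
    simp only [Finset.mul_sum]
    rw [Finset.sum_comm]
    refine Finset.sum_congr rfl fun g _ => Finset.sum_congr rfl fun i _ => ?_
    ring
  rw [e1, e2, e3] at key
  have b1 : -(m * η) ≤ ∑ f ∈ F, (W1 m a S G U e - W1 m a S G U f) := by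
    have : ∑ f ∈ F, (-η) ≤ ∑ f ∈ F, (W1 m a S G U e - W1 m a S G U f) :=
      Finset.sum_le_sum fun f hf => (abs_le.mp (h1 f hf)).1
    rw [Finset.sum_const, hcard, nsmul_eq_mul] at this
    linarith
  have b2 : ∑ f ∈ F, ∑ g ∈ F.erase f, W2 m a S G U f g ≤ m * ρ := by
    have : ∑ f ∈ F, ∑ g ∈ F.erase f, W2 m a S G U f g ≤ ∑ f ∈ F, ρ :=
      Finset.sum_le_sum fun f hf => h2 f hf
    rw [Finset.sum_const, hcard, nsmul_eq_mul] at this
    exact this
  have b3 : m * ∑ g ∈ F.erase e, W2 m a S G U e g ≤ m * ρ :=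
    mul_le_mul_of_nonneg_left (h2 e he) hm0
  have b0 : Phi m a S G U = ∑ i, a i * wt m G U (S i) := rfl
  rw [b0]
  linarith

end StepBound

section Select

variable {E : Type*} [DecidableEq E]

/-- pigeonhole part -/
lemma exists_cell (S : Finset E) (w1 : E → ℝ) {B : ℝ} (hB : 0 < B) {k M : ℕ} (hk : 0 < k)
    (hw1 : ∀ f ∈ S, |w1 f| ≤ B) (hcard : (k + 1) * M ≤ S.card) :
    ∃ S' ⊆ S, M ≤ S'.card ∧ ∀ e ∈ S', ∀ f ∈ S', |w1 e - w1 f| ≤ 2 * B / k := by
  classical
  have hk' : (0 : ℝ) < k := by exact_mod_cast hk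
  set c : E → ℕ := fun f => ⌊(w1 f + B) * k / (2 * B)⌋₊ with hc
  have hmaps : ∀ f ∈ S, c f ∈ Finset.range (k + 1) := by
    intro f hf
    rw [Finset.mem_range, Nat.lt_succ_iff]
    have h := abs_le.mp (hw1 f hf)
    have : (w1 f + B) * k / (2 * B) ≤ k := by
      rw [div_le_iff₀ (by positivity)]
      nlinarith
    exact_mod_cast Nat.floor_le_of_le this
  obtain ⟨y, -, hy⟩ := Finset.exists_le_card_fiber_of_mul_le_card_of_maps_to hmaps
    ⟨0, by simp⟩ (by simpa using hcard)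
  refine ⟨S.filter (fun f => c f = y), Finset.filter_subset _ _, hy, ?_⟩
  intro e he f hf
  rw [Finset.mem_filter] at he hf
  have he1 := abs_le.mp (hw1 e he.1)
  have hf1 := abs_le.mp (hw1 f hf.1)
  have pe : 0 ≤ (w1 e + B) * k / (2 * B) := by
    apply div_nonneg (mul_nonneg (by linarith) hk'.le) (by linarith)
  have pf : 0 ≤ (w1 f + B) * k / (2 * B) := by
    apply div_nonneg (mul_nonneg (by linarith) hk'.le) (by linarith)
  have e1 := Nat.floor_le pe
  have e2 := Nat.lt_floor_add_one ((w1 e + B) * k / (2 * B))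
  have f1 := Nat.floor_le pf
  have f2 := Nat.lt_floor_add_one ((w1 f + B) * k / (2 * B))
  have ce : (⌊(w1 e + B) * k / (2 * B)⌋₊ : ℝ) = y := by exact_mod_cast he.2
  have cf : (⌊(w1 f + B) * k / (2 * B)⌋₊ : ℝ) = y := by exact_mod_cast hf.2
  rw [ce] at e1 e2
  rw [cf] at f1 f2
  have hdiff : |(w1 e + B) * k / (2 * B) - (w1 f + B) * k / (2 * B)| ≤ 1 := by
    rw [abs_le]; constructor <;> linarith
  have hrew : (w1 e + B) * k / (2 * B) - (w1 f + B) * k / (2 * B)
      = (w1 e - w1 f) * (k / (2 * B)) := by ring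
  rw [hrew, abs_mul, abs_of_pos (by positivity : (0 : ℝ) < k / (2 * B))] at hdiff
  rw [le_div_iff₀ hk']
  have : |w1 e - w1 f| * (k / (2 * B)) * (2 * B) ≤ 1 * (2 * B) :=
    mul_le_mul_of_nonneg_right hdiff (by positivity)
  have hB2 : (2 * B) ≠ 0 := by positivity
  rw [mul_assoc, div_mul_cancel₀ _ hB2] at this
  linarith

/-- minimal choice part -/
lemma exists_spread (S : Finset E) (w2 : E → E → ℝ) {C : ℝ} {m M : ℕ}
    (hnn : ∀ f g, 0 ≤ w2 f g) (hsymm : ∀ f g, w2 f g = w2 g f)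
    (hw2 : ∀ f ∈ S, ∑ g ∈ S, w2 f g ≤ C) (hcard : M ≤ S.card) (hM : m < M) :
    ∃ F ⊆ S, F.card = m ∧ ∀ f ∈ F, ∑ g ∈ F.erase f, w2 f g ≤ m * C / (M - m) := by
  classical
  set T : Finset E → ℝ := fun F => ∑ f ∈ F, ∑ g ∈ F.erase f, w2 f g with hT
  have hne : (S.powersetCard m).Nonempty := by
    rw [Finset.powersetCard_nonempty]
    omega
  obtain ⟨F, hF, hmin⟩ := Finset.exists_min_image (S.powersetCard m) T hne
  rw [Finset.mem_powersetCard] at hF
  obtain ⟨hFS, hFc⟩ := hF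
  refine ⟨F, hFS, hFc, ?_⟩
  intro f hf
  -- formula for T (insert x F0)
  have hins : ∀ (F0 : Finset E) (x : E), x ∉ F0 →
      T (insert x F0) = T F0 + 2 * ∑ h ∈ F0, w2 x h := by
    intro F0 x hx
    simp only [hT]
    rw [Finset.sum_insert hx, Finset.erase_insert hx]
    have : ∀ y ∈ F0, ∑ g ∈ (insert x F0).erase y, w2 y g
        = w2 x y + ∑ g ∈ F0.erase y, w2 y g := by
      intro y hy
      have hxy : x ≠ y := fun h => hx (h ▸ hy)
      rw [Finset.erase_insert_of_ne hxy, Finset.sum_insert, hsymm y x]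
      intro h
      exact hx (Finset.mem_of_mem_erase h)
    rw [Finset.sum_congr rfl this, Finset.sum_add_distrib]
    ring
  have hswap : ∀ g ∈ S \ F, ∑ h ∈ F.erase f, w2 f h ≤ ∑ h ∈ F.erase f, w2 g h := by
    intro g hg
    rw [Finset.mem_sdiff] at hg
    have hgn : g ∉ F.erase f := fun h => hg.2 (Finset.mem_of_mem_erase h)
    have hmem : insert g (F.erase f) ∈ S.powersetCard m := by
      rw [Finset.mem_powersetCard]
      refine ⟨?_, ?_⟩
      · intro x hx
        rw [Finset.mem_insert] at hx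
        rcases hx with rfl | hx
        · exact hg.1
        · exact hFS (Finset.mem_of_mem_erase hx)
      · rw [Finset.card_insert_of_notMem hgn, Finset.card_erase_of_mem hf, hFc]
        have : 0 < F.card := Finset.card_pos.mpr ⟨f, hf⟩
        omega
    have h1 := hmin _ hmem
    have h2 : T F = T (insert f (F.erase f)) := by rw [Finset.insert_erase hf]
    rw [h2, hins _ f (Finset.notMem_erase f F), hins _ g hgn] at h1
    linarith
  have hsum : ((S \ F).card : ℝ) * ∑ h ∈ F.erase f, w2 f h ≤ m * C := by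
    have h1 : ∑ g ∈ S \ F, ∑ h ∈ F.erase f, w2 f h
        ≤ ∑ g ∈ S \ F, ∑ h ∈ F.erase f, w2 g h := Finset.sum_le_sum hswap
    rw [Finset.sum_const, nsmul_eq_mul, Finset.sum_comm] at h1
    refine h1.trans ?_
    have h2 : ∀ h ∈ F.erase f, ∑ g ∈ S \ F, w2 g h ≤ C := by
      intro h hh
      have hhS : h ∈ S := hFS (Finset.mem_of_mem_erase hh)
      calc ∑ g ∈ S \ F, w2 g h = ∑ g ∈ S \ F, w2 h g :=
            Finset.sum_congr rfl fun g _ => hsymm g h
        _ ≤ ∑ g ∈ S, w2 h g := Finset.sum_le_sum_of_subset_of_nonneg Finset.sdiff_subset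
            fun g _ _ => hnn h g
        _ ≤ C := hw2 h hhS
    have hC : 0 ≤ C := le_trans (Finset.sum_nonneg fun g _ => hnn f g) (hw2 f (hFS hf))
    calc ∑ h ∈ F.erase f, ∑ g ∈ S \ F, w2 g h ≤ ∑ h ∈ F.erase f, C := Finset.sum_le_sum h2
      _ = ((F.erase f).card : ℝ) * C := by rw [Finset.sum_const, nsmul_eq_mul]
      _ ≤ m * C := by
        apply mul_le_mul_of_nonneg_right _ hC
        rw [← hFc]
        exact_mod_cast Finset.card_le_card (Finset.erase_subset f F)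
  have hcardSF : ((S \ F).card : ℝ) = S.card - m := by
    rw [Finset.card_sdiff_of_subset hFS, hFc, Nat.cast_sub (by omega)]
  have hpos : (0 : ℝ) < M - m := by
    have : (m : ℝ) < M := by exact_mod_cast hM
    linarith
  rw [le_div_iff₀ hpos]
  have hnn' : 0 ≤ ∑ h ∈ F.erase f, w2 f h := Finset.sum_nonneg fun g _ => hnn f g
  have hMS : (M : ℝ) ≤ S.card := by exact_mod_cast hcard
  rw [hcardSF] at hsum
  nlinarith

theorem select (S : Finset E) (w1 : E → ℝ) (w2 : E → E → ℝ) {B C : ℝ} (hB : 0 < B)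
    {k m M : ℕ} (hk : 0 < k) (hw1 : ∀ f ∈ S, |w1 f| ≤ B)
    (hnn : ∀ f g, 0 ≤ w2 f g) (hsymm : ∀ f g, w2 f g = w2 g f)
    (hw2 : ∀ f ∈ S, ∑ g ∈ S, w2 f g ≤ C) (hcard : (k + 1) * M ≤ S.card) (hM : m < M) :
    ∃ F ⊆ S, F.card = m ∧ (∀ e ∈ F, ∀ f ∈ F, |w1 e - w1 f| ≤ 2 * B / k) ∧
      ∀ f ∈ F, ∑ g ∈ F.erase f, w2 f g ≤ m * C / (M - m) := by
  obtain ⟨S', hS', hM', hcell⟩ := exists_cell S w1 hB hk hw1 hcard
  have hw2' : ∀ f ∈ S', ∑ g ∈ S', w2 f g ≤ C := fun f hf =>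
    (Finset.sum_le_sum_of_subset_of_nonneg hS' fun g _ _ => hnn f g).trans (hw2 f (hS' hf))
  obtain ⟨F, hF, hFc, hF2⟩ := exists_spread S' w2 hnn hsymm hw2' hM' hM
  exact ⟨F, hF.trans hS', hFc, fun e he f hf => hcell e (hF he) f (hF hf), hF2⟩

end Select

end Pool.Agent.H28R3
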