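import Mathlib

set_option autoImplicit false

namespace Pool.Agent.H28R3

open Finset

section Step

variable {E : Type*} [DecidableEq E]

/-- The weight of an edge: `1` if it is owned by Client (in `G`), `1/m` if it is unclaimed
(in `U`), and `0` otherwise. -/
noncomputable def ew (m : ℝ) (G U : Finset E) (e : E) : ℝ :=
  if e ∈ G then 1 else if e ∈ U then m⁻¹ else 0

/-- The weight of a set of edges. -/
noncomputable def wt (m : ℝ) (G U S : Finset E) : ℝ := ∏ e ∈ S, ew m G U e

lemma ew_nonneg {m : ℝ} (hm : 0 ≤ m) (G U : Finset E) (e : E) : 0 ≤ ew m G U e := by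
  unfold ew
  split_ifs
  · exact zero_le_one
  · exact inv_nonneg.mpr hm
  · exact le_refl _

lemma wt_nonneg {m : ℝ} (hm : 0 ≤ m) (G U S : Finset E) : 0 ≤ wt m G U S :=
  Finset.prod_nonneg fun e _ => ew_nonneg hm G U e

lemma ew_le_one {m : ℝ} (hm : 1 ≤ m) (G U : Finset E) (e : E) : ew m G U e ≤ 1 := by
  unfold ew
  split_ifs
  · exact le_refl _
  · exact inv_le_one_of_one_le₀ hm
  · exact zero_le_one

lemma ew_step_ne {m : ℝ} {G U F : Finset E} {e f : E} (hf : f ∉ F) (he : e ∈ F) :
    ew m (insert e G) (U \ F) f = ew m G U f := by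
  have hne : f ≠ e := fun h => hf (h ▸ he)
  simp [ew, hne, hf]

lemma ew_step_self {m : ℝ} {G U F : Finset E} {e : E} :
    ew m (insert e G) (U \ F) e = 1 := by
  simp [ew]

lemma ew_old {m : ℝ} {G U : Finset E} (hGU : Disjoint G U) {e : E} (he : e ∈ U) :
    ew m G U e = m⁻¹ := by
  have : e ∉ G := fun h => (Finset.disjoint_left.mp hGU h) he
  simp [ew, he, this]

lemma ew_step_other {m : ℝ} {G U F : Finset E} (hGU : Disjoint G U) {e f : E} (hFU : F ⊆ U)
    (hf : f ∈ F) (hne : f ≠ e) :
    ew m (insert e G) (U \ F) f = 0 := by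
  have h1 : f ∉ G := fun h => (Finset.disjoint_left.mp hGU h) (hFU hf)
  simp [ew, hne, h1, hf]

lemma wt_step_none {m : ℝ} {G U F S : Finset E} {e : E} (he : e ∈ F) (hS : S ∩ F = ∅) :
    wt m (insert e G) (U \ F) S = wt m G U S := by
  apply Finset.prod_congr rfl
  intro f hf
  apply ew_step_ne _ he
  intro hfF
  have : f ∈ S ∩ F := Finset.mem_inter.mpr ⟨hf, hfF⟩
  rw [hS] at this
  simp at this

lemma wt_step_one {m : ℝ} (hm : m ≠ 0) {G U F S : Finset E} (hGU : Disjoint G U) (hFU : F ⊆ U)
    {e : E} (he : e ∈ F) (hS : S ∩ F = {e}) :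
    wt m (insert e G) (U \ F) S = m * wt m G U S := by
  have heS : e ∈ S := by
    have : e ∈ S ∩ F := by rw [hS]; simp
    exact (Finset.mem_inter.mp this).1
  unfold wt
  rw [← Finset.mul_prod_erase S _ heS, ← Finset.mul_prod_erase S (ew m G U) heS,
    ew_step_self, ew_old hGU (hFU he)]
  rw [← mul_assoc, mul_inv_cancel₀ hm]
  congr 1
  apply Finset.prod_congr rfl
  intro f hf
  apply ew_step_ne _ he
  intro hfF
  have h2 := Finset.mem_erase.mp hf
  have : f ∈ S ∩ F := Finset.mem_inter.mpr ⟨h2.2, hfF⟩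
  rw [hS] at this
  exact h2.1 (Finset.mem_singleton.mp this)

lemma wt_step_two {m : ℝ} {G U F S : Finset E} (hGU : Disjoint G U) (hFU : F ⊆ U)
    {e f : E} (hfS : f ∈ S) (hfF : f ∈ F) (hne : f ≠ e) :
    wt m (insert e G) (U \ F) S = 0 :=
  Finset.prod_eq_zero hfS (ew_step_other hGU hFU hfF hne)

/-- indicator -/
noncomputable def ind (S : Finset E) (e : E) : ℝ := if e ∈ S then 1 else 0

lemma ind_nonneg (S : Finset E) (e : E) : 0 ≤ ind S e := by
  unfold ind; split_ifs <;> norm_num

/-- Pointwise lower bound for the change of the weight of one set during a round. -/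
lemma pointwise {m : ℕ} (hm : 0 < m) {G U F S : Finset E} (hGU : Disjoint G U) (hFU : F ⊆ U)
    {e : E} (he : e ∈ F) (a : ℝ) :
    a * wt m G U S + a * wt m G U S * (m * ind S e - ∑ f ∈ F, ind S f)
      - |a| * wt m G U S * (∑ f ∈ F, ∑ g ∈ F.erase f, ind S f * ind S g)
      - |a| * wt m G U S * (m * ∑ g ∈ F.erase e, ind S e * ind S g)
      ≤ a * wt m (insert e G) (U \ F) S := by
  have hm' : (m : ℝ) ≠ 0 := by exact_mod_cast hm.ne'
  have hm0 : (0 : ℝ) ≤ m := by exact_mod_cast hm.le
  have hw := wt_nonneg hm0 G U S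
  have hdouble : 0 ≤ ∑ f ∈ F, ∑ g ∈ F.erase f, ind S f * ind S g :=
    Finset.sum_nonneg fun f _ => Finset.sum_nonneg fun g _ =>
      mul_nonneg (ind_nonneg S f) (ind_nonneg S g)
  have hsing : 0 ≤ (m : ℝ) * ∑ g ∈ F.erase e, ind S e * ind S g :=
    mul_nonneg hm0 (Finset.sum_nonneg fun g _ => mul_nonneg (ind_nonneg S e) (ind_nonneg S g))
  have hcount : ∑ f ∈ F, ind S f = ((S ∩ F).card : ℝ) := by
    unfold ind
    rw [Finset.sum_ite_mem, Finset.inter_comm]
    simp
  by_cases h0 : S ∩ F = ∅
  · have heS : e ∉ S := by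
      intro h
      have : e ∈ S ∩ F := Finset.mem_inter.mpr ⟨h, he⟩
      rw [h0] at this; simp at this
    rw [wt_step_none he h0, hcount, h0]
    have hie : ind S e = 0 := by simp [ind, heS]
    rw [hie]
    have := mul_nonneg (mul_nonneg (abs_nonneg a) hw) hdouble
    simp only [zero_mul, Finset.sum_const_zero, mul_zero, Finset.card_empty, Nat.cast_zero,
      sub_zero, add_zero]
    linarith
  by_cases h1 : S ∩ F = {e}
  · rw [wt_step_one hm' hGU hFU he h1, hcount, h1]
    have heS : e ∈ S := by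
      have : e ∈ S ∩ F := by rw [h1]; simp
      exact (Finset.mem_inter.mp this).1
    have hie : ind S e = 1 := by simp [ind, heS]
    have t1 := mul_nonneg (mul_nonneg (abs_nonneg a) hw) hdouble
    have t2 := mul_nonneg (mul_nonneg (abs_nonneg a) hw) hsing
    rw [hie] at *
    simp only [Finset.card_singleton, Nat.cast_one]
    nlinarith
  -- some `f ≠ e` in `S ∩ F`
  obtain ⟨f, hf, hne⟩ : ∃ f ∈ S ∩ F, f ≠ e := by
    by_contra hcon
    push Not at hcon
    obtain ⟨x, hx⟩ := Finset.nonempty_iff_ne_empty.mpr h0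
    apply h1
    ext y
    constructor
    · intro hy; rw [hcon y hy]; simp
    · intro hy
      rw [Finset.mem_singleton.mp hy, ← hcon x hx]; exact hx
  have hfS := (Finset.mem_inter.mp hf).1
  have hfF := (Finset.mem_inter.mp hf).2
  rw [wt_step_two hGU hFU hfS hfF hne, mul_zero]
  by_cases h2 : (S ∩ F).card = 1
  · -- then `S ∩ F = {f}`
    have h3 : S ∩ F = {f} := by
      obtain ⟨y, hy⟩ := Finset.card_eq_one.mp h2
      rw [hy] at hf ⊢
      rw [Finset.mem_singleton.mp hf]
    have heS : e ∉ S := by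
      intro h
      have : e ∈ S ∩ F := Finset.mem_inter.mpr ⟨h, he⟩
      rw [h3] at this
      exact hne (Finset.mem_singleton.mp this).symm
    have hie : ind S e = 0 := by simp [ind, heS]
    rw [hcount, h2, hie]
    have t1 := mul_nonneg (mul_nonneg (abs_nonneg a) hw) hdouble
    simp only [zero_mul, Finset.sum_const_zero, mul_zero, Nat.cast_one]
    nlinarith
  · -- at least two elements
    have hc2 : 2 ≤ (S ∩ F).card := by
      have : 0 < (S ∩ F).card := Finset.card_pos.mpr ⟨f, hf⟩
      omega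
    have hd : ((S ∩ F).card : ℝ) ≤ ∑ f ∈ F, ∑ g ∈ F.erase f, ind S f * ind S g := by
      rw [← hcount]
      apply Finset.sum_le_sum
      intro x hx
      by_cases hxS : x ∈ S
      · have hix : ind S x = 1 := by simp [ind, hxS]
        obtain ⟨y, hy, hyx⟩ : ∃ y ∈ S ∩ F, y ≠ x := by
          apply Finset.exists_mem_ne
          omega
        have hyS := (Finset.mem_inter.mp hy).1
        have hyF := (Finset.mem_inter.mp hy).2
        have hiy : ind S y = 1 := by simp [ind, hyS]
        rw [hix]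
        have : ind S x * ind S y ≤ ∑ g ∈ F.erase x, ind S x * ind S g :=
          Finset.single_le_sum (f := fun g => ind S x * ind S g)
            (fun g _ => mul_nonneg (ind_nonneg S x) (ind_nonneg S g))
            (Finset.mem_erase.mpr ⟨hyx, hyF⟩)
        rw [hix, hiy] at this
        simpa using this
      · have hix : ind S x = 0 := by simp [ind, hxS]
        rw [hix]; simp
    have hs : (m : ℝ) * ind S e ≤ m * ∑ g ∈ F.erase e, ind S e * ind S g := by
      apply mul_le_mul_of_nonneg_left _ hm0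
      by_cases heS : e ∈ S
      · have hie : ind S e = 1 := by simp [ind, heS]
        have hif : ind S f = 1 := by simp [ind, hfS]
        have : ind S e * ind S f ≤ ∑ g ∈ F.erase e, ind S e * ind S g :=
          Finset.single_le_sum (f := fun g => ind S e * ind S g)
            (fun g _ => mul_nonneg (ind_nonneg S e) (ind_nonneg S g))
            (Finset.mem_erase.mpr ⟨hne, hfF⟩)
        rw [hie, hif] at this
        rw [hie]; simpa using this
      · have hie : ind S e = 0 := by simp [ind, heS]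
        rw [hie]; simp
    set X := ∑ f ∈ F, ∑ g ∈ F.erase f, ind S f * ind S g with hX
    set Y := (m : ℝ) * ∑ g ∈ F.erase e, ind S e * ind S g with hY
    rw [hcount]
    set c := ((S ∩ F).card : ℝ) with hc
    have hc2' : (2 : ℝ) ≤ c := by rw [hc]; exact_mod_cast hc2
    set w := wt m G U S with hwdef
    have hme : 0 ≤ (m : ℝ) * ind S e := mul_nonneg hm0 (ind_nonneg S e)
    set z := (m : ℝ) * ind S e with hz
    -- goal: a*w + a*w*(z - c) - |a|*w*X - |a|*w*Y ≤ 0
    have ha1 : a ≤ |a| := le_abs_self a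
    have ha2 : -|a| ≤ a := neg_abs_le a
    have haw : 0 ≤ |a| * w := mul_nonneg (abs_nonneg a) hw
    have k1 : |a| * w * c ≤ |a| * w * X := mul_le_mul_of_nonneg_left hd haw
    have k2 : |a| * w * z ≤ |a| * w * Y := mul_le_mul_of_nonneg_left hs haw
    have k3 : a * w * z ≤ |a| * w * z := by
      apply mul_le_mul_of_nonneg_right _ hme
      exact mul_le_mul_of_nonneg_right ha1 hw
    have k4 : a * w * (1 - c) ≤ |a| * w * (c - 1) := by
      have h5 : -(a * w) ≤ |a| * w := by nlinarith
      nlinarith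
    nlinarith

end Step

end Pool.Agent.H28R3
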