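import Pool.Agent.H28R3.Pot

set_option autoImplicit false

namespace Pool.Agent.H28R3

open Finset

variable {n : ℕ} {D k : ℕ} {G U : Finset (Sym2 (Fin n))} {m : ℝ}

lemma cyc_rot {j : ℕ} (s : Fin (j + 1) → Fin n) (c : Fin (j + 1)) :
    cyc (fun x => s (x + c)) = cyc s := by
  ext e
  unfold cyc
  simp only [Finset.mem_image, Finset.mem_univ, true_and]
  constructor
  · rintro ⟨i, rfl⟩
    exact ⟨i + c, (ce_rot s c i).symm⟩
  · rintro ⟨i, rfl⟩
    refine ⟨i - c, ?_⟩
    rw [ce_rot, sub_add_cancel]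

lemma pS_rot {j : ℕ} (s : Fin (j + 1) → Fin n) (c : Fin (j + 1)) :
    pS m G U (fun x => s (x + c)) = pS m G U s := by
  unfold pS
  rw [cyc_rot]

lemma aT_rot {j : ℕ} (s : Fin (j + 1) → Fin n) (c i : Fin (j + 1)) :
    aT m G U (fun x => s (x + c)) i = aT m G U s (i + c) := by
  unfold aT
  have h : (∀ i', i' ≠ i → ce (fun x => s (x + c)) i' ∈ G) ↔ ∀ i', i' ≠ i + c → ce s i' ∈ G := by
    constructor
    · intro h i' hi'
      have := h (i' - c) (by
        intro h2
        apply hi'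
        rw [← h2, sub_add_cancel])
      rw [ce_rot, sub_add_cancel] at this
      exact this
    · intro h i' hi'
      rw [ce_rot]
      apply h
      intro h2
      exact hi' (add_right_cancel h2)
  rw [ce_rot]
  simp only [h]

lemma cT_rot {j : ℕ} (s : Fin (j + 1) → Fin n) (c i : Fin (j + 1)) :
    cT D k m G U (fun x => s (x + c)) i = cT D k m G U s (i + c) := by
  unfold cT
  rw [ce_rot, pS_rot]

/-- Bound for the total weight. -/
lemma total_le (hG : Good D k G U) (hm : 1 ≤ m) (hnm : (n : ℝ) ≤ m) {j : ℕ} (hj : 2 ≤ j)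
    (hjk : j + 1 ≤ k) :
    ∑ s : Fin (j + 1) ↪ Fin n, pS m G U s
      ≤ ((j + 1 : ℕ) : ℝ) * ((D : ℝ) + 1) ^ j := by
  classical
  have hm0 : 0 < m := by linarith
  set g : (Fin (j + 1) → Fin n) → Fin (j + 1) → ℝ := fun s i =>
    if ce s i ∈ U then pS m G U s else 0 with hg
  have hrot : ∀ (s : Fin (j + 1) → Fin n) (c i : Fin (j + 1)),
      g (fun x => s (x + c)) i = g s (i + c) := by
    intro s c i
    simp only [hg]
    rw [ce_rot, pS_rot]
  have hgnn : ∀ s i, 0 ≤ g s i := by
    intro s i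
    simp only [hg]
    split_ifs
    · exact pS_nonneg hm0.le _ _ _
    · exact le_refl _
  have h1 : ∑ s : Fin (j + 1) ↪ Fin n, pS m G U s ≤ ∑ s : Fin (j + 1) ↪ Fin n, ∑ i, g s i := by
    refine Finset.sum_le_sum fun s _ => ?_
    by_cases h0 : pS m G U s = 0
    · rw [h0]; exact Finset.sum_nonneg fun i _ => hgnn s i
    · obtain ⟨i, hi⟩ := exists_unclaimed hG hj hjk s.injective h0
      refine le_trans ?_ (Finset.single_le_sum (f := fun i => g s i) (fun i _ => hgnn s i)
        (Finset.mem_univ i))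
      simp only [hg]
      rw [if_pos hi]
  refine h1.trans ?_
  rw [rot_sum g hrot]
  apply mul_le_mul_of_nonneg_left _ (by positivity)
  have h2 : ∑ s : Fin (j + 1) ↪ Fin n, g s (Fin.last j)
      ≤ ∑ s : Fin (j + 1) ↪ Fin n, m⁻¹ * pathProd (Ym m G U) s := by
    refine Finset.sum_le_sum fun s _ => ?_
    simp only [hg]
    split_ifs with hU
    · unfold pS
      rw [wt_cyc' hj s.injective, ← ce_last, ew_old hG.disj hU, mul_comm]
    · exact mul_nonneg (inv_nonneg.mpr hm0.le) (pathProd_nonneg (Ym_nonneg hm0.le) _)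
  refine h2.trans ?_
  refine (sum_emb_le (fun s => m⁻¹ * pathProd (Ym m G U) s) fun s =>
    mul_nonneg (inv_nonneg.mpr hm0.le) (pathProd_nonneg (Ym_nonneg hm0.le) _)).trans ?_
  rw [← Finset.mul_sum]
  have hD : (0 : ℝ) ≤ (D : ℝ) + 1 := by positivity
  have h3 := pathSum_le (Ym m G U) (Ym_nonneg hm0.le) hD (Ym_row hm0 hnm hG.deg) j
  rw [Fintype.card_fin] at h3
  calc m⁻¹ * ∑ s : Fin (j + 1) → Fin n, pathProd (Ym m G U) s
      ≤ m⁻¹ * (n * ((D : ℝ) + 1) ^ j) :=
        mul_le_mul_of_nonneg_left h3 (inv_nonneg.mpr hm0.le)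
    _ = (n * m⁻¹) * ((D : ℝ) + 1) ^ j := by ring
    _ ≤ 1 * ((D : ℝ) + 1) ^ j := by
        apply mul_le_mul_of_nonneg_right _ (by positivity)
        rw [mul_inv_le_iff₀ hm0]; linarith
    _ = _ := one_mul _

/-- Bound for the `c`-part. -/
lemma cpart_le (hG : Good D k G U) (hm : 1 ≤ m) (hnm : (n : ℝ) ≤ m) {j : ℕ} (hj : 2 ≤ j)
    (hjk : j + 1 ≤ k) :
    ∑ s : Fin (j + 1) ↪ Fin n, ∑ i, cT D k m G U s i
      ≤ ((j + 1 : ℕ) : ℝ) * (2 * (Off D k G U).card * (j * ((D : ℝ) + 1) ^ (j - 1)) * (m⁻¹) ^ 2) := by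
  classical
  have hm0 : 0 < m := by linarith
  have hmi : 0 ≤ m⁻¹ := inv_nonneg.mpr hm0.le
  rw [rot_sum (fun s i => cT D k m G U s i) cT_rot]
  apply mul_le_mul_of_nonneg_left _ (by positivity)
  have h2 : ∑ s : Fin (j + 1) ↪ Fin n, cT D k m G U s (Fin.last j)
      ≤ ∑ s : Fin (j + 1) ↪ Fin n, pathProd (Ym m G U) s *
        (fun u v => if s(v, u) ∈ Off D k G U then m⁻¹ else 0) (s 0) (s (Fin.last j)) := by
    refine Finset.sum_le_sum fun s _ => ?_
    unfold cT
    rw [ce_last]
    simp only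
    split_ifs with hU
    · unfold pS
      rw [wt_cyc' hj s.injective, ew_old hG.disj (mem_Off.mp hU).1]
    · rw [mul_zero]
  refine h2.trans ?_
  refine (sum_emb_le (fun s => pathProd (Ym m G U) s *
        (fun u v => if s(v, u) ∈ Off D k G U then m⁻¹ else 0) (s 0) (s (Fin.last j))) ?_).trans ?_
  · intro s
    apply mul_nonneg (pathProd_nonneg (Ym_nonneg hm0.le) _)
    simp only
    split_ifs
    · exact hmi
    · exact le_refl _
  refine (le_of_eq (sum_pathProd (Ym m G U) j
    (fun u v => if s(v, u) ∈ Off D k G U then m⁻¹ else 0))).trans ?_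
  have hD : (0 : ℝ) ≤ (D : ℝ) + 1 := by positivity
  have hcol : ∀ v, ∑ u, Am G u v ≤ (D : ℝ) + 1 := by
    intro v
    rw [Am_col]
    have : ((dg G v : ℕ) : ℝ) ≤ D := by exact_mod_cast hG.deg v
    linarith
  have hpow := pow_le_pow_add (Ym m G U) (Am G) (Ym_nonneg hm0.le) (Am_nonneg G) hD hmi
    (Ym_row hm0 hnm hG.deg) hcol (fun u v => Ym_le hm0.le u v) j
  have hterm : ∀ u v, (Ym m G U ^ j) u v * (if s(v, u) ∈ Off D k G U then m⁻¹ else 0)
      ≤ (if s(v, u) ∈ Off D k G U then (1 : ℝ) else 0)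
        * ((j * ((D : ℝ) + 1) ^ (j - 1)) * (m⁻¹) ^ 2) := by
    intro u v
    split_ifs with hU
    · have hoff := (mem_Off.mp hU).2
      have h0 : (Am G ^ j) u v = 0 := by
        by_contra hne
        exact (hoff v u rfl).2 (near_symm ⟨j, by omega, hne⟩)
      have h1 := hpow u v
      rw [h0, zero_add] at h1
      calc (Ym m G U ^ j) u v * m⁻¹ ≤ (j * ((D : ℝ) + 1) ^ (j - 1) * m⁻¹) * m⁻¹ :=
            mul_le_mul_of_nonneg_right h1 hmi
        _ = _ := by ring
    · rw [mul_zero, zero_mul]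
  calc ∑ u, ∑ v, (Ym m G U ^ j) u v * (if s(v, u) ∈ Off D k G U then m⁻¹ else 0)
      ≤ ∑ u, ∑ v, (if s(v, u) ∈ Off D k G U then (1 : ℝ) else 0)
        * ((j * ((D : ℝ) + 1) ^ (j - 1)) * (m⁻¹) ^ 2) :=
        Finset.sum_le_sum fun u _ => Finset.sum_le_sum fun v _ => hterm u v
    _ = (∑ u, ∑ v, (if s(v, u) ∈ Off D k G U then (1 : ℝ) else 0))
        * ((j * ((D : ℝ) + 1) ^ (j - 1)) * (m⁻¹) ^ 2) := by
        simp only [← Finset.sum_mul]
    _ ≤ (2 * (Off D k G U).card) * ((j * ((D : ℝ) + 1) ^ (j - 1)) * (m⁻¹) ^ 2) := by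
        apply mul_le_mul_of_nonneg_right _ (by positivity)
        have h5 : ∑ u, ∑ v, (if s(v, u) ∈ Off D k G U then (1 : ℝ) else 0)
            = ∑ p : Fin n × Fin n, (if s(p.2, p.1) ∈ Off D k G U then (1 : ℝ) else 0) := by
          rw [Fintype.sum_prod_type]
        rw [h5, Finset.sum_boole]
        have h6 : (Finset.univ.filter fun p : Fin n × Fin n => s(p.2, p.1) ∈ Off D k G U).card
            ≤ 2 * (Off D k G U).card := by
          have h7 := Finset.card_le_mul_card_image_of_maps_to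
            (s := Finset.univ.filter fun p : Fin n × Fin n => s(p.2, p.1) ∈ Off D k G U)
            (t := Off D k G U) (f := fun p => s(p.2, p.1)) (fun p hp => by
              rw [Finset.mem_filter] at hp; exact hp.2) 2 ?_
          · exact h7
          · intro e he
            induction e using Sym2.ind with
            | _ a b =>
            refine (Finset.card_le_card (t := {(b, a), (a, b)}) ?_).trans Finset.card_le_two
            intro p hp
            rw [Finset.mem_filter] at hp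
            have := hp.2
            rw [Sym2.eq_iff] at this
            rw [Finset.mem_insert, Finset.mem_singleton]
            rcases this with ⟨h8, h9⟩ | ⟨h8, h9⟩
            · left; exact Prod.ext h9 h8
            · right; exact Prod.ext h9 h8
        exact_mod_cast h6
    _ = _ := by ring

open Classical in
/-- Bound for the `d`-part. -/
lemma dpart_le (hG : Good D k G U) (hm : 0 < m) {j : ℕ} :
    ∑ s : Fin (j + 1) ↪ Fin n, dT k m G s
      ≤ (n * (((k : ℝ) + 1) * ((D : ℝ) + 1) ^ k) ^ j) * (m⁻¹) ^ 2 := by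
  set N : Matrix (Fin n) (Fin n) ℝ := Matrix.of fun u v => if Near G k u v then 1 else 0 with hN
  have hNnn : ∀ u v, 0 ≤ N u v := by
    intro u v
    have : N u v = if Near G k u v then 1 else 0 := rfl
    rw [this]; split_ifs <;> norm_num
  have h1 : ∑ s : Fin (j + 1) ↪ Fin n, dT k m G s
      ≤ ∑ s : Fin (j + 1) ↪ Fin n, pathProd N s * (m⁻¹) ^ 2 := by
    refine Finset.sum_le_sum fun s _ => ?_
    unfold dT
    split_ifs with h
    · have : pathProd N s = 1 := by
        unfold pathProd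
        apply Finset.prod_eq_one
        intro i _
        have e1 : N (s i.castSucc) (s i.succ)
            = if Near G k (s i.castSucc) (s i.succ) then 1 else 0 := rfl
        rw [e1, if_pos]
        have := h i.castSucc
        rwa [Fin.coeSucc_eq_succ] at this
      rw [this, one_mul]
    · exact mul_nonneg (pathProd_nonneg hNnn _) (by positivity)
  refine h1.trans ?_
  refine (sum_emb_le (fun s => pathProd N s * (m⁻¹) ^ 2)
    fun s => mul_nonneg (pathProd_nonneg hNnn _) (by positivity)).trans ?_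
  rw [← Finset.sum_mul]
  apply mul_le_mul_of_nonneg_right _ (by positivity)
  have h2 := pathSum_le N hNnn (R := ((k : ℝ) + 1) * ((D : ℝ) + 1) ^ k) (by positivity)
    (fun u => near_count hG.deg k u) j
  rwa [Fintype.card_fin] at h2

end Pool.Agent.H28R3
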