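import Pool.Agent.H28R3.Upper

set_option autoImplicit false

namespace Pool.Agent.H28R3

open Finset Filter Topology

/-- the function `artanh c - c` -/
noncomputable def fA (c : ℝ) : ℝ := (Real.log (1 + c) - Real.log (1 - c)) / 2 - c

lemma fA_hasDeriv {x : ℝ} (h0 : -1 < x) (h1 : x < 1) :
    HasDerivAt fA ((1 / (1 + x) + 1 / (1 - x)) / 2 - 1) x := by
  have a1 : HasDerivAt (fun c : ℝ => Real.log (1 + c)) (1 / (1 + x)) x :=
    ((hasDerivAt_id x).const_add 1).log (by simp only [id]; linarith)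
  have a2 : HasDerivAt (fun c : ℝ => Real.log (1 - c)) (-1 / (1 - x)) x :=
    ((hasDerivAt_id x).const_sub 1).log (by simp only [id]; linarith)
  have a3 := ((a1.sub a2).div_const 2).sub (hasDerivAt_id x)
  convert! a3 using 1
  ring

lemma fA_cont : ContinuousOn fA (Set.Ico 0 1) := fun x hx =>
  (fA_hasDeriv (by linarith [hx.1]) hx.2).continuousAt.continuousWithinAt

lemma fA_mono : StrictMonoOn fA (Set.Ico 0 1) := by
  apply strictMonoOn_of_deriv_pos (convex_Ico 0 1) fA_cont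
  intro x hx
  rw [interior_Ico] at hx
  rw [(fA_hasDeriv (by linarith [hx.1]) hx.2).deriv]
  have h1 : 0 < 1 + x := by linarith [hx.1]
  have h2 : 0 < 1 - x := by linarith [hx.2]
  have h3 : (1 / (1 + x) + 1 / (1 - x)) / 2 - 1 = x ^ 2 / ((1 + x) * (1 - x)) := by
    field_simp
    ring
  rw [h3]
  have := hx.1
  positivity

lemma log_399 : Real.log 399 < 5.99 := by
  rw [Real.log_lt_iff_lt_exp (by norm_num)]
  have h1 : Real.exp 5.99 = Real.exp 1 ^ 6 * Real.exp (-0.01) := by
    rw [← Real.exp_nat_mul, ← Real.exp_add]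
    norm_num
  have h2 := Real.exp_one_gt_d9
  have h3 : (1 : ℝ) - 0.01 ≤ Real.exp (-0.01) := by
    have := Real.add_one_le_exp (-0.01 : ℝ)
    linarith
  have h4 : (2.7182818283 : ℝ) ^ 6 ≤ Real.exp 1 ^ 6 := pow_le_pow_left₀ (by norm_num) h2.le 6
  rw [h1]
  calc (399 : ℝ) < 2.7182818283 ^ 6 * (1 - 0.01) := by norm_num
    _ ≤ Real.exp 1 ^ 6 * Real.exp (-0.01) := by
      apply mul_le_mul h4 h3 (by norm_num) (by positivity)

lemma log_401 : 5.9901 < Real.log 401 := by
  rw [Real.lt_log_iff_exp_lt (by norm_num)]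
  have h1 : Real.exp 5.9901 = Real.exp 1 ^ 6 * Real.exp (-0.0099) := by
    rw [← Real.exp_nat_mul, ← Real.exp_add]
    norm_num
  have h2 := Real.exp_one_lt_d9
  have h3 : Real.exp (-0.0099) ≤ 1 / 1.0099 := by
    rw [Real.exp_neg, ← one_div]
    apply one_div_le_one_div_of_le (by norm_num)
    have := Real.add_one_le_exp (0.0099 : ℝ)
    linarith
  have h4 : Real.exp 1 ^ 6 ≤ (2.7182818286 : ℝ) ^ 6 := pow_le_pow_left₀ (by positivity) h2.le 6
  rw [h1]
  calc Real.exp 1 ^ 6 * Real.exp (-0.0099) ≤ 2.7182818286 ^ 6 * (1 / 1.0099) := by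
        apply mul_le_mul h4 h3 (by positivity) (by positivity)
    _ < 401 := by norm_num

lemma fA_995 : fA 0.995 < 2 := by
  unfold fA
  rw [← Real.log_div (by norm_num) (by norm_num)]
  have : (1 + 0.995 : ℝ) / (1 - 0.995) = 399 := by norm_num
  rw [this]
  have := log_399
  linarith

lemma fA_99502 : 2 < fA (200 / 201) := by
  unfold fA
  rw [← Real.log_div (by norm_num) (by norm_num)]
  have h1 : (1 + 200 / 201 : ℝ) / (1 - 200 / 201) = 401 := by norm_num
  rw [h1]
  have := log_401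
  linarith

/-- The root. -/
lemma exists_root : ∃ c₀ : ℝ, 0.995 < c₀ ∧ c₀ < (200 / 201) ∧ fA c₀ = 2 := by
  have hcont : ContinuousOn fA (Set.Icc 0.995 (200 / 201)) :=
    fA_cont.mono (fun x hx => ⟨by linarith [hx.1], by linarith [hx.2]⟩)
  have hmem : (2 : ℝ) ∈ Set.Icc (fA 0.995) (fA (200 / 201)) := ⟨fA_995.le, fA_99502.le⟩
  obtain ⟨c, hc, hc2⟩ := intermediate_value_Icc (by norm_num) hcont hmem
  refine ⟨c, ?_, ?_, hc2⟩
  · rcases eq_or_lt_of_le hc.1 with h | h
    · exfalso; have := fA_995; rw [h, hc2] at this; linarith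
    · exact h
  · rcases eq_or_lt_of_le hc.2 with h | h
    · exfalso; have := fA_99502; rw [← h, hc2] at this; linarith
    · exact h

lemma three_le_of_odd {n : ℕ} {C : Finset (Sym2 (Fin n))} (h : HasOddCycle C) : 3 ≤ C.card := by
  obtain ⟨S, hS, hSC⟩ := seq_of_odd h
  refine le_trans ?_ (Finset.card_le_card hSC)
  unfold OC OCt at hS
  rw [Finset.mem_biUnion] at hS
  obtain ⟨t, -, hS⟩ := hS
  rw [Finset.mem_image] at hS
  obtain ⟨s, -, rfl⟩ := hS
  unfold cyc
  rw [Finset.card_image_of_injective _ (ce_injective (by omega) s.injective), Finset.card_univ,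
    Fintype.card_fin]
  omega

/-- Waiter can only win if there is at least one full round. -/
lemma lt_of_wins {r : LastRound} {n q : ℕ} (h : WaiterWins r n q) : q + 1 ≤ n.choose 2 := by
  unfold WaiterWins at h
  rw [← card_E0]
  unfold E0
  generalize (⊤ : SimpleGraph (Fin n)).edgeFinset = X at h ⊢
  generalize hC : (∅ : Finset (Sym2 (Fin n))) = C at h
  cases h with
  | finished C h =>
    have := three_le_of_odd h
    rw [← hC] at this
    simp at this
  | round C U F hFU hF h =>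
    rw [← hF]
    exact Finset.card_le_card hFU
  | last C U hne hU h1 h2 =>
    exfalso
    cases r with
    | clientTakesOne =>
      obtain ⟨e, he⟩ := hne
      have := three_le_of_odd (h1 rfl e he)
      rw [← hC] at this
      simp at this
    | waiterTakesAll =>
      have := three_le_of_odd (h2 rfl)
      rw [← hC] at this
      simp at this

lemma bdd (r : LastRound) (n : ℕ) : BddAbove {q : ℕ | 1 ≤ q ∧ WaiterWins r n q} := by
  refine ⟨n.choose 2, ?_⟩
  rintro q ⟨-, hq⟩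
  have := lt_of_wins hq
  omega

lemma le_threshold {r : LastRound} {n q : ℕ} (h1 : 1 ≤ q) (h : WaiterWins r n q) :
    q ≤ threshold r n := le_csSup (bdd r n) ⟨h1, h⟩

lemma threshold_lower {c : ℝ} (hc0 : 0 < c) (hc1 : c < 1) (hc : 2 < fA c) (r : LastRound) :
    ∀ᶠ n : ℕ in atTop, (n : ℝ) / c - 1 ≤ threshold r n := by
  filter_upwards [waiter_wins hc0 hc1 hc, eventually_ge_atTop 1] with n hn hn1
  have hn0 : (0 : ℝ) < n := by exact_mod_cast hn1
  have hge : (n : ℝ) ≤ n / c := by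
    rw [le_div_iff₀ hc0]; nlinarith
  have h1 : n ≤ ⌊(n : ℝ) / c⌋₊ := Nat.le_floor hge
  have h2 : ((⌊(n : ℝ) / c⌋₊ : ℕ) : ℝ) ≤ n / c := Nat.floor_le (by positivity)
  have h3 := le_threshold (by omega) (hn _ h1 h2 r)
  have h4 := Nat.lt_floor_add_one ((n : ℝ) / c)
  have h5 : ((⌊(n : ℝ) / c⌋₊ : ℕ) : ℝ) ≤ threshold r n := by exact_mod_cast h3
  linarith

lemma threshold_upper {c : ℝ} (hc0 : 0 < c) (hc1 : c < 1) (hc : fA c < 2) (n : ℕ) :
    (threshold LastRound.waiterTakesAll n : ℝ) ≤ n / c := by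
  have h1 : threshold LastRound.waiterTakesAll n ≤ ⌊(n : ℝ) / c⌋₊ := by
    unfold threshold
    apply csSup_le'
    rintro q ⟨-, hq⟩
    apply Nat.le_floor
    by_contra hcon
    push Not at hcon
    refine client_wins hc0 hc1 (q := q) ?_ hc hq
    rw [div_lt_iff₀ hc0] at hcon
    push_cast
    nlinarith
  have h2 : ((⌊(n : ℝ) / c⌋₊ : ℕ) : ℝ) ≤ n / c := Nat.floor_le (by positivity)
  have h3 : (threshold LastRound.waiterTakesAll n : ℝ) ≤ ((⌊(n : ℝ) / c⌋₊ : ℕ) : ℝ) := by
    exact_mod_cast h1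
  linarith

end Pool.Agent.H28R3
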