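import Pool.Agent.H28R3.UphoPoset

namespace Pool.Agent.H28R3.Upho

lemma rk_strictMono : ∀ (l : List G) (hl : ZF l) (β : P → P), StrictMono β →
    rk (β bt) + l.length ≤ rk (β ⟨l, hl⟩)
  | [], _, β, _ => by
      have : (⟨[], by simp⟩ : P) = bt := rfl
      simp [this]
  | x :: l, hl, β, hβ => by
      have hmono : StrictMono (fun r => β (L (at' x) r)) := by
        intro a b hab
        apply hβ
        refine lt_of_le_of_ne ((L_le_iff _ _ _).2 hab.le) ?_
        intro he
        exact hab.ne (L_inj _ he)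
      have h1 := rk_strictMono l hl.tail _ hmono
      simp only [L_bt] at h1
      rw [← cons_eq hl] at h1
      have h2 : bt < at' x := lt_of_le_of_ne (bt_le _) (by
        intro he
        have := congrArg rk he
        simp at this)
      have h3 := rk_lt (hβ h2)
      simp only [List.length_cons]
      omega

lemma rk_iso (α : P ≃o P) (p : P) : rk (α p) = rk p := by
  have h1 := rk_strictMono p.1 p.2 α α.strictMono
  have h2 := rk_strictMono (α p).1 (α p).2 α.symm α.symm.strictMono
  have h3 : (⟨(α p).1, (α p).2⟩ : P) = α p := rfl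
  have h4 : (⟨p.1, p.2⟩ : P) = p := rfl
  rw [h3, α.symm_apply_apply] at h2
  rw [h4] at h1
  have h5 : (α p).1.length = rk (α p) := rfl
  have h6 : p.1.length = rk p := rfl
  rw [h5] at h2
  rw [h6] at h1
  omega

lemma exists_at {p : P} (h : rk p = 1) : ∃ x, p = at' x := by
  obtain ⟨l, hl⟩ := p
  obtain ⟨x, hx⟩ := List.length_eq_one_iff.1 h
  exact ⟨x, Subtype.ext hx⟩

lemma at_inj {x y : G} (h : at' x = at' y) : x = y := by
  have := congrArg Subtype.val h
  simpa [at'] using this

lemma iso_De (α : P ≃o P) : α De = De := by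
  obtain ⟨x, hx⟩ := exists_at (p := α (at' 0)) (by rw [rk_iso]; simp)
  obtain ⟨y, hy⟩ := exists_at (p := α (at' 1)) (by rw [rk_iso]; simp)
  have hxy : x ≠ y := by
    rintro rfl
    have h1 : at' (0 : G) = at' 1 := α.injective (by rw [hx, hy])
    have h2 := at_inj h1
    revert h2; decide
  have h1 : at' x ≤ α De := by rw [← hx]; exact α.monotone (at_le_De 0)
  have h2 : at' y ≤ α De := by rw [← hy]; exact α.monotone (at_le_De 1)
  exact (eq_of_le_of_rk (De_le hxy h1 h2) (by rw [rk_iso])).symm

lemma L_at_De (x : G) : L (at' x) De = L De (at' (2 * x)) := by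
  refine Subtype.ext ?_
  change act x (0 :: [0, 0]) = act 0 (0 :: act 0 (0 :: [2 * x]))
  rw [act_zero, act_zero, act_cons_zero, act_single, zero_add]

lemma L_L_De (z : G) : L (L De (at' z)) De = L De (L De (at' (2 * z))) := by
  have h1 : (L De (at' z)).1 = [0, 0, z] := by
    change act 0 (0 :: act 0 (0 :: [z])) = _
    rw [act_zero, act_zero]
  refine Subtype.ext ?_
  change lam (L De (at' z)).1 [0, 0] = act 0 (0 :: act 0 (0 :: (L De (at' (2 * z))).1))
  rw [h1, act_zero, act_zero, lam_zero_cons, lam_zero_cons, lam_cons, lam_nil_left, act_cons_zero,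
    act_single, zero_add]
  change _ = 0 :: 0 :: act 0 (0 :: act 0 (0 :: [2 * z]))
  rw [act_zero, act_zero]

set_option maxRecDepth 20000 in
lemma no_root : ∀ f : G → G, ¬ (f (f 0) = f (f 2) ∧ f (f 1) = f (f 3) ∧ f (f 0) ≠ f (f 1) ∧
    f (f (f (f 0))) = f (f (f (f 1)))) := by
  decide

/-- No associative, left-cancellative multiplication on `P` has the order of `P` as its left
divisibility order. -/
theorem not_mul (mul : P → P → P)
    (hass : ∀ a b c, mul (mul a b) c = mul a (mul b c))
    (hcan : ∀ a b c, mul a b = mul a c → b = c)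
    (hle : ∀ a b, a ≤ b ↔ ∃ c, mul a c = b) : False := by
  classical
  -- automorphisms
  have haut : ∀ s : P, ∃ α : P ≃o P, ∀ r, L s (α r) = mul s r := by
    intro s
    have h1 : ∀ r, ∃ r', L s r' = mul s r := fun r => (hle s (mul s r)).2 ⟨r, rfl⟩
    choose a ha using h1
    have hiff : ∀ r r', a r ≤ a r' ↔ r ≤ r' := by
      intro r r'
      rw [← L_le_iff s, ha, ha, hle, hle]
      constructor
      · rintro ⟨c, hc⟩
        exact ⟨c, hcan s _ _ (by rw [← hass, hc])⟩
      · rintro ⟨c, hc⟩
        exact ⟨c, by rw [hass, hc]⟩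
    have hinj : Function.Injective a := by
      intro r r' h
      exact le_antisymm ((hiff _ _).1 h.le) ((hiff _ _).1 h.ge)
    have hsurj : Function.Surjective a := by
      intro y
      obtain ⟨c, hc⟩ := (hle s (L s y)).1 (le_L s y)
      refine ⟨c, L_inj s ?_⟩
      rw [ha, hc]
    exact ⟨⟨Equiv.ofBijective a ⟨hinj, hsurj⟩, fun {r r'} => hiff r r'⟩, ha⟩
  choose α hα using haut
  have hDe : ∀ s, mul s De = L s De := by
    intro s
    rw [← hα, iso_De]
  have hf : ∀ x : G, ∃ y : G, mul (at' x) (at' y) = De := by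
    intro x
    obtain ⟨y, hy⟩ := exists_at (p := (α (at' x)).symm (at' 0)) (by rw [rk_iso]; simp)
    refine ⟨y, ?_⟩
    rw [← hy, ← hα, OrderIso.apply_symm_apply, De_eq]
  choose f hf using hf
  have hk : ∀ x : G, ∃ y : G, α De (at' x) = at' y := by
    intro x
    exact exists_at (by rw [rk_iso]; simp)
  choose k hk using hk
  have hkinj : Function.Injective k := by
    intro x y h
    have h1 : α De (at' x) = α De (at' y) := by rw [hk, hk, h]
    exact at_inj ((α De).injective h1)
  have hE1 : ∀ x, mul De (at' (f (f x))) = L De (at' (2 * x)) := by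
    intro x
    rw [← L_at_De, ← hDe (at' x), ← hf (f x), ← hass, hf, hf]
  have hkq : ∀ x, k (f (f x)) = 2 * x := by
    intro x
    have h1 := hE1 x
    rw [← hα, hk] at h1
    exact at_inj (L_inj _ h1)
  have hE2 : ∀ y, α De (L De (at' (2 * y))) = L De (at' (2 * k y)) := by
    intro y
    apply L_inj De
    rw [hα, ← L_L_De, ← hk, hα, ← hDe, hass, hDe (at' y), L_at_De]
  have hconst : ∀ x x' : G, 2 * f (f x) = 2 * f (f x') := by
    intro x x'
    have h0 : ∀ z : G, 2 * (2 * z) = 0 := by decide
    have h1 := hE2 (f (f x))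
    have h2 := hE2 (f (f x'))
    rw [hkq, h0] at h1 h2
    have h3 := (α De).injective (h1.trans h2.symm)
    exact at_inj (L_inj _ h3)
  have hqq : ∀ x x' : G, f (f (f (f x))) = f (f (f (f x'))) := by
    intro x x'
    apply hkinj
    rw [hkq, hkq, hconst x x']
  refine no_root f ⟨?_, ?_, ?_, hqq 0 1⟩
  · apply hkinj; rw [hkq, hkq]; decide
  · apply hkinj; rw [hkq, hkq]; decide
  · intro h
    have := congrArg k h
    rw [hkq, hkq] at this
    revert this; decide

end Pool.Agent.H28R3.Upho
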