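import Pool.Agent.H28R3.UphoWord

namespace Pool.Agent.H28R3.Upho

/-- The ordered set of normal forms. -/
def P : Type := {l : List G // ZF l}

/-- Left multiplication by `p` as a self-map of the set of normal forms. -/
def L (p r : P) : P := ⟨lam p.1 r.1, lam_ZF _ _ r.2⟩

/-- The rank: the length of the normal form. -/
def rk (p : P) : ℕ := p.1.length

lemma rk_L (p r : P) : rk (L p r) = rk p + rk r := length_lam _ _

/-- The least element. -/
def bt : P := ⟨[], by simp⟩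

/-- The atoms. -/
def at' (x : G) : P := ⟨[x], by simp⟩

/-- The join of any two atoms. -/
def De : P := ⟨[0, 0], by simp⟩

@[simp] lemma rk_bt : rk bt = 0 := rfl
@[simp] lemma rk_at (x : G) : rk (at' x) = 1 := rfl
@[simp] lemma rk_De : rk De = 2 := rfl

lemma L_bt (p : P) : L p bt = p := Subtype.ext (lam_nil _ p.2)
lemma bt_L (p : P) : L bt p = p := rfl
lemma L_inj (p : P) : Function.Injective (L p) := fun a b h =>
  Subtype.ext (lam_injective p.1 (congrArg Subtype.val h))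

/-- The group action on normal forms. -/
def A (g : G) (p : P) : P := ⟨act g p.1, act_ZF _ _ p.2⟩

lemma A_neg_A (g : G) (p : P) : A (-g) (A g p) = p := Subtype.ext (act_neg_act _ _)
lemma A_A_neg (g : G) (p : P) : A g (A (-g) p) = p := Subtype.ext (act_act_neg _ _)

lemma L_L (p q : P) : ∃ g : G, ∀ r, L p (L q r) = L (L p q) (A g r) := by
  obtain ⟨g, hg⟩ := lam_lam p.1 q.1 q.2
  exact ⟨g, fun r => Subtype.ext (hg r.1)⟩

instance : PartialOrder P where
  le p q := ∃ r, L p r = q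
  le_refl p := ⟨bt, L_bt p⟩
  le_trans := by
    rintro p q r ⟨a, rfl⟩ ⟨b, rfl⟩
    obtain ⟨g, hg⟩ := L_L p a
    exact ⟨L a (A (-g) b), by rw [hg, A_A_neg]⟩
  le_antisymm := by
    rintro p q ⟨a, rfl⟩ ⟨b, hb⟩
    have h1 := congrArg rk hb
    rw [rk_L, rk_L] at h1
    have ha : rk a = 0 := by omega
    have : a = bt := Subtype.ext (List.eq_nil_of_length_eq_zero ha)
    rw [this, L_bt]

lemma le_def (p q : P) : p ≤ q ↔ ∃ r, L p r = q := Iff.rfl

lemma le_L (p r : P) : p ≤ L p r := ⟨r, rfl⟩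

lemma rk_mono {p q : P} (h : p ≤ q) : rk p ≤ rk q := by
  obtain ⟨r, rfl⟩ := h
  rw [rk_L]; omega

lemma eq_of_le_of_rk {p q : P} (h : p ≤ q) (hr : rk q ≤ rk p) : p = q := by
  obtain ⟨r, rfl⟩ := h
  rw [rk_L] at hr
  have ha : rk r = 0 := by omega
  have : r = bt := Subtype.ext (List.eq_nil_of_length_eq_zero ha)
  rw [this, L_bt]

lemma rk_lt {p q : P} (h : p < q) : rk p < rk q := by
  by_contra hc
  exact h.ne (eq_of_le_of_rk h.le (not_lt.1 hc))

lemma bt_le (p : P) : bt ≤ p := ⟨p, bt_L p⟩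

lemma L_le_iff (p a b : P) : L p a ≤ L p b ↔ a ≤ b := by
  obtain ⟨g, hg⟩ := L_L p a
  constructor
  · rintro ⟨r, hr⟩
    have h1 : L p (L a (A (-g) r)) = L p b := by rw [hg, A_A_neg, hr]
    exact ⟨A (-g) r, L_inj p h1⟩
  · rintro ⟨r, rfl⟩
    exact ⟨A g r, (hg r).symm⟩

/-- Every principal filter is isomorphic to the whole order. -/
theorem upho (p : P) : Nonempty (P ≃o Set.Ici p) := by
  refine ⟨⟨Equiv.ofBijective (fun r => (⟨L p r, le_L p r⟩ : Set.Ici p)) ⟨?_, ?_⟩, ?_⟩⟩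
  · intro a b h
    exact L_inj p (congrArg Subtype.val h)
  · rintro ⟨q, ⟨r, rfl⟩⟩
    exact ⟨r, rfl⟩
  · intro a b
    exact L_le_iff p a b

lemma cons_eq {x : G} {l : List G} (h : ZF (x :: l)) :
    (⟨x :: l, h⟩ : P) = L (at' x) ⟨l, h.tail⟩ :=
  Subtype.ext (act_zero_cons h).symm

/-- Every element of rank at least two has a proper nonzero lower bound. -/
lemma rk_covBy {p q : P} (h : p ⋖ q) : rk q = rk p + 1 := by
  obtain ⟨r, rfl⟩ := h.le
  rw [rk_L]
  obtain ⟨l, hl⟩ := r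
  cases l with
  | nil =>
    exfalso
    have : L p ⟨[], hl⟩ = p := L_bt p
    exact h.ne this.symm
  | cons x l =>
    rw [cons_eq hl] at h ⊢
    have h1 : at' x ≤ L (at' x) ⟨l, hl.tail⟩ := le_L _ _
    have h2 : p ≤ L p (at' x) := le_L _ _
    have h3 : L p (at' x) ≤ L p (L (at' x) ⟨l, hl.tail⟩) := (L_le_iff _ _ _).2 h1
    have h4 : p ≠ L p (at' x) := by
      intro he
      have := congrArg rk he
      rw [rk_L, rk_at] at this
      omega
    have h5 := h.eq_or_eq h2 h3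
    rcases h5 with h5 | h5
    · exact absurd h5.symm h4
    · have := L_inj p h5
      rw [← this]; simp

lemma finite_rank (n : ℕ) : {p : P | rk p = n}.Finite := by
  have : {l : List G | l.length = n}.Finite := List.finite_length_eq G n
  refine Set.Finite.of_injOn (f := Subtype.val) (t := {l : List G | l.length = n}) ?_ ?_ this
  · intro p hp; exact hp
  · intro a _ b _ h; exact Subtype.ext h

/-! ### Joins -/

lemma at_le_De (x : G) : at' x ≤ De := by
  refine ⟨at' 0, Subtype.ext ?_⟩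
  change act x (0 :: [0]) = [0, 0]
  rw [act_cons_zero]; simp

lemma De_eq (x : G) : L (at' x) (at' 0) = De := by
  refine Subtype.ext ?_
  change act x (0 :: [0]) = [0, 0]
  rw [act_cons_zero]; simp

lemma De_le {x y : G} (hxy : x ≠ y) {p : P} (hx : at' x ≤ p) (hy : at' y ≤ p) : De ≤ p := by
  obtain ⟨r, rfl⟩ := hx
  obtain ⟨s, hs⟩ := hy
  have h1 : act y (0 :: s.1) = act x (0 :: r.1) := congrArg Subtype.val hs
  have h2 : act (y - x) (0 :: s.1) = 0 :: r.1 := by
    have := congrArg (act (-x)) h1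
    rw [act_neg_act, act_add] at this
    rw [← this]; congr 1; ring
  have hne : y - x ≠ 0 := sub_ne_zero.2 (Ne.symm hxy)
  obtain ⟨s, hsz⟩ := s
  rw [← hs]
  cases s with
  | nil =>
    simp at h2
    exact absurd h2.1 hne
  | cons z s =>
    by_cases hz : z = 0
    · subst hz
      refine ⟨A (2 * y) ⟨s, hsz.tail⟩, Subtype.ext ?_⟩
      change act 0 (0 :: act 0 (0 :: act (2 * y) s)) = act y (0 :: 0 :: s)
      rw [act_zero, act_zero, act_cons_zero]
    · exfalso
      simp only at h2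
      rw [act_cons_ne _ _ _ _ hz] at h2
      simp at h2
      exact hne h2.1

/-- `m` is the join of `p` and `q`. -/
def IsJoin (p q m : P) : Prop := p ≤ m ∧ q ≤ m ∧ ∀ u, p ≤ u → q ≤ u → m ≤ u

lemma join_L {a p q m : P} (h : IsJoin p q m) : IsJoin (L a p) (L a q) (L a m) := by
  refine ⟨(L_le_iff _ _ _).2 h.1, (L_le_iff _ _ _).2 h.2.1, ?_⟩
  rintro u ⟨u', rfl⟩ hu
  obtain ⟨g, hg⟩ := L_L a p
  rw [← A_A_neg g u', ← hg] at hu ⊢
  rw [L_le_iff] at hu ⊢
  exact h.2.2 _ (le_L _ _) hu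

lemma exists_join_at : ∀ (l : List G) (hl : ZF l) (x : G), ∃ m, IsJoin ⟨l, hl⟩ (at' x) m
  | [], hl, x => ⟨at' x, bt_le _, le_rfl, fun u _ h => h⟩
  | y :: l, hl, x => by
      by_cases hxy : x = y
      · subst hxy
        refine ⟨⟨x :: l, hl⟩, le_rfl, ?_, fun u h _ => h⟩
        rw [cons_eq hl]
        exact le_L _ _
      · obtain ⟨m, hm⟩ := exists_join_at l hl.tail 0
        have hj := join_L (a := at' y) hm
        rw [← cons_eq hl, De_eq] at hj
        refine ⟨L (at' y) m, hj.1, (at_le_De x).trans hj.2.1, fun u h1 h2 => ?_⟩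
        refine hj.2.2 u h1 (De_le hxy h2 ?_)
        refine le_trans ?_ h1
        rw [cons_eq hl]
        exact le_L _ _

lemma exists_join' : ∀ (l : List G) (hl : ZF l) (p : P), ∃ m, IsJoin p ⟨l, hl⟩ m
  | [], hl, p => ⟨p, le_rfl, bt_le p, fun u h _ => h⟩
  | x :: l, hl, p => by
      obtain ⟨s, hs⟩ := exists_join_at p.1 p.2 x
      obtain ⟨s', rfl⟩ := hs.2.1
      obtain ⟨m, hm⟩ := exists_join' l hl.tail s'
      have hj := join_L (a := at' x) hm
      rw [← cons_eq hl] at hj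
      refine ⟨L (at' x) m, hs.1.trans hj.1, hj.2.1, fun u h1 h2 => ?_⟩
      refine hj.2.2 u (hs.2.2 u h1 (le_trans ?_ h2)) h2
      rw [cons_eq hl]
      exact le_L _ _

lemma exists_join (p q : P) : ∃ m, IsJoin p q m := exists_join' q.1 q.2 p

theorem exists_isLUB (p q : P) : ∃ m, IsLUB {p, q} m := by
  obtain ⟨m, h1, h2, h3⟩ := exists_join p q
  refine ⟨m, ?_, ?_⟩
  · rintro z (rfl | hz)
    · exact h1
    · rw [Set.mem_singleton_iff] at hz; rw [hz]; exact h2
  · intro u hu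
    exact h3 u (hu (by simp)) (hu (by simp))

theorem exists_isGLB (p q : P) : ∃ m, IsGLB {p, q} m := by
  classical
  -- a common lower bound of maximal rank
  have hex : ∃ n, ∃ m, m ≤ p ∧ m ≤ q ∧ rk m = n := ⟨0, bt, bt_le _, bt_le _, rfl⟩
  have hb : ∀ n, (∃ m, m ≤ p ∧ m ≤ q ∧ rk m = n) → n ≤ rk p := by
    rintro n ⟨m, h1, _, rfl⟩; exact rk_mono h1
  set N := Nat.findGreatest (fun n => ∃ m, m ≤ p ∧ m ≤ q ∧ rk m = n) (rk p) with hN
  have hNs : ∃ m, m ≤ p ∧ m ≤ q ∧ rk m = N := by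
    have := Nat.findGreatest_spec (P := fun n => ∃ m, m ≤ p ∧ m ≤ q ∧ rk m = n)
      (Nat.zero_le (rk p)) ⟨bt, bt_le _, bt_le _, rfl⟩
    exact this
  obtain ⟨m, hm1, hm2, hm3⟩ := hNs
  refine ⟨m, ?_, ?_⟩
  · rintro z (rfl | hz)
    · exact hm1
    · rw [Set.mem_singleton_iff] at hz; rw [hz]; exact hm2
  · intro u hu
    have hu1 : u ≤ p := hu (by simp)
    have hu2 : u ≤ q := hu (by simp)
    obtain ⟨j, hj1, hj2, hj3⟩ := exists_join m u
    have hjp := hj3 p hm1 hu1
    have hjq := hj3 q hm2 hu2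
    have hjN : rk j ≤ N := by
      rw [hN]
      exact Nat.le_findGreatest (rk_mono hjp) ⟨j, hjp, hjq, rfl⟩
    have : m = j := eq_of_le_of_rk hj1 (by omega)
    rw [this]; exact hj2

end Pool.Agent.H28R3.Upho
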