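import Mathlib

/-!
Normal forms for the monoid generated by `t` and the cyclic group `Z/4` (written additively) with
the relation `g t t = t t (2 g)`, modulo right multiplication by the group.  A normal form is a
list over `Z/4` whose zeros come first.
-/

namespace Pool.Agent.H28R3.Upho

/-- The cyclic group of order four. -/
abbrev G := ZMod 4

/-- Left action of `Z/4` on words. -/
def act : G → List G → List G
  | _, [] => []
  | g, [x] => [x + g]
  | g, x :: y :: l => if y = 0 then x :: y :: act (2 * g) l else (x + g) :: y :: l

/-- The zeros of the list come first. -/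
def ZF : List G → Prop
  | [] => True
  | [_] => True
  | x :: y :: l => (y = 0 → x = 0) ∧ ZF (y :: l)

/-- Left multiplication by the word `p`. -/
def lam : List G → List G → List G
  | [], q => q
  | x :: p, q => act x (0 :: lam p q)

@[simp] lemma act_nil (g : G) : act g [] = [] := by simp [act]
@[simp] lemma act_single (g x : G) : act g [x] = [x + g] := by simp [act]
lemma act_cons_zero (g x : G) (l : List G) : act g (x :: 0 :: l) = x :: 0 :: act (2 * g) l := by
  simp [act]
lemma act_cons_ne (g x y : G) (l : List G) (hy : y ≠ 0) :
    act g (x :: y :: l) = (x + g) :: y :: l := by simp [act, hy]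

@[simp] lemma ZF_nil : ZF [] := by simp [ZF]
@[simp] lemma ZF_single (x : G) : ZF [x] := by simp [ZF]
lemma ZF_cons_cons (x y : G) (l : List G) : ZF (x :: y :: l) ↔ (y = 0 → x = 0) ∧ ZF (y :: l) := by
  simp [ZF]
@[simp] lemma ZF_zero_cons (l : List G) : ZF (0 :: l) ↔ ZF l := by
  cases l with
  | nil => simp
  | cons y l => simp [ZF_cons_cons]
lemma ZF.tail {x : G} {l : List G} (h : ZF (x :: l)) : ZF l := by
  cases l with
  | nil => simp
  | cons y l => exact ((ZF_cons_cons x y l).1 h).2

lemma act_zero : ∀ l : List G, act 0 l = l
  | [] => by simp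
  | [x] => by simp
  | x :: y :: l => by
      by_cases hy : y = 0
      · subst hy; rw [act_cons_zero]; simp [act_zero l]
      · rw [act_cons_ne _ _ _ _ hy]; simp

lemma act_add : ∀ (g h : G) (l : List G), act g (act h l) = act (g + h) l
  | g, h, [] => by simp
  | g, h, [x] => by simp; ring
  | g, h, x :: y :: l => by
      by_cases hy : y = 0
      · subst hy
        rw [act_cons_zero, act_cons_zero, act_cons_zero, act_add (2 * g) (2 * h) l, mul_add]
      · rw [act_cons_ne _ _ _ _ hy, act_cons_ne _ _ _ _ hy, act_cons_ne _ _ _ _ hy]
        congr 1; ring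

lemma act_neg_act (g : G) (l : List G) : act (-g) (act g l) = l := by
  rw [act_add]; simp [act_zero]
lemma act_act_neg (g : G) (l : List G) : act g (act (-g) l) = l := by
  rw [act_add]; simp [act_zero]

lemma act_injective (g : G) : Function.Injective (act g) := fun a b h => by
  rw [← act_neg_act g a, h, act_neg_act]

lemma length_act : ∀ (g : G) (l : List G), (act g l).length = l.length
  | g, [] => by simp
  | g, [x] => by simp
  | g, x :: y :: l => by
      by_cases hy : y = 0
      · subst hy; rw [act_cons_zero]; simp [length_act (2 * g) l]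
      · rw [act_cons_ne _ _ _ _ hy]; simp

lemma act_ZF : ∀ (g : G) (l : List G), ZF l → ZF (act g l)
  | g, [], _ => by simp
  | g, [x], _ => by simp
  | g, x :: y :: l, h => by
      by_cases hy : y = 0
      · subst hy
        rw [act_cons_zero]
        have hx : x = 0 := ((ZF_cons_cons _ _ _).1 h).1 rfl
        subst hx
        have h1 : ZF l := by simpa using h
        simpa using act_ZF (2 * g) l h1
      · rw [act_cons_ne _ _ _ _ hy, ZF_cons_cons]
        exact ⟨fun h0 => absurd h0 hy, h.tail⟩

@[simp] lemma lam_nil_left (q : List G) : lam [] q = q := rfl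
lemma lam_cons (x : G) (p q : List G) : lam (x :: p) q = act x (0 :: lam p q) := rfl
lemma lam_zero_cons (p q : List G) : lam (0 :: p) q = 0 :: lam p q := by
  rw [lam_cons, act_zero]

lemma length_lam (p q : List G) : (lam p q).length = p.length + q.length := by
  induction p with
  | nil => simp
  | cons x p ih => rw [lam_cons, length_act]; simp [ih]; omega

lemma lam_ZF (p q : List G) (hq : ZF q) : ZF (lam p q) := by
  induction p with
  | nil => simpa
  | cons x p ih => rw [lam_cons]; exact act_ZF _ _ (by simpa using ih)

lemma lam_injective (p : List G) : Function.Injective (lam p) := by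
  induction p with
  | nil => exact fun a b h => h
  | cons x p ih =>
    intro a b h
    rw [lam_cons, lam_cons] at h
    have := act_injective x h
    exact ih (by simpa using this)

lemma act_zero_cons {x : G} {l : List G} (h : ZF (x :: l)) : act x (0 :: l) = x :: l := by
  cases l with
  | nil => simp
  | cons y l =>
    by_cases hy : y = 0
    · have hx : x = 0 := ((ZF_cons_cons _ _ _).1 h).1 hy
      subst hx
      exact act_zero _
    · rw [act_cons_ne _ _ _ _ hy]; simp

lemma lam_append (a b : List G) (h : ZF (a ++ b)) : lam a b = a ++ b := by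
  induction a with
  | nil => simp
  | cons x a ih =>
    have h' : ZF (x :: (a ++ b)) := by simpa using h
    rw [lam_cons, ih h'.tail, act_zero_cons h']; simp

lemma lam_nil (p : List G) (h : ZF p) : lam p [] = p := by
  have := lam_append p [] (by simpa using h)
  simpa using this

/-- A group element can be moved to the right through a normal form. -/
lemma act_lam : ∀ (g : G) (l : List G), ZF l →
    ∃ g' : G, ∀ r, act g (lam l r) = lam (act g l) (act g' r)
  | g, [], _ => ⟨g, fun r => by simp⟩
  | g, [x], _ => ⟨0, fun r => by
      rw [lam_cons, act_add, act_single, act_zero, lam_cons, add_comm g x]⟩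
  | g, x :: y :: l, h => by
      by_cases hy : y = 0
      · subst hy
        have hx : x = 0 := ((ZF_cons_cons _ _ _).1 h).1 rfl
        subst hx
        have h1 : ZF l := by simpa using h
        obtain ⟨g', hg'⟩ := act_lam (2 * g) l h1
        refine ⟨g', fun r => ?_⟩
        rw [lam_zero_cons, lam_zero_cons, act_cons_zero, hg' r, act_cons_zero, lam_zero_cons,
          lam_zero_cons]
      · refine ⟨0, fun r => ?_⟩
        rw [act_cons_ne _ _ _ _ hy, act_zero, lam_cons, act_add, lam_cons (x + g), add_comm g x]

lemma lam_lam (p q : List G) (hq : ZF q) :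
    ∃ g : G, ∀ r, lam p (lam q r) = lam (lam p q) (act g r) := by
  induction p with
  | nil => exact ⟨0, fun r => by simp [act_zero]⟩
  | cons x p ih =>
    obtain ⟨g, hg⟩ := ih
    obtain ⟨g', hg'⟩ := act_lam x (0 :: lam p q) (by simpa using lam_ZF p q hq)
    refine ⟨g' + g, fun r => ?_⟩
    rw [lam_cons, hg r, lam_cons, ← lam_zero_cons, hg', act_add]

end Pool.Agent.H28R3.Upho
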