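import Pool.Agent.H28R3.Main

set_option autoImplicit false

namespace Pool.Agent.H28R3

open Finset Filter Topology

variable {n : ℕ}

/-- The edge sets of the cycles of length `2 t + 3`. -/
noncomputable def OCt (n t : ℕ) : Finset (Finset (Sym2 (Fin n))) :=
  Finset.univ.image fun s : Fin (2 * t + 2 + 1) ↪ Fin n => cyc (s : Fin (2 * t + 2 + 1) → Fin n)

/-- The edge sets of the odd cycles. -/
noncomputable def OC (n : ℕ) : Finset (Finset (Sym2 (Fin n))) :=
  (Finset.range n).biUnion (OCt n)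

/-- From a cycle walk to a sequence. -/
lemma seq_of_odd {C : Finset (Sym2 (Fin n))} (h : HasOddCycle C) :
    ∃ S ∈ OC n, S ⊆ C := by
  obtain ⟨v, p, hp, hodd⟩ := h
  have h3 := hp.three_le_length
  obtain ⟨t, ht⟩ : ∃ t, p.length = 2 * t + 2 + 1 := by
    obtain ⟨a, ha⟩ := hodd
    exact ⟨a - 1, by omega⟩
  set f : Fin (2 * t + 2 + 1) → Fin n := fun i => p.getVert i with hf
  have hinj : Function.Injective f := by
    intro a b hab
    have ha := a.2
    have hb := b.2
    have := hp.getVert_injOn' (by rw [Set.mem_ofPred_eq]; omega)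
      (by rw [Set.mem_ofPred_eq]; omega) hab
    exact Fin.ext this
  have hce : ∀ i, ce f i ∈ C := by
    intro i
    rcases Fin.eq_castSucc_or_eq_last i with ⟨i', rfl⟩ | rfl
    · rw [ce_castSucc]
      have h1 : (i' : ℕ) < p.length := by have := i'.2; omega
      have h2 := p.adj_getVert_succ h1
      exact ((SimpleGraph.fromEdgeSet_adj _).mp h2).1
    · rw [ce_last]
      have h1 : 2 * t + 2 < p.length := by omega
      have h2 := p.adj_getVert_succ h1
      have h4 : p.getVert (2 * t + 2 + 1) = p.getVert 0 := by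
        rw [← ht, SimpleGraph.Walk.getVert_length, SimpleGraph.Walk.getVert_zero]
      rw [h4] at h2
      exact ((SimpleGraph.fromEdgeSet_adj _).mp h2).1
  refine ⟨cyc f, ?_, ?_⟩
  · unfold OC OCt
    rw [Finset.mem_biUnion]
    refine ⟨t, ?_, ?_⟩
    · rw [Finset.mem_range]
      have := Fintype.card_le_of_injective f hinj
      rw [Fintype.card_fin, Fintype.card_fin] at this
      omega
    · rw [Finset.mem_image]
      exact ⟨⟨f, hinj⟩, Finset.mem_univ _, rfl⟩
  · intro e he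
    unfold cyc at he
    rw [Finset.mem_image] at he
    obtain ⟨i, -, rfl⟩ := he
    exact hce i

/-- Reflection does not change the edge set. -/
lemma cyc_refl {j : ℕ} (s : Fin (j + 1) → Fin n) (c : Fin (j + 1)) :
    cyc (fun x => s (c - x)) = cyc s := by
  ext e
  unfold cyc
  simp only [Finset.mem_image, Finset.mem_univ, true_and]
  constructor
  · rintro ⟨i, rfl⟩
    refine ⟨c - i - 1, ?_⟩
    have e : c - (i + 1) = c - i - 1 := by abel
    change s(s (c - i - 1), s (c - i - 1 + 1)) = s(s (c - i), s (c - (i + 1)))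
    rw [sub_add_cancel, e, Sym2.eq_swap]
  · rintro ⟨i, rfl⟩
    refine ⟨c - i - 1, ?_⟩
    have e1 : c - (c - i - 1) = i + 1 := by abel
    have e2 : c - (c - i - 1 + 1) = i := by abel
    change s(s (c - (c - i - 1)), s (c - (c - i - 1 + 1))) = s(s i, s (i + 1))
    rw [e1, e2, Sym2.eq_swap]

/-- Rotation of an embedding. -/
def rotE {j : ℕ} (s : Fin (j + 1) ↪ Fin n) (c : Fin (j + 1)) : Fin (j + 1) ↪ Fin n :=
  ⟨fun x => s (x + c), fun _ _ h => add_right_cancel (s.injective h)⟩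

/-- Reflection of an embedding. -/
def refE {j : ℕ} (s : Fin (j + 1) ↪ Fin n) (c : Fin (j + 1)) : Fin (j + 1) ↪ Fin n :=
  ⟨fun x => s (c - x), fun _ _ h => by
    have := s.injective h
    exact sub_right_injective this⟩

/-- Every cycle comes from at least `2 l` sequences. -/
lemma card_OCt (t : ℕ) :
    (2 * (2 * t + 2 + 1)) * (OCt n t).card ≤ n.descFactorial (2 * t + 2 + 1) := by
  classical
  have hcard : (Finset.univ : Finset (Fin (2 * t + 2 + 1) ↪ Fin n)).card
      = n.descFactorial (2 * t + 2 + 1) := by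
    rw [Finset.card_univ, Fintype.card_embedding_eq, Fintype.card_fin, Fintype.card_fin]
  rw [← hcard]
  refine Finset.mul_card_image_le_card _ _ ?_
  intro b hb
  rw [Finset.mem_image] at hb
  obtain ⟨s, -, rfl⟩ := hb
  have hc : (Finset.univ : Finset (Fin (2 * t + 2 + 1) × Bool)).card
      = 2 * (2 * t + 2 + 1) := by
    rw [Finset.card_univ, Fintype.card_prod, Fintype.card_fin, Fintype.card_bool, mul_comm]
  rw [← hc]
  apply Finset.card_le_card_of_injOn (fun x => if x.2 then refE s x.1 else rotE s x.1)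
  · rintro ⟨c, b⟩ _
    rw [Finset.mem_coe, Finset.mem_filter]
    refine ⟨Finset.mem_univ _, ?_⟩
    cases b
    · exact cyc_rot (s : Fin (2 * t + 2 + 1) → Fin n) c
    · exact cyc_refl (s : Fin (2 * t + 2 + 1) → Fin n) c
  · have hone : (1 : Fin (2 * t + 2 + 1)) + 1 ≠ 0 := by
      intro h3
      have h4 := congrArg Fin.val h3
      have h5 : ((1 : Fin (2 * t + 2 + 1)) : ℕ) = 1 := by
        rw [Fin.val_one']
        exact Nat.mod_eq_of_lt (by omega)
      rw [Fin.val_add, h5, Fin.val_zero, Nat.mod_eq_of_lt (by omega : 1 + 1 < 2 * t + 2 + 1)] at h4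
      omega
    have hmix : ∀ c c' : Fin (2 * t + 2 + 1), rotE s c ≠ refE s c' := by
      intro c c' h
      have h0 : s (0 + c) = s (c' - 0) := DFunLike.congr_fun h 0
      have h1 : s (1 + c) = s (c' - 1) := DFunLike.congr_fun h 1
      have e0 := s.injective h0
      have e1 := s.injective h1
      rw [zero_add, sub_zero] at e0
      rw [e0] at e1
      apply hone
      have : (1 : Fin (2 * t + 2 + 1)) + 1 + c' = 0 + c' := by
        rw [zero_add]
        calc (1 : Fin (2 * t + 2 + 1)) + 1 + c' = 1 + (1 + c') := add_assoc _ _ _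
          _ = 1 + (c' - 1) := congrArg (fun z => 1 + z) e1
          _ = c' := by abel
      exact add_right_cancel this
    rintro ⟨c, b⟩ _ ⟨c', b'⟩ _ h
    cases b <;> cases b'
    · have h0 : s (0 + c) = s (0 + c') := DFunLike.congr_fun h 0
      have := s.injective h0
      rw [zero_add, zero_add] at this
      rw [this]
    · exact absurd h (hmix c c')
    · exact absurd h.symm (hmix c' c)
    · have h0 : s (c - 0) = s (c' - 0) := DFunLike.congr_fun h 0
      have := s.injective h0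
      rw [sub_zero, sub_zero] at this
      rw [this]

/-- Client's potential. -/
noncomputable def Pc (m : ℝ) (C U : Finset (Sym2 (Fin n))) : ℝ := ∑ S ∈ OC n, wt m C U S

lemma Pc_ge_one {m : ℝ} (hm : 0 ≤ m) {C U : Finset (Sym2 (Fin n))} (h : HasOddCycle C) :
    1 ≤ Pc m C U := by
  obtain ⟨S, hS, hSC⟩ := seq_of_odd h
  have h1 : wt m C U S = 1 := by
    unfold wt
    apply Finset.prod_eq_one
    intro e he
    unfold ew
    rw [if_pos (hSC he)]
  rw [← h1]
  exact Finset.single_le_sum (f := fun S => wt m C U S) (fun S _ => wt_nonneg hm C U S) hS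

lemma Pc_step {q : ℕ} {C U F : Finset (Sym2 (Fin n))} (hCU : Disjoint C U) (hFU : F ⊆ U)
    (hF : F.card = q + 1) :
    ∑ e ∈ F, Pc ((q + 1 : ℕ) : ℝ) (insert e C) (U \ F)
      ≤ ((q + 1 : ℕ) : ℝ) * Pc ((q + 1 : ℕ) : ℝ) C U := by
  have hm0 : (0 : ℝ) < ((q + 1 : ℕ) : ℝ) := by positivity
  unfold Pc
  rw [Finset.sum_comm, Finset.mul_sum]
  refine Finset.sum_le_sum fun S _ => ?_
  have hw := wt_nonneg hm0.le C U S
  by_cases h0 : S ∩ F = ∅
  · rw [Finset.sum_congr rfl fun e he => wt_step_none he h0, Finset.sum_const, hF, nsmul_eq_mul]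
  by_cases h1 : ∃ f, S ∩ F = {f}
  · obtain ⟨f, hf⟩ := h1
    have hfF : f ∈ F := by
      have : f ∈ S ∩ F := by rw [hf]; simp
      exact (Finset.mem_inter.mp this).2
    have hfS : f ∈ S := by
      have : f ∈ S ∩ F := by rw [hf]; simp
      exact (Finset.mem_inter.mp this).1
    rw [Finset.sum_eq_single_of_mem f hfF]
    · rw [wt_step_one hm0.ne' hCU hFU hfF hf]
    · intro e he hne
      exact wt_step_two hCU hFU hfS hfF hne.symm
  · have : ∀ e ∈ F, wt ((q + 1 : ℕ) : ℝ) (insert e C) (U \ F) S = 0 := by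
      intro e he
      obtain ⟨f, hf, hne⟩ : ∃ f ∈ S ∩ F, f ≠ e := by
        by_contra hcon
        push Not at hcon
        obtain ⟨x, hx⟩ := Finset.nonempty_iff_ne_empty.mpr h0
        apply h1
        refine ⟨e, ?_⟩
        ext y
        constructor
        · intro hy; rw [hcon y hy]; simp
        · intro hy
          rw [Finset.mem_singleton.mp hy, ← hcon x hx]; exact hx
      exact wt_step_two hCU hFU (Finset.mem_inter.mp hf).1 (Finset.mem_inter.mp hf).2 hne
    rw [Finset.sum_eq_zero this]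
    positivity

/-- Waiter can only force a win if the potential is at least one. -/
lemma Pc_of_forces {q : ℕ} {C U : Finset (Sym2 (Fin n))}
    (h : WaiterForces LastRound.waiterTakesAll q C U) :
    Disjoint C U → 1 ≤ Pc ((q + 1 : ℕ) : ℝ) C U := by
  have hm0 : (0 : ℝ) < ((q + 1 : ℕ) : ℝ) := by positivity
  induction h with
  | finished C h => intro _; exact Pc_ge_one hm0.le h
  | round C U F hFU hF h ih =>
    intro hCU
    have h1 : ∀ e ∈ F, 1 ≤ Pc ((q + 1 : ℕ) : ℝ) (insert e C) (U \ F) := by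
      intro e he
      apply ih e he
      rw [Finset.disjoint_left]
      intro x hx hx2
      rw [Finset.mem_sdiff] at hx2
      rw [Finset.mem_insert] at hx
      rcases hx with rfl | hx
      · exact hx2.2 he
      · exact (Finset.disjoint_left.mp hCU hx) hx2.1
    have h2 := Pc_step hCU hFU hF
    have h3 : ∑ _e ∈ F, (1 : ℝ) ≤ ∑ e ∈ F, Pc ((q + 1 : ℕ) : ℝ) (insert e C) (U \ F) :=
      Finset.sum_le_sum h1
    rw [Finset.sum_const, hF, nsmul_eq_mul, mul_one] at h3
    have h4 := h3.trans h2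
    have h5 : ((q + 1 : ℕ) : ℝ) * 1 ≤ ((q + 1 : ℕ) : ℝ) * Pc ((q + 1 : ℕ) : ℝ) C U := by
      rw [mul_one]; exact h4
    exact le_of_mul_le_mul_left h5 hm0
  | last C U hne hU h1 h2 => intro _; exact Pc_ge_one hm0.le (h2 rfl)

lemma sum_biUnion_le' {α β : Type*} [DecidableEq α] [DecidableEq β] (s : Finset α)
    (g : α → Finset β) (f : β → ℝ) (hf : ∀ b, 0 ≤ f b) :
    ∑ b ∈ s.biUnion g, f b ≤ ∑ a ∈ s, ∑ b ∈ g a, f b := by
  induction s using Finset.induction_on with
  | empty => simp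
  | insert a s ha ih =>
    rw [Finset.biUnion_insert, Finset.sum_insert ha]
    have h1 := Finset.sum_union_inter (s₁ := g a) (s₂ := s.biUnion g) (f := f)
    have h2 : 0 ≤ ∑ b ∈ g a ∩ s.biUnion g, f b := Finset.sum_nonneg fun b _ => hf b
    linarith

/-- The initial potential. -/
lemma Pc_init {c : ℝ} (hc0 : 0 < c) (hc1 : c < 1) {q : ℕ} (hq : (n : ℝ) ≤ c * ((q + 1 : ℕ) : ℝ))
    (hc : (Real.log (1 + c) - Real.log (1 - c)) / 2 - c < 2) :
    Pc ((q + 1 : ℕ) : ℝ) ∅ (E0 n) < 1 := by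
  classical
  have hm0 : (0 : ℝ) < ((q + 1 : ℕ) : ℝ) := by positivity
  set m : ℝ := ((q + 1 : ℕ) : ℝ) with hm
  have hnm : n * m⁻¹ ≤ c := by
    rw [mul_inv_le_iff₀ hm0]; exact hq
  have hnm0 : 0 ≤ n * m⁻¹ := by positivity
  have hwt : ∀ t, ∀ S ∈ OCt n t, wt m ∅ (E0 n) S = (m⁻¹) ^ (2 * t + 2 + 1) := by
    intro t S hS
    unfold OCt at hS
    rw [Finset.mem_image] at hS
    obtain ⟨s, -, rfl⟩ := hS
    exact pS_init (by omega) s.injective
  have hterm : ∀ t, ∑ S ∈ OCt n t, wt m ∅ (E0 n) S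
      ≤ (2 * ((2 * t + 2 + 1 : ℕ) : ℝ))⁻¹ * c ^ (2 * t + 2 + 1) := by
    intro t
    rw [Finset.sum_congr rfl (hwt t), Finset.sum_const, nsmul_eq_mul]
    have h1 : ((2 * (2 * t + 2 + 1) : ℕ) : ℝ) * (OCt n t).card ≤ (n : ℝ) ^ (2 * t + 2 + 1) := by
      have := (card_OCt (n := n) t).trans (Nat.descFactorial_le_pow n (2 * t + 2 + 1))
      exact_mod_cast this
    have hpos : (0 : ℝ) < 2 * ((2 * t + 2 + 1 : ℕ) : ℝ) := by positivity
    rw [inv_mul_eq_div, le_div_iff₀ hpos]
    calc ((OCt n t).card : ℝ) * (m⁻¹) ^ (2 * t + 2 + 1) * (2 * ((2 * t + 2 + 1 : ℕ) : ℝ))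
        = (((2 * (2 * t + 2 + 1) : ℕ) : ℝ) * (OCt n t).card) * (m⁻¹) ^ (2 * t + 2 + 1) := by
          push_cast; ring
      _ ≤ (n : ℝ) ^ (2 * t + 2 + 1) * (m⁻¹) ^ (2 * t + 2 + 1) :=
          mul_le_mul_of_nonneg_right h1 (by positivity)
      _ = (n * m⁻¹) ^ (2 * t + 2 + 1) := by rw [mul_pow]
      _ ≤ c ^ (2 * t + 2 + 1) := pow_le_pow_left₀ hnm0 hnm _
  have habs : |c| < 1 := by rw [abs_of_pos hc0]; exact hc1
  have hs := Real.hasSum_log_sub_log_of_abs_lt_one habs
  have hpart : ∑ k ∈ Finset.range (n + 1), (2 : ℝ) * (1 / (2 * (k : ℝ) + 1)) * c ^ (2 * k + 1)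
      ≤ Real.log (1 + c) - Real.log (1 - c) :=
    sum_le_hasSum _ (fun k _ => by positivity) hs
  rw [Finset.sum_range_succ'] at hpart
  have h2 : ∑ k ∈ Finset.range n, (2 : ℝ) * (1 / (2 * ((k + 1 : ℕ) : ℝ) + 1))
        * c ^ (2 * (k + 1) + 1)
      = 4 * ∑ k ∈ Finset.range n, (2 * ((2 * k + 2 + 1 : ℕ) : ℝ))⁻¹ * c ^ (2 * k + 2 + 1) := by
    rw [Finset.mul_sum]
    refine Finset.sum_congr rfl fun k _ => ?_
    have e1 : 2 * (k + 1) + 1 = 2 * k + 2 + 1 := by ring
    rw [e1]
    push_cast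
    have : (2 * (k : ℝ) + 2 + 1) ≠ 0 := by positivity
    have h3 : (2 * ((k : ℝ) + 1) + 1) ≠ 0 := by positivity
    field_simp
    ring
  rw [h2] at hpart
  simp only [CharP.cast_eq_zero, mul_zero, zero_add, div_one, mul_one, pow_one] at hpart
  have h5 : Pc m ∅ (E0 n) ≤ ∑ t ∈ Finset.range n, ∑ S ∈ OCt n t, wt m ∅ (E0 n) S := by
    unfold Pc OC
    exact sum_biUnion_le' _ _ _ fun S => wt_nonneg hm0.le _ _ _
  have h6 : Pc m ∅ (E0 n)
      ≤ ∑ k ∈ Finset.range n, (2 * ((2 * k + 2 + 1 : ℕ) : ℝ))⁻¹ * c ^ (2 * k + 2 + 1) :=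
    h5.trans (Finset.sum_le_sum fun t _ => hterm t)
  linarith

/-- Client wins when the last incomplete round goes to Waiter and `q + 1 ≥ n / c`. -/
theorem client_wins {c : ℝ} (hc0 : 0 < c) (hc1 : c < 1) {q : ℕ}
    (hq : (n : ℝ) ≤ c * ((q + 1 : ℕ) : ℝ))
    (hc : (Real.log (1 + c) - Real.log (1 - c)) / 2 - c < 2) :
    ¬ WaiterWins LastRound.waiterTakesAll n q := by
  intro h
  have h1 := Pc_of_forces h (Finset.disjoint_empty_left _)
  have h2 := Pc_init (n := n) hc0 hc1 hq hc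
  unfold E0 at h2
  linarith

end Pool.Agent.H28R3
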